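import Mathlib

/-!
Representations of a finite group over the real numbers with the same character are isomorphic.
-/

set_option autoImplicit false
set_option linter.style.haveILetI false

noncomputable section

namespace Pool.Agent.H859.ST

open Module

section
variable {G : Type} [Group G] [Finite G]

/-- the average of a linear map -/
theorem exists_average {V W : Type} [AddCommGroup V] [Module ℝ V] [AddCommGroup W] [Module ℝ W]
    (ρ : Representation ℝ G V) (σ : Representation ℝ G W) (f : V →ₗ[ℝ] W)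
    (hf : ∀ g v, f (ρ g v) = σ g (f v)) :
    ∃ u : W →ₗ[ℝ] V, (∀ g w, u (σ g w) = ρ g (u w)) ∧ ∀ v, f (u (f v)) = f v := by
  haveI := Fintype.ofFinite G
  -- a linear map with the second property
  obtain ⟨u₀, hu₀⟩ : ∃ u : W →ₗ[ℝ] V, ∀ v, f (u (f v)) = f v := by
    obtain ⟨s, hs⟩ := f.rangeRestrict.exists_rightInverse_of_surjective f.range_rangeRestrict
    obtain ⟨r, hr⟩ := (LinearMap.range f).subtype.exists_leftInverse_of_injective
      (LinearMap.range f).ker_subtype
    refine ⟨s.comp r, fun v => ?_⟩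
    have h1 : r (f v) = f.rangeRestrict v := by
      have := LinearMap.congr_fun hr (f.rangeRestrict v)
      exact this
    have h2 : f.rangeRestrict (s (f.rangeRestrict v)) = f.rangeRestrict v :=
      LinearMap.congr_fun hs (f.rangeRestrict v)
    show f (s (r (f v))) = f v
    rw [h1]
    exact congrArg Subtype.val h2
  have hc : (Fintype.card G : ℝ) ≠ 0 := by exact_mod_cast Fintype.card_ne_zero
  refine ⟨(Fintype.card G : ℝ)⁻¹ • ∑ h : G, (ρ h).comp (u₀.comp (σ h⁻¹)), ?_, ?_⟩
  · intro g w
    simp only [LinearMap.smul_apply, LinearMap.sum_apply, LinearMap.comp_apply, map_smul, map_sum]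
    congr 1
    rw [← Equiv.sum_comp (Equiv.mulLeft g)]
    refine Finset.sum_congr rfl fun h _ => ?_
    show ρ (g * h) (u₀ (σ (g * h)⁻¹ (σ g w))) = ρ g (ρ h (u₀ (σ h⁻¹ w)))
    rw [map_mul, mul_inv_rev, map_mul, Module.End.mul_apply, Module.End.mul_apply,
      ← Module.End.mul_apply (σ g⁻¹) (σ g), ← map_mul, inv_mul_cancel, map_one,
      Module.End.one_apply]
  · intro v
    simp only [LinearMap.smul_apply, LinearMap.sum_apply, LinearMap.comp_apply, map_smul, map_sum]
    have h1 : ∀ h : G, f (ρ h (u₀ (σ h⁻¹ (f v)))) = f v := by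
      intro h
      rw [hf, show σ h⁻¹ (f v) = f (ρ h⁻¹ v) from (hf _ _).symm, hu₀, hf,
        ← Module.End.mul_apply, ← map_mul, mul_inv_cancel, map_one, Module.End.one_apply]
    rw [Finset.sum_congr rfl fun h _ => h1 h, Finset.sum_const, Finset.card_univ,
      ← Nat.cast_smul_eq_nsmul ℝ, smul_smul, inv_mul_cancel₀ hc, one_smul]

/-- a nonzero intertwining map -/
theorem exists_nonzero {V W : Type} [AddCommGroup V] [Module ℝ V] [FiniteDimensional ℝ V]
    [AddCommGroup W] [Module ℝ W] [FiniteDimensional ℝ W]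
    (ρ : Representation ℝ G V) (σ : Representation ℝ G W)
    (h : ∀ g, ρ.character g = σ.character g) (hV : finrank ℝ V ≠ 0) :
    ∃ f : V →ₗ[ℝ] W, (∀ g v, f (ρ g v) = σ g (f v)) ∧ f ≠ 0 := by
  haveI := Fintype.ofFinite G
  haveI : Invertible (Nat.card G : ℝ) :=
    invertibleOfNonzero (by exact_mod_cast (Nat.card_pos (α := G)).ne')
  have h1 := Representation.card_inv_mul_sum_char_mul_char_eq_finrank (k := ℝ) ρ σ
  have h2 := Representation.card_inv_mul_sum_char_mul_char_eq_finrank (k := ℝ) ρ ρ
  simp only [← h] at h1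
  rw [h1] at h2
  have h3 : finrank ℝ (Representation.IntertwiningMap ρ σ) =
      finrank ℝ (Representation.IntertwiningMap ρ ρ) := by exact_mod_cast h2
  have h4 : finrank ℝ (Representation.IntertwiningMap ρ ρ) ≠ 0 := by
    intro h0
    haveI : FiniteDimensional ℝ (Representation.IntertwiningMap ρ ρ) :=
      Module.Finite.equiv (Representation.invariantsEquivIntertwiningMap ρ ρ)
    have h5 := Module.finrank_zero_iff.mp h0
    have h6 := Subsingleton.elim (Representation.IntertwiningMap.id ρ) 0
    apply hV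
    rw [Module.finrank_zero_iff (R := ℝ)]
    refine ⟨fun v w => ?_⟩
    have h7 : ∀ v : V, v = 0 := fun v =>
      congrArg (fun f : Representation.IntertwiningMap ρ ρ => f v) h6
    rw [h7 v, h7 w]
  have h5 : Nontrivial (Representation.IntertwiningMap ρ σ) := by
    by_contra hne
    rw [not_nontrivial_iff_subsingleton] at hne
    apply h4
    rw [← h3]
    exact Module.finrank_zero_of_subsingleton
  obtain ⟨f, hf⟩ := exists_ne (0 : Representation.IntertwiningMap ρ σ)
  refine ⟨f.toLinearMap, fun g v => f.isIntertwining _ _ g v, fun h0 => hf ?_⟩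
  exact Representation.IntertwiningMap.ext h0

/-- the trace on an invariant subspace -/
theorem trace_sub {V : Type} [AddCommGroup V] [Module ℝ V] [FiniteDimensional ℝ V]
    (K : Submodule ℝ V) (r : V →ₗ[ℝ] V) (hr : ∀ v ∈ K, r v ∈ K) (p : V →ₗ[ℝ] V)
    (hp : ∀ v, p v ∈ K) (hp' : ∀ v ∈ K, p v = v) :
    LinearMap.trace ℝ K (r.restrict hr) = LinearMap.trace ℝ V (r.comp p) := by
  let p' : V →ₗ[ℝ] K := p.codRestrict K hp
  have h1 : r.comp p = K.subtype.comp ((r.restrict hr).comp p') := by
    ext v
    rfl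
  have h2 : ((r.restrict hr).comp p').comp K.subtype = r.restrict hr := by
    ext v
    show r (p v) = r v
    rw [hp' v v.2]
  rw [h1, LinearMap.trace_comp_comm', h2]

theorem iso_of_char (n : ℕ) : ∀ (V W : Type) [AddCommGroup V] [Module ℝ V] [FiniteDimensional ℝ V]
    [AddCommGroup W] [Module ℝ W] [FiniteDimensional ℝ W]
    (ρ : Representation ℝ G V) (σ : Representation ℝ G W), finrank ℝ V = n →
    (∀ g, ρ.character g = σ.character g) → ∃ e : V ≃ₗ[ℝ] W, ∀ g v, e (ρ g v) = σ g (e v) := by
  induction n using Nat.strong_induction_on with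
  | _ n ih =>
  intro V W _ _ _ _ _ _ ρ σ hn h
  have hdim : finrank ℝ V = finrank ℝ W := by
    have h1 := h 1
    rw [Representation.char_one, Representation.char_one] at h1
    exact_mod_cast h1
  by_cases h0 : finrank ℝ V = 0
  · haveI := Module.finrank_zero_iff.mp h0
    haveI := Module.finrank_zero_iff.mp (hdim ▸ h0)
    exact ⟨LinearEquiv.ofFinrankEq V W hdim, fun g v => Subsingleton.elim _ _⟩
  obtain ⟨f, hf, hne⟩ := exists_nonzero ρ σ h h0
  obtain ⟨u, hu, hfu⟩ := exists_average ρ σ f hf
  -- the projections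
  let K : Submodule ℝ V := LinearMap.ker f
  let J : Submodule ℝ W := LinearMap.ker (f.comp u)
  let p : V →ₗ[ℝ] V := LinearMap.id - u.comp f
  let q : W →ₗ[ℝ] W := LinearMap.id - f.comp u
  have hp : ∀ v, p v ∈ K := by
    intro v
    show f (v - u (f v)) = 0
    rw [map_sub, hfu, sub_self]
  have hp' : ∀ v ∈ K, p v = v := by
    intro v hv
    have hv : f v = 0 := hv
    show v - u (f v) = v
    rw [hv, map_zero, sub_zero]
  have hq : ∀ w, q w ∈ J := by
    intro w
    show f (u (w - f (u w))) = 0
    rw [map_sub, map_sub, hfu, sub_self]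
  have hq' : ∀ w ∈ J, q w = w := by
    intro w hw
    have hw : f (u w) = 0 := hw
    show w - f (u w) = w
    rw [hw, sub_zero]
  have hK : ∀ g, ∀ v ∈ K, ρ g v ∈ K := by
    intro g v hv
    have hv : f v = 0 := hv
    show f (ρ g v) = 0
    rw [hf, hv, map_zero]
  have hJ : ∀ g, ∀ w ∈ J, σ g w ∈ J := by
    intro g w hw
    have hw : f (u w) = 0 := hw
    show f (u (σ g w)) = 0
    rw [hu, hf, hw, map_zero]
  let ρK : Representation ℝ G K :=
    { toFun := fun g => (ρ g).restrict (hK g)
      map_one' := by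
        ext v
        simp
      map_mul' := fun g h => by
        ext v
        simp }
  let σJ : Representation ℝ G J :=
    { toFun := fun g => (σ g).restrict (hJ g)
      map_one' := by
        ext v
        simp
      map_mul' := fun g h => by
        ext v
        simp }
  have hch : ∀ g, ρK.character g = σJ.character g := by
    intro g
    have h1 : ρK.character g = LinearMap.trace ℝ V ((ρ g).comp p) :=
      trace_sub K (ρ g) (hK g) p hp hp'
    have h2 : σJ.character g = LinearMap.trace ℝ W ((σ g).comp q) :=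
      trace_sub J (σ g) (hJ g) q hq hq'
    have h3 : (ρ g).comp p = ρ g - ((ρ g).comp u).comp f := by
      ext v
      simp [p]
    have h4 : (σ g).comp q = σ g - f.comp ((ρ g).comp u) := by
      ext v
      simp only [q, LinearMap.comp_apply, LinearMap.sub_apply, LinearMap.id_apply, map_sub]
      rw [← hf]
    rw [h1, h2, h3, h4, map_sub, map_sub, LinearMap.trace_comp_comm']
    have h5 : LinearMap.trace ℝ V (ρ g) = LinearMap.trace ℝ W (σ g) := h g
    rw [h5]
  have hlt : finrank ℝ K < n := by
    rw [← hn]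
    refine Submodule.finrank_lt ?_
    intro htop
    exact hne (LinearMap.ker_eq_top.mp htop)
  obtain ⟨e, he⟩ := ih _ hlt K J ρK σJ rfl hch
  -- the isomorphism
  let F : V →ₗ[ℝ] W := f + (J.subtype.comp e.toLinearMap).comp (p.codRestrict K hp)
  have hF : ∀ v, F v = f v + (e ⟨p v, hp v⟩ : W) := fun v => rfl
  have hinj : Function.Injective F := by
    rw [← LinearMap.ker_eq_bot, LinearMap.ker_eq_bot']
    intro v hv
    rw [hF] at hv
    have h1 : f (u (f v + (e ⟨p v, hp v⟩ : W))) = 0 := by rw [hv, map_zero, map_zero]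
    have h2 : f (u (e ⟨p v, hp v⟩ : W)) = 0 := (e ⟨p v, hp v⟩).2
    rw [map_add, map_add, h2, add_zero, hfu] at h1
    rw [h1, zero_add] at hv
    have h3 : (⟨p v, hp v⟩ : K) = 0 := by
      apply e.injective
      rw [map_zero]
      exact Subtype.ext hv
    have h4 : p v = 0 := congrArg Subtype.val h3
    rwa [hp' v h1] at h4
  refine ⟨LinearEquiv.ofInjectiveOfFinrankEq F hinj hdim, fun g v => ?_⟩
  show F (ρ g v) = σ g (F v)
  rw [hF, hF, map_add, hf]
  congr 1
  have h1 : (⟨p (ρ g v), hp (ρ g v)⟩ : K) = ρK g ⟨p v, hp v⟩ := by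
    apply Subtype.ext
    show ρ g v - u (f (ρ g v)) = ρ g (v - u (f v))
    rw [hf, hu, map_sub]
  rw [h1, he]
  rfl

end

end Pool.Agent.H859.ST
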