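import Mathlib
import Pool.Graph.R_pool_sql_team_seeded_63374d34.N774.Stolz.Defs

/-!
The definitions used in the statement: the real reduced group `C*`-algebra, base change, the module of
the compactly supported spinors of a closed manifold of dimension `0`, the values of the higher index
on these manifolds, the elements of the group which act trivially near a point, and orbits.
-/

set_option autoImplicit false

open Set Manifold Bundle
open scoped Manifold ContDiff Topology

noncomputable section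

namespace Pool.Agent.H859.ST

open Pool.Agent.N774.Stolz

/-! ### The real reduced group algebra -/

section
variable (Γ : Type) [Group Γ]

/-- The real Hilbert space `ℓ²(Γ; ℝ)`. -/
def L2 (Γ : Type) : Type := lp (fun _ : Γ => ℝ) 2

instance instL2NACG (Γ : Type) : NormedAddCommGroup (L2 Γ) :=
  (inferInstance : NormedAddCommGroup (lp (fun _ : Γ => ℝ) 2))

instance instL2NS (Γ : Type) : NormedSpace ℝ (L2 Γ) :=
  (inferInstance : NormedSpace ℝ (lp (fun _ : Γ => ℝ) 2))

/-- The value of a function in `ℓ²(Γ; ℝ)`. -/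
def L2.at {Γ : Type} (f : L2 Γ) (h : Γ) : ℝ := (show lp (fun _ : Γ => ℝ) 2 from f) h

/-- The bounded operators of `ℓ²(Γ; ℝ)`, with the norm topology. -/
def Op (Γ : Type) : Type := L2 Γ →L[ℝ] L2 Γ

instance instOpRing (Γ : Type) : Ring (Op Γ) := (inferInstance : Ring (L2 Γ →L[ℝ] L2 Γ))

instance instOpAlgebra (Γ : Type) : Algebra ℝ (Op Γ) :=
  (inferInstance : Algebra ℝ (L2 Γ →L[ℝ] L2 Γ))

instance instOpTop (Γ : Type) : TopologicalSpace (Op Γ) :=
  (inferInstance : TopologicalSpace (L2 Γ →L[ℝ] L2 Γ))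

instance instOpTopRing (Γ : Type) : @IsSemitopologicalSemiring (Op Γ) (instOpTop Γ)
    (@NonAssocSemiring.toNonUnitalNonAssocSemiring (Op Γ) (@Semiring.toNonAssocSemiring (Op Γ)
      (@Ring.toSemiring (Op Γ) (instOpRing Γ)))) :=
  (inferInstance : IsSemitopologicalSemiring (L2 Γ →L[ℝ] L2 Γ))

variable {Γ}

omit [Group Γ] in
theorem L2.ext {f f' : L2 Γ} (h : ∀ x, f.at x = f'.at x) : f = f' := by
  have h1 : (show lp (fun _ : Γ => ℝ) 2 from f) = (show lp (fun _ : Γ => ℝ) 2 from f') :=
    lp.ext (funext h)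
  exact h1

theorem two_pos' : (0 : ℝ) < (2 : ENNReal).toReal := by simp

theorem mem_ltr (g : Γ) (f : L2 Γ) : Memℓp (fun h : Γ => f.at (g⁻¹ * h)) 2 := by
  rw [memℓp_gen_iff two_pos']
  have h := (memℓp_gen_iff two_pos').mp (lp.memℓp (show lp (fun _ : Γ => ℝ) 2 from f))
  exact (Equiv.summable_iff (Equiv.mulLeft g⁻¹)).mpr h

/-- The left translation `(λ_g f)(h) = f (g⁻¹ h)` of a function in `ℓ²(Γ; ℝ)`. -/
def trans (g : Γ) (f : L2 Γ) : L2 Γ :=
  (show lp (fun _ : Γ => ℝ) 2 from ⟨fun h => f.at (g⁻¹ * h), mem_ltr g f⟩)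

theorem trans_add (g : Γ) (f f' : L2 Γ) : trans g (f + f') = trans g f + trans g f' := rfl

theorem trans_smul (g : Γ) (c : ℝ) (f : L2 Γ) : trans g (c • f) = c • trans g f := rfl

theorem norm_trans (g : Γ) (f : L2 Γ) : ‖trans g f‖ ≤ 1 * ‖f‖ := by
  rw [one_mul]
  have h1 := lp.norm_eq_tsum_rpow two_pos' (show lp (fun _ : Γ => ℝ) 2 from f)
  have h2 := lp.norm_eq_tsum_rpow two_pos' (show lp (fun _ : Γ => ℝ) 2 from trans g f)
  have h3 : ‖(show lp (fun _ : Γ => ℝ) 2 from trans g f)‖ =
      ‖(show lp (fun _ : Γ => ℝ) 2 from f)‖ := by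
    rw [h1, h2]
    exact congrArg (fun x : ℝ => x ^ (1 / (2 : ENNReal).toReal))
      (Equiv.tsum_eq (Equiv.mulLeft g⁻¹) (fun i => ‖f.at i‖ ^ (2 : ENNReal).toReal))
  exact le_of_eq h3

/-- The left translation as a bounded operator of `ℓ²(Γ; ℝ)`. -/
def ltr (g : Γ) : Op Γ :=
  LinearMap.mkContinuous (IsLinearMap.mk' (trans g) ⟨trans_add g, trans_smul g⟩) 1 (norm_trans g)

theorem ltr_apply (g : Γ) (f : L2 Γ) : (show L2 Γ →L[ℝ] L2 Γ from ltr g) f = trans g f := rfl

theorem ltr_one : ltr (1 : Γ) = 1 := by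
  refine ContinuousLinearMap.ext fun f => L2.ext fun h => ?_
  show f.at (1⁻¹ * h) = f.at h
  rw [inv_one, one_mul]

theorem ltr_mul (g g' : Γ) : ltr (g * g') = ltr g * ltr g' := by
  refine ContinuousLinearMap.ext fun f => L2.ext fun h => ?_
  show f.at ((g * g')⁻¹ * h) = f.at (g'⁻¹ * (g⁻¹ * h))
  rw [mul_inv_rev, mul_assoc]

variable (Γ)

/-- The left regular representation of `Γ` on `ℓ²(Γ; ℝ)`. -/
def leftRegular : Γ →* Op Γ := MonoidHom.mk ⟨ltr, ltr_one⟩ ltr_mul

/-- The homomorphism from the real group ring to the bounded operators of `ℓ²(Γ; ℝ)` which maps the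
elements of `Γ` to the left translations. -/
def lam : MonoidAlgebra ℝ Γ →ₐ[ℝ] Op Γ := MonoidAlgebra.lift ℝ (Op Γ) Γ (leftRegular Γ)

/-- The real reduced group `C*`-algebra `C*_r(Γ; ℝ)`, as a subalgebra: the norm closure, in the bounded
operators of `ℓ²(Γ; ℝ)`, of the linear span of the left translations. -/
def CAlg : Subalgebra ℝ (Op Γ) := (lam Γ).range.topologicalClosure

/-- The real reduced group `C*`-algebra `C*_r(Γ; ℝ)`. -/
def CRed : Type := CAlg Γ

instance instCRedRing : Ring (CRed Γ) := (inferInstance : Ring (CAlg Γ))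

instance instCRedTop : TopologicalSpace (CRed Γ) := (inferInstance : TopologicalSpace (CAlg Γ))

theorem lam_mem (a : MonoidAlgebra ℝ Γ) : lam Γ a ∈ CAlg Γ :=
  Subalgebra.le_topologicalClosure _ ⟨a, rfl⟩

/-- The map `ℝ[Γ] → C*_r(Γ; ℝ)` -/
def inclFun (a : MonoidAlgebra ℝ Γ) : CRed Γ := ⟨lam Γ a, lam_mem Γ a⟩

theorem inclFun_one : inclFun Γ 1 = 1 := Subtype.ext (map_one (lam Γ))

theorem inclFun_mul (a b : MonoidAlgebra ℝ Γ) : inclFun Γ (a * b) = inclFun Γ a * inclFun Γ b :=
  Subtype.ext (map_mul (lam Γ) a b)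

theorem inclFun_zero : inclFun Γ 0 = 0 := Subtype.ext (map_zero (lam Γ))

theorem inclFun_add (a b : MonoidAlgebra ℝ Γ) : inclFun Γ (a + b) = inclFun Γ a + inclFun Γ b :=
  Subtype.ext (map_add (lam Γ) a b)

/-- The homomorphism `ℝ[Γ] → C*_r(Γ; ℝ)` which maps the elements of `Γ` to the left translations. -/
def incl : MonoidAlgebra ℝ Γ →+* CRed Γ :=
  RingHom.mk ⟨⟨inclFun Γ, inclFun_one Γ⟩, inclFun_mul Γ⟩ (inclFun_zero Γ) (inclFun_add Γ)

end

/-! ### The index on manifolds of dimension `0` -/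

section
variable {Γ : Type} [Group Γ] {n : ℕ} {X : Type} [TopologicalSpace X] [MulAction Γ X]

/-- The `B`-module `P'` is, by means of the map `u : P → P'`, the module `B ⊗_A P` obtained from
the `A`-module `P` by base change along the ring homomorphism `i : A → B` (given by its universal
property). -/
def IsBaseChangeOf {A B : Type} [Ring A] [Ring B] (i : A →+* B) (P P' : Type) [AddCommGroup P]
    [Module A P] [AddCommGroup P'] [Module B P'] (u : P →+ P') : Prop :=
  (∀ (a : A) (x : P), u (a • x) = i a • u x) ∧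
  ∀ (N : Type) [AddCommGroup N] [Module B N] (f : P →+ N), (∀ (a : A) (x : P), f (a • x) = i a • f x) →
    ∃! f' : P' →ₗ[B] N, ∀ x, f' (u x) = f x

/-- The `ℝ[Γ]`-module `V` is, by means of the map `j`, the module of the compactly supported (real)
spinors of the closed spin manifold `L` of dimension `0`, over the positively oriented points (for
`r = id`) or over the negatively oriented points (for `r` the complex conjugation): a spinor is a
function `φ` on the part of `P` which lies over the standard frames, with `φ (neg e) = -φ e`, and `Γ`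
acts on spinors by `(g φ)(e) = φ(g⁻¹ e)`. -/
structure IsCompactSpinors (L : SpinMfd Γ 0) (r : ℂ → ℂ) (V : FGP (MonoidAlgebra ℝ Γ))
    (j : V.mdl → L.P → ℝ) : Prop where
  injective : Function.Injective j
  add : ∀ v w e, j (v + w) e = j v e + j w e
  smul : ∀ (c : ℝ) (g : Γ) v e, j (MonoidAlgebra.single g c • v) e = c * j v (g⁻¹ • e)
  range : ∀ φ : L.P → ℝ, φ ∈ range j ↔
    (∀ e, φ (L.neg e) = -φ e ∧ (φ e ≠ 0 → ∀ z, ((L.fr e).app 0 z).2 = r z)) ∧
    ∃ K : Set L.carrier, IsCompact K ∧ ∀ e, φ e ≠ 0 → (L.fr e).pt ∈ K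

/-- The values of the map `Θ` on the classes of the closed spin manifolds `L` of dimension `0` are those
of the higher index: `Θ(L) = [R ⊗ V] - [R ⊗ W]`, where `V` and `W` are the `ℝ[Γ]`-modules of the
compactly supported spinors over the positively and over the negatively oriented points
of `L`, and `R ⊗ V` is the module obtained by base change along `i : ℝ[Γ] → R`. -/
def IsIndexOnPoints {R : Type} [Ring R] (i : MonoidAlgebra ℝ Γ →+* R) (B : Factor)
    (Θ : RLim Γ X B 0 → K0 R) : Prop :=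
  ∀ (L : Triple Γ X 0) (V W : FGP (MonoidAlgebra ℝ Γ)) (j : V.mdl → L.P → ℝ) (k : W.mdl → L.P → ℝ)
    (V' W' : FGP R) (u : V.mdl →+ V'.mdl) (w : W.mdl →+ W'.mdl),
    IsCompactSpinors L.toSpinMfd id V j → IsCompactSpinors L.toSpinMfd (starRingEnd ℂ) W k →
    IsBaseChangeOf i V.mdl V'.mdl u → IsBaseChangeOf i W.mdl W'.mdl w →
    Θ (L.cls B) = K0.mk V' - K0.mk W'

/-- The elements of `Γ` which act trivially near `x` (equivalently: which fix `x` and all tangent
vectors at `x`). -/
def germ (M : SpinMfd Γ n) (x : M.carrier) : Set Γ :=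
  {g | ∀ v : T M.toMfd x, DB (fun y : M.toMfd => g • y) (tv x v) = tv x v}

/-- The triple `L` of dimension `0` is the orbit `Γ / G`, with all points positively oriented, the trivial
action of the stabilisers on the spin structure, and the map `g G ↦ g x₀` to `X`: there is a point `y`
with `f y = x₀` and stabiliser `G`, all points of `L` are in the orbit of `y`, and there is a point `e`
of the spin structure which lies over the standard frame at `y` and is fixed by `G`. -/
def IsOrbit (G : Subgroup Γ) (x₀ : X) (L : Triple Γ X 0) : Prop :=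
  ∃ y : L.carrier, L.f y = x₀ ∧ (∀ z : L.carrier, ∃ g : Γ, z = g • y) ∧
    (∀ g : Γ, g • y = y ↔ g ∈ G) ∧
    ∃ e : L.P, (L.fr e).pt = y ∧ (∀ z : ℂ, ((L.fr e).app 0 z).2 = z) ∧ ∀ g ∈ G, g • e = e

end

end Pool.Agent.H859.ST
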