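import Mathlib
import Pool.Agent.H859.ST.Stmt

/-!
Dual bases, base change and the trace on `K₀`.
-/

set_option autoImplicit false
set_option linter.style.haveILetI false

noncomputable section

namespace Pool.Agent.H859.ST

open Pool.Agent.N774.Stolz

variable {A : Type} [Ring A]

/-- a finite dual basis of a module -/
structure DualBasis (A : Type) [Ring A] (P : Type) [AddCommGroup P] [Module A P] where
  J : Type
  [fin : Fintype J]
  x : J → P
  f : J → P →ₗ[A] A
  sum : ∀ p, ∑ j, f j p • x j = p

attribute [instance] DualBasis.fin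

section
variable {P : Type} [AddCommGroup P] [Module A P]

theorem DualBasis.finite (b : DualBasis A P) : Module.Finite A P := by
  classical
  refine ⟨⟨Finset.univ.image b.x, ?_⟩⟩
  rw [eq_top_iff]
  intro p _
  rw [← b.sum p]
  refine Submodule.sum_mem _ fun j _ => Submodule.smul_mem _ _ (Submodule.subset_span ?_)
  simp

theorem DualBasis.projective (b : DualBasis A P) : Module.Projective A P := by
  refine Module.Projective.of_split (LinearMap.pi b.f)
    (∑ j, (LinearMap.proj j : (b.J → A) →ₗ[A] A).smulRight (b.x j)) ?_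
  ext p
  simp [b.sum p]

/-- the module as a finitely generated projective module -/
@[reducible] def DualBasis.fgp (b : DualBasis A P) : FGP A where
  mdl := P
  fin := b.finite
  proj := b.projective

theorem exists_dualBasis [Module.Finite A P] [Module.Projective A P] :
    Nonempty (DualBasis A P) := by
  obtain ⟨n, π, hπ⟩ := Module.Finite.exists_fin' A P
  obtain ⟨s, hs⟩ := Module.projective_lifting_property π LinearMap.id hπ
  refine ⟨⟨Fin n, fun j => π (Pi.single j 1), fun j => (LinearMap.proj j).comp s, ?_⟩⟩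
  intro p
  have h1 : ∑ j, (s p) j • (Pi.single j (1 : A) : Fin n → A) = s p := by
    ext k
    simp [Finset.sum_apply, Pi.single_apply]
  have h2 := congrArg π h1
  rw [map_sum] at h2
  simp only [map_smul] at h2
  have h3 : π (s p) = p := LinearMap.congr_fun hs p
  rw [h3] at h2
  exact h2

/-- the trace of a dual basis -/
def DualBasis.tr (b : DualBasis A P) (τ : A →+ ℝ) : ℝ := ∑ j, τ (b.f j (b.x j))

/-- a trace on a ring -/
def IsTrace (τ : A →+ ℝ) : Prop := ∀ a b, τ (a * b) = τ (b * a)

theorem DualBasis.tr_eq {τ : A →+ ℝ} (hτ : IsTrace τ) (b c : DualBasis A P) : b.tr τ = c.tr τ := by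
  have h1 : ∀ j, b.f j (b.x j) = ∑ k, c.f k (b.x j) * b.f j (c.x k) := by
    intro j
    conv_lhs => rw [← c.sum (b.x j)]
    rw [map_sum]
    exact Finset.sum_congr rfl fun k _ => by rw [map_smul, smul_eq_mul]
  have h2 : ∀ k, c.f k (c.x k) = ∑ j, b.f j (c.x k) * c.f k (b.x j) := by
    intro j
    conv_lhs => rw [← b.sum (c.x j)]
    rw [map_sum]
    exact Finset.sum_congr rfl fun k _ => by rw [map_smul, smul_eq_mul]
  unfold DualBasis.tr
  simp only [h1, h2, map_sum]
  rw [Finset.sum_comm]
  exact Finset.sum_congr rfl fun k _ => Finset.sum_congr rfl fun j _ => hτ _ _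

/-- transport of a dual basis -/
def DualBasis.map {Q : Type} [AddCommGroup Q] [Module A Q] (b : DualBasis A P) (e : P ≃ₗ[A] Q) :
    DualBasis A Q where
  J := b.J
  x j := e (b.x j)
  f j := (b.f j).comp e.symm.toLinearMap
  sum q := by
    have h := congrArg e (b.sum (e.symm q))
    rw [map_sum, LinearEquiv.apply_symm_apply] at h
    simpa only [map_smul, LinearMap.comp_apply, LinearEquiv.coe_coe] using h

theorem DualBasis.tr_map {Q : Type} [AddCommGroup Q] [Module A Q] (b : DualBasis A P)
    (e : P ≃ₗ[A] Q) (τ : A →+ ℝ) : (b.map e).tr τ = b.tr τ := by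
  unfold DualBasis.tr DualBasis.map
  simp

/-- the sum of two dual bases -/
def DualBasis.prod {Q : Type} [AddCommGroup Q] [Module A Q] (b : DualBasis A P)
    (c : DualBasis A Q) : DualBasis A (P × Q) where
  J := b.J ⊕ c.J
  x := Sum.elim (fun j => (b.x j, 0)) (fun k => (0, c.x k))
  f := Sum.elim (fun j => (b.f j).comp (LinearMap.fst A P Q))
    (fun k => (c.f k).comp (LinearMap.snd A P Q))
  sum p := by
    rw [Fintype.sum_sum_type]
    simp only [Sum.elim_inl, Sum.elim_inr, LinearMap.comp_apply, LinearMap.fst_apply,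
      LinearMap.snd_apply, Prod.smul_mk, smul_zero]
    refine Prod.ext ?_ ?_
    · rw [Prod.fst_add, Prod.fst_sum, Prod.fst_sum]
      simp [b.sum p.1]
    · rw [Prod.snd_add, Prod.snd_sum, Prod.snd_sum]
      simp [c.sum p.2]

theorem DualBasis.tr_prod {Q : Type} [AddCommGroup Q] [Module A Q] (b : DualBasis A P)
    (c : DualBasis A Q) (τ : A →+ ℝ) : (b.prod c).tr τ = b.tr τ + c.tr τ := by
  unfold DualBasis.tr
  rw [show (∑ j, τ ((b.prod c).f j ((b.prod c).x j))) = ∑ j : b.J ⊕ c.J,
    τ ((b.prod c).f j ((b.prod c).x j)) from rfl, Fintype.sum_sum_type]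
  rfl

end

/-- the trace of a finitely generated projective module -/
def rk (τ : A →+ ℝ) (P : FGP A) : ℝ := (Classical.choice (exists_dualBasis (A := A) (P := P.mdl))).tr τ

theorem rk_eq {τ : A →+ ℝ} (hτ : IsTrace τ) (P : FGP A) (b : DualBasis A P.mdl) :
    rk τ P = b.tr τ := DualBasis.tr_eq hτ _ _

/-- the trace on `K₀` -/
def trK (τ : A →+ ℝ) (hτ : IsTrace τ) : K0 A →+ ℝ :=
  QuotientAddGroup.lift _ (FreeAbelianGroup.lift (rk τ)) (by
    rw [AddSubgroup.closure_le]
    rintro x ⟨P, Q, R, ⟨e⟩, rfl⟩
    simp only [SetLike.mem_coe, AddMonoidHom.mem_ker, map_sub, map_add,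
      FreeAbelianGroup.lift_apply_of]
    obtain ⟨b⟩ := exists_dualBasis (A := A) (P := P.mdl)
    obtain ⟨c⟩ := exists_dualBasis (A := A) (P := Q.mdl)
    rw [rk_eq hτ P b, rk_eq hτ Q c, rk_eq hτ R ((b.prod c).map e.symm), DualBasis.tr_map,
      DualBasis.tr_prod]
    ring)

theorem trK_mk {τ : A →+ ℝ} (hτ : IsTrace τ) (P : FGP A) (b : DualBasis A P.mdl) :
    trK τ hτ (K0.mk P) = b.tr τ := by
  rw [← rk_eq hτ P b]
  show FreeAbelianGroup.lift (rk τ) (FreeAbelianGroup.of P) = _
  rw [FreeAbelianGroup.lift_apply_of]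

/-! ### Base change -/

section
variable {B : Type} [Ring B] {i : A →+* B} {P P' : Type} [AddCommGroup P]
    [Module A P] [AddCommGroup P'] [Module B P'] {u : P →+ P'}

/-- base change of a dual basis -/
theorem IsBaseChangeOf.dualBasis (h : IsBaseChangeOf i P P' u) (b : DualBasis A P) :
    ∃ c : DualBasis B P', ∀ τ : B →+ ℝ, c.tr τ = b.tr (τ.comp i.toAddMonoidHom) := by
  have h1 : ∀ j, ∃ f' : P' →ₗ[B] B, ∀ x, f' (u x) = i (b.f j x) := by
    intro j
    obtain ⟨f', hf', _⟩ := h.2 B (i.toAddMonoidHom.comp (b.f j).toAddMonoidHom) (by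
      intro a x
      show i (b.f j (a • x)) = i a * i (b.f j x)
      rw [map_smul, smul_eq_mul, map_mul])
    exact ⟨f', hf'⟩
  choose f' hf' using h1
  refine ⟨⟨b.J, fun j => u (b.x j), f', ?_⟩, ?_⟩
  · obtain ⟨g, _, hg⟩ := h.2 P' u h.1
    have e1 : (∑ j, (f' j).smulRight (u (b.x j)) : P' →ₗ[B] P') = g := by
      apply hg
      intro x
      have h2 := congrArg u (b.sum x)
      rw [map_sum] at h2
      simp only [h.1] at h2
      simpa [hf'] using h2
    have e2 : (LinearMap.id : P' →ₗ[B] P') = g := hg _ fun x => rfl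
    intro p
    have e3 := LinearMap.congr_fun (e1.trans e2.symm) p
    simpa using e3
  · intro τ
    unfold DualBasis.tr
    simp only [hf']
    rfl

theorem IsBaseChangeOf.congr {Q : Type} [AddCommGroup Q] [Module A Q]
    (h : IsBaseChangeOf i P P' u) (e : Q ≃ₗ[A] P) :
    IsBaseChangeOf i Q P' (u.comp e.toLinearMap.toAddMonoidHom) := by
  refine ⟨fun a x => ?_, fun N _ _ f hf => ?_⟩
  · show u (e (a • x)) = i a • u (e x)
    rw [map_smul, h.1]
  · obtain ⟨f', hf', hu⟩ := h.2 N (f.comp e.symm.toLinearMap.toAddMonoidHom) (by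
      intro a x
      show f (e.symm (a • x)) = i a • f (e.symm x)
      rw [map_smul, hf])
    refine ⟨f', fun x => ?_, fun g hg => hu g fun x => ?_⟩
    · have := hf' (e x)
      simpa using this
    · have := hg (e.symm x)
      simpa using this

end

/-- base changes of finitely generated projective modules exist -/
theorem exists_baseChange {A B : Type} [Ring A] [Ring B] (i : A →+* B) {P : Type} [AddCommGroup P]
    [Module A P] (b : DualBasis A P) :
    ∃ (P' : FGP B) (u : P →+ P'.mdl), IsBaseChangeOf i P P'.mdl u := by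
  classical
  -- the projection
  let E : (b.J → B) →ₗ[B] (b.J → B) :=
    LinearMap.pi fun k => ∑ j, (LinearMap.proj j : (b.J → B) →ₗ[B] B).smulRight (i (b.f k (b.x j)))
  have hE : ∀ v k, E v k = ∑ j, v j * i (b.f k (b.x j)) := by
    intro v k
    simp [E]
  have hk : ∀ k p, b.f k p = ∑ j, b.f j p * b.f k (b.x j) := by
    intro k p
    conv_lhs => rw [← b.sum p]
    rw [map_sum]
    exact Finset.sum_congr rfl fun j _ => by rw [map_smul, smul_eq_mul]
  have hEE : ∀ v, E (E v) = E v := by
    intro v
    funext k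
    rw [hE, hE]
    simp only [hE, Finset.sum_mul]
    rw [Finset.sum_comm]
    refine Finset.sum_congr rfl fun j _ => ?_
    rw [hk k (b.x j), map_sum, Finset.mul_sum]
    refine Finset.sum_congr rfl fun l _ => ?_
    rw [map_mul, mul_assoc]
  let V : Submodule B (b.J → B) := LinearMap.range E
  have hV : ∀ v : V, E v = v := by
    rintro ⟨_, w, rfl⟩
    exact hEE w
  haveI : Module.Finite B V := Module.Finite.range E
  haveI : Module.Projective B V := by
    refine Module.Projective.of_split V.subtype E.rangeRestrict ?_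
    ext v
    have := hV v
    exact congrFun this _
  let P' : FGP B := { mdl := V }
  have hu : ∀ p : P, (fun j => i (b.f j p)) ∈ V := by
    intro p
    refine ⟨fun j => i (b.f j p), ?_⟩
    funext k
    rw [hE]
    rw [hk k p, map_sum]
    exact Finset.sum_congr rfl fun j _ => (map_mul _ _ _).symm
  let u : P →+ V :=
    { toFun := fun p => ⟨fun j => i (b.f j p), hu p⟩
      map_zero' := by
        ext j
        simp
      map_add' := fun p q => by
        ext j
        simp }
  refine ⟨P', u, fun a x => ?_, fun N _ _ f hf => ?_⟩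
  · apply Subtype.ext
    funext j
    show i (b.f j (a • x)) = i a * i (b.f j x)
    rw [map_smul, smul_eq_mul, map_mul]
  · let f' : V →ₗ[B] N :=
      (∑ j, (LinearMap.proj j : (b.J → B) →ₗ[B] B).smulRight (f (b.x j))).comp V.subtype
    have hf' : ∀ v : V, f' v = ∑ j, (v : b.J → B) j • f (b.x j) := by
      intro v
      simp [f']
    have h1 : ∀ x, f' (u x) = f x := by
      intro x
      rw [hf']
      show ∑ j, i (b.f j x) • f (b.x j) = f x
      conv_rhs => rw [← b.sum x]
      rw [map_sum]
      exact Finset.sum_congr rfl fun j _ => (hf _ _).symm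
    refine ⟨f', h1, fun g hg => ?_⟩
    refine LinearMap.ext fun v => ?_
    have h2 : v = ∑ j, (v : b.J → B) j • u (b.x j) := by
      apply Subtype.ext
      funext k
      have h3 := congrFun (hV v) k
      rw [hE] at h3
      rw [Submodule.coe_sum, Finset.sum_apply]
      exact h3.symm
    rw [hf']
    conv_lhs => rw [h2]
    rw [map_sum]
    refine Finset.sum_congr rfl fun j _ => ?_
    rw [map_smul]
    exact congrArg _ (hg _)

end Pool.Agent.H859.ST
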