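import Mathlib
import Pool.Graph.R_pool_sql_team_seeded_63374d34.N774.Stolz.RelTw
import Pool.Agent.H859.ST.Stmt

/-!
The elements of `Γ` which act trivially near a point, and the operation which reverses the
orientation of a part of a `Γ`-manifold determined by these elements.
-/

set_option autoImplicit false
set_option linter.style.haveILetI false

open Set Manifold Bundle
open scoped Manifold ContDiff Topology

noncomputable section

namespace Pool.Agent.H859.ST

open Pool.Agent.N774.Stolz

variable {Γ : Type} [Group Γ] {n : ℕ}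

variable (M : SpinMfd Γ n)

theorem smul_of_germ {x : M.carrier} {g : Γ} (hg : g ∈ germ M x) : g • x = x :=
  congrArg TB.pt (hg 0)

theorem finite_stab (x : M.carrier) : {g : Γ | g • x = x}.Finite := by
  refine (M.proper {x} isCompact_singleton).subset ?_
  intro g hg
  refine ⟨x, ⟨x, rfl, hg⟩, rfl⟩

theorem isOfFinOrder_of_smul {x : M.carrier} {g : Γ} (hg : g • x = x) : IsOfFinOrder g := by
  have h : (Subgroup.zpowers g : Set Γ) ⊆ {g : Γ | g • x = x} := by
    intro k hk
    obtain ⟨i, rfl⟩ := hk
    show g ^ i • x = x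
    have h1 : g ∈ MulAction.stabilizer Γ x := hg
    exact (MulAction.stabilizer Γ x).zpow_mem h1 i
  have h2 : (Subgroup.zpowers g : Set Γ).Finite := (finite_stab M x).subset h
  exact finite_zpowers.mp h2

theorem mem_germ_iff (g : Γ) (e : M.P) :
    g ∈ germ M (M.fr e).pt ↔ g • e = e ∨ g • e = M.neg e := by
  constructor
  · intro h
    apply (M.fr_eq_iff _ _).mp
    apply Frame.ext_val
    intro a
    rw [M.fr_smul]
    have h := h ((M.fr e).lin a).1
    exact Prod.ext h rfl
  · intro h v
    have h1 := (M.fr_eq_iff _ _).mpr h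
    obtain ⟨a, ha⟩ := (M.fr e).lin.surjective (v, 0)
    have h2 := M.fr_smul g e a
    rw [h1] at h2
    have h3 := congrArg Prod.fst h2
    simp only [Frame.val, Frame.app, DC] at h3
    rw [ha] at h3
    exact h3.symm

theorem isOpen_mem_germ (g : Γ) : IsOpen {x : M.carrier | g ∈ germ M x} := by
  by_cases hg : IsOfFinOrder g
  · refine isOpen_fixed (Im n) (M.smooth_smul g) hg.orderOf_pos fun x => ?_
    rw [smul_iterate, pow_orderOf_eq_one]
    exact one_smul Γ x
  · have : {x : M.carrier | g ∈ germ M x} = ∅ := by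
      ext x
      simp only [mem_ofPred_eq, mem_empty_iff_false, iff_false]
      exact fun h => hg (isOfFinOrder_of_smul M (smul_of_germ M h))
    rw [this]
    exact isOpen_empty

theorem isClosed_mem_germ (g : Γ) : IsClosed {e : M.P | g ∈ germ M (M.fr e).pt} := by
  have : {e : M.P | g ∈ germ M (M.fr e).pt} = {e : M.P | g • e = e} ∪ {e : M.P | g • e = M.neg e} := by
    ext e
    exact mem_germ_iff M g e
  rw [this]
  exact (isClosed_eq (M.continuous_smulP g) continuous_id).union
    (isClosed_eq (M.continuous_smulP g) M.continuous_neg)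

theorem continuous_ptfr : Continuous (fun e : M.P => (M.fr e).pt) :=
  (continuous_pt M.toMfd).comp M.continuous_fr

theorem locallyCompact (N : Mfd n) : LocallyCompactSpace N := by
  haveI : FiniteDimensional ℝ (E n) := inferInstanceAs (FiniteDimensional ℝ (EuclideanSpace ℝ (Fin n)))
  exact Manifold.locallyCompact_of_finiteDimensional (Im n)

/-- the elements of `Γ` acting trivially near a point do not change near the point -/
theorem germ_eventually (e : M.P) :
    ∀ᶠ e' in 𝓝 e, germ M (M.fr e').pt = germ M (M.fr e).pt := by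
  haveI := locallyCompact M.toMfd
  obtain ⟨K, hK, hKx⟩ := exists_compact_mem_nhds ((M.fr e).pt)
  have hF := M.proper K hK
  have h1 : ∀ᶠ e' in 𝓝 e, (M.fr e').pt ∈ K := (continuous_ptfr M).continuousAt.eventually hKx
  have h2 : ∀ᶠ e' in 𝓝 e, ∀ g ∈ {g : Γ | ((fun x => g • x) '' K ∩ K).Nonempty},
      (g ∈ germ M (M.fr e').pt ↔ g ∈ germ M (M.fr e).pt) := by
    rw [Filter.eventually_all_finite hF]
    intro g _
    by_cases hg : g ∈ germ M (M.fr e).pt
    · have h3 : ∀ᶠ e' in 𝓝 e, g ∈ germ M (M.fr e').pt :=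
        (continuous_ptfr M).continuousAt.eventually ((isOpen_mem_germ M g).mem_nhds hg)
      filter_upwards [h3] with e' he'
      exact iff_of_true he' hg
    · have h3 : ∀ᶠ e' in 𝓝 e, e' ∈ {e : M.P | g ∈ germ M (M.fr e).pt}ᶜ :=
        (isClosed_mem_germ M g).isOpen_compl.mem_nhds hg
      filter_upwards [h3] with e' he'
      exact iff_of_false he' hg
  filter_upwards [h1, h2] with e' h1 h2
  ext g
  by_cases hg : g ∈ {g : Γ | ((fun x => g • x) '' K ∩ K).Nonempty}
  · exact h2 g hg
  · have hx : (M.fr e).pt ∈ K := mem_of_mem_nhds hKx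
    refine iff_of_false (fun h => hg ?_) (fun h => hg ?_)
    · exact ⟨(M.fr e').pt, ⟨_, h1, smul_of_germ M h⟩, h1⟩
    · exact ⟨(M.fr e).pt, ⟨_, hx, smul_of_germ M h⟩, hx⟩

theorem DB_one (p : TB M.toMfd) : DB (fun y : M.toMfd => (1 : Γ) • y) p = p := by
  have h : (fun y : M.toMfd => (1 : Γ) • y) = id := by
    funext y
    exact one_smul Γ y
  rw [h]
  show tangentMap (Im n) (Im n) id p = p
  rw [tangentMap_id]
  rfl

theorem DB_mul (g h : Γ) (p : TB M.toMfd) :
    DB (fun y : M.toMfd => (g * h) • y) p =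
      DB (fun y : M.toMfd => g • y) (DB (fun y : M.toMfd => h • y) p) := by
  rw [← DB_comp (M.smooth_smul g) (M.smooth_smul h)]
  have : (fun y : M.toMfd => g • y) ∘ (fun y : M.toMfd => h • y) =
      (fun y : M.toMfd => (g * h) • y) := by
    funext y
    exact (mul_smul g h y).symm
  rw [this]

theorem germ_smul (g : Γ) (x : M.carrier) :
    germ M (g • x) = {h | g⁻¹ * h * g ∈ germ M x} := by
  have key : ∀ (g : Γ) (x : M.carrier) (h : Γ), h ∈ germ M (g • x) → g⁻¹ * h * g ∈ germ M x := by
    intro g x h hh v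
    rw [DB_mul, DB_mul]
    have h1 : DB (fun y : M.toMfd => g • y) (tv x v) =
        tv (g • x) (D (M := M.toMfd) (N := M.toMfd) (fun y => g • y) x v) := rfl
    rw [h1, hh, ← h1, ← DB_mul, inv_mul_cancel, DB_one]
  ext h
  constructor
  · exact key g x h
  · intro hh
    have h1 := key g⁻¹ (g • x) (g⁻¹ * h * g) (by rw [inv_smul_smul]; exact hh)
    have h2 : g⁻¹⁻¹ * (g⁻¹ * h * g) * g⁻¹ = h := by group
    rwa [h2] at h1

/-! ### The reversal of the orientation of a part -/

/-- a property of sets of elements of `Γ` which is invariant under conjugation -/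
def ConjInv (Q : Set Γ → Prop) : Prop := ∀ (g : Γ) (S : Set Γ), Q {h | g⁻¹ * h * g ∈ S} ↔ Q S

/-- the points with the property `Q` -/
def part (Q : Set Γ → Prop) : Set M.carrier := {x | Q (germ M x)}

theorem smul_mem_part {Q : Set Γ → Prop} (hQ : ConjInv Q) (g : Γ) (x : M.carrier) :
    g • x ∈ part M Q ↔ x ∈ part M Q := by
  show Q (germ M (g • x)) ↔ Q (germ M x)
  rw [germ_smul]
  exact hQ g _

theorem isClopen_part (Q : Set Γ → Prop) : IsClopen {e : M.P | (M.fr e).pt ∈ part M Q} := by
  have h : IsLocallyConstant (fun e : M.P => germ M (M.fr e).pt) :=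
    (IsLocallyConstant.iff_eventually_eq _).mpr (germ_eventually M)
  have h1 : ∀ s : Set (Set Γ), IsOpen ((fun e : M.P => germ M (M.fr e).pt) ⁻¹' s) := fun s => h s
  exact ⟨⟨h1 {S | ¬ Q S}⟩, h1 {S | Q S}⟩

/-- the complex conjugation of the second summand of `ℝⁿ ⊕ ℂ` -/
def cj : (E n × ℂ) ≃ₗ[ℝ] (E n × ℂ) :=
  (LinearEquiv.refl ℝ (E n)).prodCongr Complex.conjAe.toLinearEquiv

theorem cj_apply (a : E n × ℂ) : cj a = (a.1, (starRingEnd ℂ) a.2) := rfl

theorem cj_cj (a : E n × ℂ) : cj (cj a) = a := by
  simp [cj_apply]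

theorem comp_val {M : Mfd n} (F : Frame M) (u : (E n × ℂ) ≃ₗ[ℝ] (E n × ℂ)) (a : E n × ℂ) :
    (F.comp u).val a = F.val (u a) := rfl

theorem comp_cj_cj {M : Mfd n} (F : Frame M) : (F.comp cj).comp cj = F := by
  apply Frame.ext_val
  intro a
  rw [comp_val, comp_val, cj_cj]

theorem comp_cj_inj {M : Mfd n} {F G : Frame M} : F.comp cj = G.comp cj ↔ F = G := by
  constructor
  · intro h
    rw [← comp_cj_cj F, h, comp_cj_cj]
  · rintro rfl
    rfl

theorem continuous_comp {M : Mfd n} (u : (E n × ℂ) ≃ₗ[ℝ] (E n × ℂ)) :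
    Continuous (fun F : Frame M => F.comp u) := by
  refine continuous_induced_rng.mpr (continuous_pi fun a => ?_)
  show Continuous (fun F : Frame M => (F.comp u).val a)
  simp only [comp_val]
  exact continuous_val M (u a)

theorem isOpenMap_comp_cj {M : Mfd n} : IsOpenMap (fun F : Frame M => F.comp cj) := by
  intro W hW
  have : (fun F : Frame M => F.comp cj) '' W = (fun F : Frame M => F.comp cj) ⁻¹' W := by
    ext F
    constructor
    · rintro ⟨G, hG, rfl⟩
      show (G.comp cj).comp cj ∈ W
      rwa [comp_cj_cj]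
    · intro h
      exact ⟨F.comp cj, h, comp_cj_cj F⟩
  rw [this]
  exact hW.preimage (continuous_comp cj)

open Classical in
/-- the frame below a point of the spin structure after the reversal of the orientation over `U` -/
def newFr (U : Set M.carrier) (e : M.P) : Frame M.toMfd :=
  if (M.fr e).pt ∈ U then (M.fr e).comp cj else M.fr e

theorem newFr_of_mem {U : Set M.carrier} {e : M.P} (h : (M.fr e).pt ∈ U) :
    newFr M U e = (M.fr e).comp cj := if_pos h

theorem newFr_of_notMem {U : Set M.carrier} {e : M.P} (h : (M.fr e).pt ∉ U) :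
    newFr M U e = M.fr e := if_neg h

theorem newFr_pt (U : Set M.carrier) (e : M.P) : (newFr M U e).pt = (M.fr e).pt := by
  by_cases h : (M.fr e).pt ∈ U
  · rw [newFr_of_mem M h]; rfl
  · rw [newFr_of_notMem M h]

theorem newFr_val_of_mem {U : Set M.carrier} {e : M.P} (h : (M.fr e).pt ∈ U) (a : E n × ℂ) :
    (newFr M U e).val a = (M.fr e).val (cj a) := by rw [newFr_of_mem M h]; rfl

theorem newFr_val_of_notMem {U : Set M.carrier} {e : M.P} (h : (M.fr e).pt ∉ U) (a : E n × ℂ) :
    (newFr M U e).val a = (M.fr e).val a := by rw [newFr_of_notMem M h]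

theorem det_cj_conj (u : (E n × ℂ) ≃ₗ[ℝ] (E n × ℂ)) :
    det (((cj.trans u).trans cj : (E n × ℂ) ≃ₗ[ℝ] (E n × ℂ))) = det u := by
  have h2 : LinearMap.det (((cj : (E n × ℂ) ≃ₗ[ℝ] (E n × ℂ)) : (E n × ℂ) →ₗ[ℝ] (E n × ℂ)) ∘ₗ
      u.toLinearMap ∘ₗ ((cj : (E n × ℂ) ≃ₗ[ℝ] (E n × ℂ)).symm : (E n × ℂ) →ₗ[ℝ] (E n × ℂ))) =
      LinearMap.det u.toLinearMap :=
    LinearMap.det_conj u.toLinearMap cj
  rw [det, det, ← h2]
  congr 1

/-- the reversal of the orientation over `U` -/
def flip (U : Set M.carrier) (hU : IsClopen {e : M.P | (M.fr e).pt ∈ U})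
    (hinv : ∀ (g : Γ) (x : M.carrier), g • x ∈ U ↔ x ∈ U) : SpinMfd Γ n where
  toMfd := M.toMfd
  act := M.act
  smooth_smul := M.smooth_smul
  proper := M.proper
  cocompact := M.cocompact
  P := M.P
  topP := M.topP
  t2P := M.t2P
  fr := newFr M U
  neg := M.neg
  continuous_fr := by
    classical
    unfold newFr
    refine Continuous.if ?_ ((continuous_comp cj).comp M.continuous_fr) M.continuous_fr
    intro e he
    rw [hU.frontier_eq] at he
    exact absurd he (by simp)
  isOpenMap_fr := by
    intro V hV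
    have : newFr M U '' V = (fun F : Frame M.toMfd => F.comp cj) ''
        (M.fr '' (V ∩ {e | (M.fr e).pt ∈ U})) ∪ M.fr '' (V ∩ {e | (M.fr e).pt ∈ U}ᶜ) := by
      ext F
      constructor
      · rintro ⟨e, he, rfl⟩
        by_cases h : (M.fr e).pt ∈ U
        · left
          rw [newFr_of_mem M h]
          exact ⟨_, ⟨e, ⟨he, h⟩, rfl⟩, rfl⟩
        · right
          rw [newFr_of_notMem M h]
          exact ⟨e, ⟨he, h⟩, rfl⟩
      · rintro (⟨_, ⟨e, ⟨he, h⟩, rfl⟩, rfl⟩ | ⟨e, ⟨he, h⟩, rfl⟩)
        · exact ⟨e, he, newFr_of_mem M h⟩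
        · exact ⟨e, he, newFr_of_notMem M h⟩
    rw [this]
    exact (isOpenMap_comp_cj _ (M.isOpenMap_fr _ (hV.inter hU.2))).union
      (M.isOpenMap_fr _ (hV.inter hU.compl.2))
  continuous_neg := M.continuous_neg
  neg_ne := M.neg_ne
  fr_eq_iff e e' := by
    rw [← M.fr_eq_iff]
    by_cases h : (M.fr e).pt ∈ U
    · by_cases h' : (M.fr e').pt ∈ U
      · rw [newFr_of_mem M h, newFr_of_mem M h', comp_cj_inj]
      · constructor
        · intro h2
          have h3 := congrArg Frame.pt h2
          rw [newFr_pt, newFr_pt] at h3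
          exact absurd (h3 ▸ h) h'
        · intro h2
          exact absurd (h2 ▸ h) h'
    · by_cases h' : (M.fr e').pt ∈ U
      · constructor
        · intro h2
          have h3 := congrArg Frame.pt h2
          rw [newFr_pt, newFr_pt] at h3
          exact absurd (h3 ▸ h') h
        · intro h2
          exact absurd (h2 ▸ h') h
      · rw [newFr_of_notMem M h, newFr_of_notMem M h']
  orientation e u := by
    by_cases h : (M.fr e).pt ∈ U
    · rw [newFr_of_mem M h, ← det_cj_conj u, ← M.orientation e]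
      constructor
      · rintro ⟨e', he'⟩
        have h3 := congrArg Frame.pt he'
        rw [newFr_pt] at h3
        have h4 : (M.fr e').pt ∈ U := by rw [h3]; exact h
        rw [newFr_of_mem M h4] at he'
        refine ⟨e', ?_⟩
        rw [← comp_cj_cj (M.fr e'), he']
        apply Frame.ext_val
        intro a
        rfl
      · rintro ⟨e', he'⟩
        have h3 := congrArg Frame.pt he'
        have h4 : (M.fr e').pt ∈ U := by rw [h3]; exact h
        refine ⟨e', ?_⟩
        rw [newFr_of_mem M h4, he']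
        apply Frame.ext_val
        intro a
        show (M.fr e).val (cj (u (cj (cj a)))) = (M.fr e).val (cj (u a))
        rw [cj_cj]
    · rw [newFr_of_notMem M h, ← M.orientation e]
      constructor
      · rintro ⟨e', he'⟩
        have h3 := congrArg Frame.pt he'
        rw [newFr_pt] at h3
        have h4 : (M.fr e').pt ∉ U := by rw [h3]; exact h
        rw [newFr_of_notMem M h4] at he'
        exact ⟨e', he'⟩
      · rintro ⟨e', he'⟩
        have h3 := congrArg Frame.pt he'
        have h4 : (M.fr e').pt ∉ U := by rw [h3]; exact h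
        exact ⟨e', by rw [newFr_of_notMem M h4, he']⟩
  nontrivial_fibre x := by
    have : {e : M.P | (newFr M U e).pt = x} = {e : M.P | (M.fr e).pt = x} := by
      ext e
      simp only [mem_ofPred_eq, newFr_pt]
    rw [this]
    exact M.nontrivial_fibre x
  actP := M.actP
  continuous_smulP := M.continuous_smulP
  fr_smul g e a := by
    by_cases h : (M.fr e).pt ∈ U
    · have h2 : (M.fr (g • e)).pt ∈ U := by rw [M.pt_smul, hinv]; exact h
      rw [newFr_val_of_mem M h, newFr_val_of_mem M h2]
      exact M.fr_smul g e _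
    · have h2 : (M.fr (g • e)).pt ∉ U := by rw [M.pt_smul, hinv]; exact h
      rw [newFr_val_of_notMem M h, newFr_val_of_notMem M h2]
      exact M.fr_smul g e _

/-- The operation which reverses the orientation of the part `Q` of a spin manifold. -/
def rev {Q : Set Γ → Prop} (hQ : ConjInv Q) : SpinMfd Γ n :=
  flip M (part M Q) (isClopen_part M Q) (smul_mem_part M hQ)

end Pool.Agent.H859.ST
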