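import Mathlib
import Pool.Agent.H859.ST.Geo

/-!
The reversal of the orientation of a part respects the equivalence relation and the product with
`𝔅`.
-/

set_option autoImplicit false
set_option linter.style.haveILetI false

open Set Manifold Bundle
open scoped Manifold ContDiff Topology

noncomputable section

namespace Pool.Agent.H859.ST

open Pool.Agent.N774.Stolz

variable {Γ : Type} [Group Γ] {n : ℕ} {X : Type} [TopologicalSpace X] [MulAction Γ X]
  {Q : Set Γ → Prop}

/-- the operation on triples -/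
def revT (L : Triple Γ X n) (hQ : ConjInv Q) : Triple Γ X n where
  toSpinMfd := rev L.toSpinMfd hQ
  f := L.f
  continuous_f := L.continuous_f
  f_smul := L.f_smul
  metric := L.metric
  isometry := L.isometry
  product := L.product
  psc_boundary := L.psc_boundary

theorem mem_germ_of_inj {m n : ℕ} {M : SpinMfd Γ m} {N : SpinMfd Γ n} {φ : M.toMfd → N.toMfd}
    (hφ : Smooth φ) (hs : ∀ (g : Γ) x, φ (g • x) = g • φ x)
    (hi : Function.Injective φ) (hd : ∀ x, Function.Injective (D φ x))
    {x : M.carrier} {g : Γ} (hx : g ∈ germ N (φ x)) : g ∈ germ M x := by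
  intro v
  apply tm_inj hi hd
  rw [← tm_comm hφ hs]
  exact hx _

theorem mem_germ_of_surj {m n : ℕ} {M : SpinMfd Γ m} {N : SpinMfd Γ n} {φ : M.toMfd → N.toMfd}
    (hφ : Smooth φ) (hs : ∀ (g : Γ) x, φ (g • x) = g • φ x)
    {x : M.carrier} {g : Γ} (hd : Function.Surjective (D φ x))
    (hx : g ∈ germ M x) : g ∈ germ N (φ x) := by
  intro w
  obtain ⟨v, hv⟩ := hd w
  have h := tm_comm hφ hs g (tv x v)
  rw [hx v] at h
  have h2 : DB φ (tv x v) = tv (φ x) w := by
    rw [← hv]
    rfl
  rwa [h2] at h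

theorem germ_piece {L M : Triple Γ X n} {i : L.carrier → M.carrier} {κ : L.P → M.P} {r : ℂ → ℂ}
    (h : IsPiece L M i κ r) (x : L.carrier) : germ M.toSpinMfd (i x) = germ L.toSpinMfd x := by
  ext g
  exact ⟨fun hx => mem_germ_of_inj h.smooth h.smul h.isEmbedding.injective
    (fun x => (h.bijective x).1) hx,
    fun hx => mem_germ_of_surj h.smooth h.smul (h.bijective x).2 hx⟩

theorem piece_frame {L M : Triple Γ X n} {i : L.carrier → M.carrier} {κ : L.P → M.P} {r : ℂ → ℂ}
    (h : IsPiece L M i κ r) (hr : ∀ z, r (starRingEnd ℂ z) = starRingEnd ℂ (r z))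
    (Q : Set Γ → Prop) (e : L.P) (a : E n) (z : ℂ) :
    (newFr M.toSpinMfd (part M.toSpinMfd Q) (κ e)).val (a, z) =
      DC i ((newFr L.toSpinMfd (part L.toSpinMfd Q) e).val (a, r z)) := by
  have h1 : (M.fr (κ e)).pt ∈ part M.toSpinMfd Q ↔ (L.fr e).pt ∈ part L.toSpinMfd Q := by
    rw [h.pt]
    show Q (germ M.toSpinMfd (i (L.fr e).pt)) ↔ Q (germ L.toSpinMfd (L.fr e).pt)
    rw [germ_piece h]
  by_cases he : (L.fr e).pt ∈ part L.toSpinMfd Q
  · rw [newFr_val_of_mem _ he, newFr_val_of_mem _ (h1.mpr he), cj_apply, cj_apply]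
    show (M.fr (κ e)).val (a, starRingEnd ℂ z) = DC i ((L.fr e).val (a, starRingEnd ℂ (r z)))
    rw [h.fr_spin, hr]
  · rw [newFr_val_of_notMem _ he, newFr_val_of_notMem _ (fun h2 => he (h1.mp h2))]
    exact h.fr_spin e a z

theorem IsPiece.rev {L M : Triple Γ X n} {i : L.carrier → M.carrier} {κ : L.P → M.P} {r : ℂ → ℂ}
    (h : IsPiece L M i κ r) (hr : ∀ z, r (starRingEnd ℂ z) = starRingEnd ℂ (r z))
    (hQ : ConjInv Q) : IsPiece (revT L hQ) (revT M hQ) i κ r where
  smooth := h.smooth
  isEmbedding := h.isEmbedding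
  bijective := h.bijective
  smul := h.smul
  map := h.map
  isometric := h.isometric
  collar := h.collar
  continuous_spin := h.continuous_spin
  neg_spin := h.neg_spin
  smul_spin := h.smul_spin
  fr_spin := piece_frame h hr Q

theorem germ_boundary {M : SpinMfd Γ n} {W : SpinMfd Γ (n + 1)} {b : M.carrier → W.carrier}
    {ν : ∀ x : M.carrier, T W.toMfd (b x)} {κ : M.P → W.P}
    (h : IsBoundary M W b ν κ) (x : M.carrier) : germ W (b x) = germ M x := by
  ext g
  constructor
  · exact fun hx => mem_germ_of_inj h.smooth h.smul h.isEmbedding.injective h.injective hx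
  · intro hx w
    have hgx : g • x = x := smul_of_germ M hx
    -- the normal vector is fixed
    have h1 : DB (fun y : W.toMfd => g • y) (tv (b x) (ν x)) = tv (b x) (ν x) := by
      rw [← h.smul_normal, hgx]
    -- tangent vectors are fixed
    have h2 : ∀ v : T M.toMfd x,
        DB (fun y : W.toMfd => g • y)
          (tv (b x) (D (M := M.toMfd) (N := W.toMfd) b x v)) =
          tv (b x) (D (M := M.toMfd) (N := W.toMfd) b x v) := by
      intro v
      have h3 := tm_comm h.smooth h.smul g (tv x v)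
      rw [hx v] at h3
      exact h3
    -- they span
    obtain ⟨e, he⟩ := (M.nontrivial_fibre x).nonempty
    have he : (M.fr e).pt = x := he
    subst he
    obtain ⟨⟨c, z⟩, hc⟩ := (W.fr (κ e)).lin.surjective
      ((show E (n + 1) from w : T W.toMfd (W.fr (κ e)).pt), (0 : ℂ))
    obtain ⟨t, a, rfl⟩ := exists_cons c
    have h4 := h.fr_spin e t a z
    simp only [Frame.val, Frame.app, Frame.normal, hc, Prod.mk.injEq] at h4
    have h5 := tv_inj h4.1
    have h6 : w = t • ν (M.fr e).pt +
        D (M := M.toMfd) (N := W.toMfd) b (M.fr e).pt ((M.fr e).lin (a, z)).1 := eq_of_heq h5.2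
    have h7 := tm_iff.mp h1
    have h8 := tm_iff.mp (h2 ((M.fr e).lin (a, z)).1)
    refine tm_iff.mpr ⟨h7.1, ?_⟩
    rw [h6]
    have h9 : D (fun y : W.toMfd => g • y) (b (M.fr e).pt)
        (t • ν (M.fr e).pt +
          D (M := M.toMfd) (N := W.toMfd) b (M.fr e).pt ((M.fr e).lin (a, z)).1) =
        t • D (fun y : W.toMfd => g • y) (b (M.fr e).pt)
          (ν (M.fr e).pt) +
        D (fun y : W.toMfd => g • y) (b (M.fr e).pt)
          (D (M := M.toMfd) (N := W.toMfd) b (M.fr e).pt ((M.fr e).lin (a, z)).1) := by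
      rw [D_add, D_smul]
    calc (show E (n + 1) from D (fun y : W.toMfd => g • y)
          (b (M.fr e).pt) (t • ν (M.fr e).pt +
          D (M := M.toMfd) (N := W.toMfd) b (M.fr e).pt ((M.fr e).lin (a, z)).1))
        = t • (show E (n + 1) from D (fun y : W.toMfd => g • y)
            (b (M.fr e).pt) (ν (M.fr e).pt)) +
          (show E (n + 1) from D (fun y : W.toMfd => g • y)
            (b (M.fr e).pt)
            (D (M := M.toMfd) (N := W.toMfd) b (M.fr e).pt ((M.fr e).lin (a, z)).1)) := h9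
      _ = t • (show E (n + 1) from ν (M.fr e).pt) + (show E (n + 1) from
            D (M := M.toMfd) (N := W.toMfd) b (M.fr e).pt ((M.fr e).lin (a, z)).1) := by
          rw [h7.2]
          exact congrArg _ h8.2
      _ = _ := rfl

theorem boundary_frame {M : SpinMfd Γ n} {W : SpinMfd Γ (n + 1)} {b : M.carrier → W.carrier}
    {ν : ∀ x : M.carrier, T W.toMfd (b x)} {κ : M.P → W.P}
    (h : IsBoundary M W b ν κ) (Q : Set Γ → Prop) (e : M.P) (t : ℝ) (a : E n) (z : ℂ) :
    (newFr W (part W Q) (κ e)).val (cons t a, z) = (newFr M (part M Q) e).normal b ν t a z := by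
  have h1 : (W.fr (κ e)).pt ∈ part W Q ↔ (M.fr e).pt ∈ part M Q := by
    rw [h.pt]
    show Q (germ W (b (M.fr e).pt)) ↔ Q (germ M (M.fr e).pt)
    rw [germ_boundary h]
  by_cases he : (M.fr e).pt ∈ part M Q
  · rw [newFr_val_of_mem _ (h1.mpr he), newFr_of_mem _ he, cj_apply]
    show (W.fr (κ e)).val (cons t a, starRingEnd ℂ z) = _
    rw [h.fr_spin]
    rfl
  · rw [newFr_val_of_notMem _ (fun h2 => he (h1.mp h2)), newFr_of_notMem _ he]
    exact h.fr_spin e t a z

theorem IsBoundary.rev {M : SpinMfd Γ n} {W : SpinMfd Γ (n + 1)} {b : M.carrier → W.carrier}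
    {ν : ∀ x : M.carrier, T W.toMfd (b x)} {κ : M.P → W.P}
    (h : IsBoundary M W b ν κ) (hQ : ConjInv Q) :
    IsBoundary (rev M hQ) (rev W hQ) b ν κ where
  smooth := h.smooth
  isEmbedding := h.isEmbedding
  injective := h.injective
  range_eq := h.range_eq
  smul := h.smul
  continuous_normal := h.continuous_normal
  smul_normal := h.smul_normal
  outward := h.outward
  continuous_spin := h.continuous_spin
  neg_spin := h.neg_spin
  smul_spin := h.smul_spin
  fr_spin := boundary_frame h Q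

theorem Bordant.rev (hQ : ConjInv Q) {L₁ L₂ : Triple Γ X n}
    (h : Bordant L₁ L₂) : Bordant (revT L₁ hQ) (revT L₂ hQ) := by
  obtain ⟨M, i₁, κ₁, i₂, κ₂, W, b, ν, κ, F, h1, h2, h3, h4, h5, h6, h7, h8, h9⟩ := h
  exact ⟨revT M hQ, i₁, κ₁, i₂, κ₂, ST.rev W hQ, b, ν, κ, F, h1, IsPiece.rev h2 (fun _ => rfl) hQ,
    IsPiece.rev h3 (fun _ => rfl) hQ, h4, h5, IsBoundary.rev h6 hQ, h7, h8, h9⟩

theorem germ_product {n' : ℕ} {h : n' = n + 8} {L : Triple Γ X n} {B : Factor}
    {L' : Triple Γ X n'} {p : L'.carrier → L.carrier} {q : L'.carrier → B.carrier}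
    {μ : L.P → B.P → L'.P} (H : IsProduct h L B L' p q μ) (x : L'.carrier) :
    germ L.toSpinMfd (p x) = germ L'.toSpinMfd x := by
  ext g
  constructor
  · intro hx v
    have h1 := tm_comm H.smooth_p H.smul_p g (tv x v)
    have h2 : DB (fun y : L.toMfd => g • y)
        (DB (M := L'.toMfd) (N := L.toMfd) p (tv x v)) = DB (M := L'.toMfd) (N := L.toMfd) p (tv x v) :=
      hx _
    rw [h2] at h1
    have h3 : DB (M := L'.toMfd) (N := B.toMfd) q (DB (fun y : L'.toMfd => g • y) (tv x v)) =
        DB (M := L'.toMfd) (N := B.toMfd) q (tv x v) := by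
      rw [← DB_comp H.smooth_q (L'.smooth_smul g)]
      have : q ∘ (fun y : L'.carrier => g • y) = q := by
        funext y
        exact H.smul_q g y
      exact congrArg (fun f => DB (M := L'.toMfd) (N := B.toMfd) f (tv x v)) this
    have h4 : g • x = x := by
      apply H.isHomeomorph.injective
      have e1 := congrArg TB.pt h1
      have e2 := congrArg TB.pt h3
      exact Prod.ext e1.symm e2
    refine tm_iff.mpr ⟨h4, ?_⟩
    have e1 := tv_inj (v := _) (w := _) h1
    have e2 := tv_inj (v := _) (w := _) h3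
    set w : E n' := (show E n' from D (fun y : L'.toMfd => g • y) x v) with hw
    have key : ∀ y : L'.toMfd, y = x →
        HEq (D (M := L'.toMfd) (N := L.toMfd) p x v) (D (M := L'.toMfd) (N := L.toMfd) p y
          (show T L'.toMfd y from w)) →
        HEq (D (M := L'.toMfd) (N := B.toMfd) q y (show T L'.toMfd y from w))
          (D (M := L'.toMfd) (N := B.toMfd) q x v) → w = (show E n' from v) := by
      rintro y rfl k1 k2
      apply (H.bijective y).1
      exact Prod.ext (eq_of_heq k1).symm (eq_of_heq k2)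
    exact key (g • x) h4 e1.2 e2.2
  · intro hx
    refine mem_germ_of_surj H.smooth_p H.smul_p ?_ hx
    intro w
    obtain ⟨v, hv⟩ := (H.bijective x).2 (w, 0)
    exact ⟨v, congrArg Prod.fst hv⟩

theorem IsProduct.rev {n' : ℕ} {h : n' = n + 8} {L : Triple Γ X n} {B : Factor}
    {L' : Triple Γ X n'} {p : L'.carrier → L.carrier} {q : L'.carrier → B.carrier}
    {μ : L.P → B.P → L'.P} (H : IsProduct h L B L' p q μ) (hQ : ConjInv Q) :
    IsProduct h (revT L hQ) B (revT L' hQ) p q μ where
  smooth_p := H.smooth_p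
  smooth_q := H.smooth_q
  isHomeomorph := H.isHomeomorph
  bijective := H.bijective
  smul_p := H.smul_p
  smul_q := H.smul_q
  map := H.map
  isometric := H.isometric
  continuous_spin := H.continuous_spin
  spin e e' h1 := by
    refine ⟨(H.spin e e' h1).1, (H.spin e e' h1).2.1, (H.spin e e' h1).2.2.1, ?_⟩
    intro a c z
    have h2 : (L'.fr (μ e e')).pt ∈ part L'.toSpinMfd Q ↔ (L.fr e).pt ∈ part L.toSpinMfd Q := by
      rw [← H.pt e e' h1]
      show Q (germ L'.toSpinMfd (L'.fr (μ e e')).pt) ↔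
        Q (germ L.toSpinMfd (p (L'.fr (μ e e')).pt))
      rw [germ_product H]
    show DB (M := L'.toMfd) (N := L.toMfd) p
        ((newFr L'.toSpinMfd (part L'.toSpinMfd Q) (μ e e')).val (append h a c, z)).1 =
        ((newFr L.toSpinMfd (part L.toSpinMfd Q) e).val (a, z)).1 ∧
      DB (M := L'.toMfd) (N := B.toMfd) q
        ((newFr L'.toSpinMfd (part L'.toSpinMfd Q) (μ e e')).val (append h a c, z)).1 =
        ((B.fr e').val (c, 0)).1 ∧
      ((newFr L'.toSpinMfd (part L'.toSpinMfd Q) (μ e e')).val (append h a c, z)).2 =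
        ((newFr L.toSpinMfd (part L.toSpinMfd Q) e).val (a, z)).2
    by_cases he : (L.fr e).pt ∈ part L.toSpinMfd Q
    · rw [newFr_val_of_mem _ (h2.mpr he), newFr_val_of_mem _ he, cj_apply, cj_apply]
      exact (H.spin e e' h1).2.2.2 a c (starRingEnd ℂ z)
    · rw [newFr_val_of_notMem _ (fun h3 => he (h2.mp h3)), newFr_val_of_notMem _ he]
      exact (H.spin e e' h1).2.2.2 a c z

/-- The operation on the direct limit. -/
def revLim (hQ : ConjInv Q) (B : Factor) (n : ℕ) : RLim Γ X B n → RLim Γ X B n :=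
  Quot.map (fun L => ⟨L.1, revT L.2 hQ⟩) (by
    rintro _ _ (⟨k, L₁, L₂, h⟩ | ⟨k, L, L', p, q, μ, h⟩)
    · exact Rel.bordant _ _ _ (Bordant.rev hQ h)
    · exact Rel.product _ _ _ _ _ _ (IsProduct.rev h hQ))

theorem revLim_cls (hQ : ConjInv Q) (B : Factor) (L : Triple Γ X n) :
    revLim hQ B n (L.cls B) = (revT L hQ).cls B := rfl

end Pool.Agent.H859.ST
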