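import Mathlib
import Pool.Graph.R_pool_sql_team_seeded_63374d34.N774.Stolz.Zero
import Pool.Agent.H859.ST.Rel
import Pool.Agent.H859.ST.Rank

/-!
Closed spin manifolds of dimension `0` with a proper cocompact action of a countable group.
-/

set_option autoImplicit false
set_option linter.style.haveILetI false

open Set Manifold Bundle
open scoped Manifold ContDiff Topology

noncomputable section

namespace Pool.Agent.H859.ST

open Pool.Agent.N774.Stolz

/-- A countable set with an action of `Γ` and signs `sgn g s`, such that `δ_s ↦ sgn g s • δ_{g s}` is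
an action (on the finitely supported functions on `S`). The finite family `pt` of points is such that
for all `s` the number of the pairs `(j, g)` with `g • pt j = s` is `N`, with `0 < N`; in particular there
are finitely many orbits, and the stabilisers are finite. -/
structure SSet (Γ : Type) [Group Γ] where
  S : Type
  [countable : Countable S]
  [act : MulAction Γ S]
  sgn : Γ → S → ℤˣ
  sgn_one : ∀ s, sgn 1 s = 1
  sgn_mul : ∀ g h s, sgn (g * h) s = sgn g (h • s) * sgn h s
  J : Type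
  [finJ : Fintype J]
  pt : J → S
  N : ℕ
  N_pos : 0 < N
  count : ∀ s, Nat.card {q : J × Γ // q.2 • pt q.1 = s} = N

attribute [instance] SSet.countable SSet.act SSet.finJ

variable {Γ : Type} [Group Γ]

instance instTopS (S : SSet Γ) : TopologicalSpace S.S := ⊥

instance instDiscS (S : SSet Γ) : DiscreteTopology S.S := ⟨rfl⟩

theorem SSet.finite_pairs (S : SSet Γ) (s : S.S) : Finite {q : S.J × Γ // q.2 • S.pt q.1 = s} := by
  apply Nat.finite_of_card_ne_zero
  rw [S.count]
  exact S.N_pos.ne'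

theorem SSet.exists_pair (S : SSet Γ) (s : S.S) : ∃ (j : S.J) (g : Γ), g • S.pt j = s := by
  have h : Nat.card {q : S.J × Γ // q.2 • S.pt q.1 = s} ≠ 0 := by
    rw [S.count]
    exact S.N_pos.ne'
  rw [Nat.card_ne_zero] at h
  obtain ⟨⟨⟨j, g⟩, h⟩⟩ := h.1
  exact ⟨j, g, h⟩

theorem SSet.finite_stab (S : SSet Γ) (s t : S.S) : {g : Γ | g • s = t}.Finite := by
  obtain ⟨j, g₀, rfl⟩ := S.exists_pair s
  haveI := S.finite_pairs t
  have h : Function.Injective (fun g : {g : Γ | g • g₀ • S.pt j = t} =>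
      (⟨(j, g.1 * g₀), by rw [mul_smul]; exact g.2⟩ : {q : S.J × Γ // q.2 • S.pt q.1 = t})) := by
    intro g h hgh
    have h1 := congrArg (fun q : {q : S.J × Γ // q.2 • S.pt q.1 = t} => q.1.2) hgh
    exact Subtype.ext (mul_right_cancel h1)
  exact Set.finite_coe_iff.mp (Finite.of_injective _ h)

/-- the underlying manifold -/
def mfd1 (S : SSet Γ) : Mfd 0 where
  carrier := S.S
  top := instTopS S
  t2 := inferInstance
  sc := inferInstance
  charted := ChartedSpace.ofDiscreteTopology (H := E 0)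
  mfd := IsManifold.of_discreteTopology (E := E 0) _

instance (S : SSet Γ) : DiscreteTopology (mfd1 S) := inferInstanceAs (DiscreteTopology S.S)

instance (S : SSet Γ) (x : mfd1 S) : Subsingleton (T (mfd1 S) x) :=
  inferInstanceAs (Subsingleton (E 0))

/-- vectors of zero-dimensional tangent spaces are equal -/
theorem tb_eq1 (S : SSet Γ) {p q : TB (mfd1 S)} (h : p.pt = q.pt) :
    p = q := by
  obtain ⟨x, v⟩ := p
  obtain ⟨y, w⟩ := q
  have h : x = y := h
  subst h
  have : (show T (mfd1 S) x from v) = (show T (mfd1 S) x from w) := Subsingleton.elim _ _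
  exact congrArg (fun z : T (mfd1 S) x => tv x z) this

/-- the frame below a point of the spin structure -/
def fr1 (S : SSet Γ) (e : S.S × P0) : Frame (mfd1 S) where
  pt := e.1
  lin := linP e.2

theorem fr1_val (S : SSet Γ) (e : S.S × P0) (a : E 0 × ℂ) :
    (fr1 S e).val a = (tv (M := mfd1 S) e.1 a.1, linC e.2 a.2) := rfl

theorem fr1_pt (S : SSet Γ) (e : S.S × P0) : (fr1 S e).pt = e.1 := rfl

theorem continuous_fr1 (S : SSet Γ) : Continuous (fr1 S) := by
  refine continuous_induced_rng.mpr (continuous_pi fun a => ?_)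
  show Continuous (fun e => (fr1 S e).val a)
  simp only [fr1_val]
  refine Continuous.prodMk ?_ ?_
  · have h1 : Continuous (fun s : S.S => tv (M := mfd1 S) s a.1) :=
      continuous_of_discreteTopology
    exact h1.comp continuous_fst
  · exact (continuous_linC a.2).comp continuous_snd

/-- the real linear map `ℂ → ℂ` of a frame -/
def toC1 {S : SSet Γ} (F : Frame (mfd1 S)) : ℂ →ₗ[ℝ] ℂ where
  toFun v := (F.lin (0, v)).2
  map_add' v w := by
    have : ((0 : E 0), v + w) = ((0 : E 0), v) + ((0 : E 0), w) := by simp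
    rw [this, map_add]
    rfl
  map_smul' c v := by
    have : ((0 : E 0), c • v) = c • ((0 : E 0), v) := by simp
    rw [this, map_smul]
    rfl

/-- its determinant -/
def dt1 {S : SSet Γ} (F : Frame (mfd1 S)) : ℝ := LinearMap.det (toC1 F)

theorem det_frame1 (S : SSet Γ) (F : Frame (mfd1 S)) :
    dt1 F = (F.val (0, 1)).2.re * (F.val (0, Complex.I)).2.im -
      (F.val (0, Complex.I)).2.re * (F.val (0, 1)).2.im := by
  rw [dt1, ← LinearMap.det_toMatrix Complex.basisOneI, Matrix.det_fin_two]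
  simp only [LinearMap.toMatrix_apply]
  simp only [Complex.coe_basisOneI, Complex.coe_basisOneI_repr]
  rfl

theorem dt1_comp (S : SSet Γ) (F : Frame (mfd1 S)) (u : (E 0 × ℂ) ≃ₗ[ℝ] (E 0 × ℂ)) :
    dt1 (⟨F.pt, u.trans F.lin⟩ : Frame (mfd1 S)) = dt1 F * LinearMap.det u.toLinearMap := by
  have h2 : LinearMap.det ((eC : (E 0 × ℂ) →ₗ[ℝ] ℂ) ∘ₗ u.toLinearMap ∘ₗ
      (eC.symm : ℂ →ₗ[ℝ] (E 0 × ℂ))) = LinearMap.det u.toLinearMap :=
    LinearMap.det_conj u.toLinearMap eC
  rw [← h2, dt1, dt1, ← LinearMap.det_comp]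
  congr 1
  apply LinearMap.ext
  intro v
  show (F.lin (u (0, v))).2 = (F.lin (0, (u (0, v)).2)).2
  have h3 : u (0, v) = (0, (u (0, v)).2) := Prod.ext (Subsingleton.elim _ _) rfl
  rw [← h3]

theorem det_fr1 (S : SSet Γ) (e : S.S × P0) : 0 < dt1 (fr1 S e) := by
  rw [det_frame1]
  simp only [fr1_val, linC_one, linC_I]
  have h : ((e.2.1 : ℂ) ^ 2).re *
        ((e.2.1 : ℂ) ^ 2 * ((e.2.2.re : ℂ) + Complex.I * Real.exp e.2.2.im)).im -
      ((e.2.1 : ℂ) ^ 2 * ((e.2.2.re : ℂ) + Complex.I * Real.exp e.2.2.im)).re *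
        ((e.2.1 : ℂ) ^ 2).im = Complex.normSq ((e.2.1 : ℂ) ^ 2) * Real.exp e.2.2.im := by
    rw [Complex.mul_re, Complex.mul_im, Complex.normSq_apply]
    have h1 : ((e.2.2.re : ℂ) + Complex.I * (Real.exp e.2.2.im : ℝ)).re = e.2.2.re := by
      rw [Complex.add_re, Complex.I_mul_re, Complex.ofReal_re, Complex.ofReal_im]; ring
    have h2 : ((e.2.2.re : ℂ) + Complex.I * (Real.exp e.2.2.im : ℝ)).im = Real.exp e.2.2.im := by
      rw [Complex.add_im, Complex.I_mul_im, Complex.ofReal_re, Complex.ofReal_im]; ring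
    rw [h1, h2]
    ring
  rw [h]
  have : 0 < Complex.normSq ((e.2.1 : ℂ) ^ 2) := Complex.normSq_pos.mpr (pow_ne_zero 2 e.2.1.2)
  positivity

/-- The sections of the covering. -/
def sec1 (S : SSet Γ) (z₀ : {z : ℂ // z ≠ 0}) (F : Frame (mfd1 S)) : S.S × P0 :=
  (F.pt, ⟨(z₀ : ℂ) * Complex.exp (Complex.log ((F.val (0, 1)).2 / (z₀ : ℂ) ^ 2) / 2),
    mul_ne_zero z₀.2 (Complex.exp_ne_zero _)⟩,
    ⟨((F.val (0, Complex.I)).2 / (F.val (0, 1)).2).re,
      Real.log ((F.val (0, Complex.I)).2 / (F.val (0, 1)).2).im⟩)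

theorem val_lin1 (S : SSet Γ) (F : Frame (mfd1 S)) (a : E 0 × ℂ) :
    (F.val a).2 = a.2.re * (F.val (0, 1)).2 + a.2.im * (F.val (0, Complex.I)).2 := by
  obtain ⟨a1, v⟩ := a
  have h0 : a1 = 0 := Subsingleton.elim _ _
  subst h0
  have h1 : ((0 : E 0), v) = v.re • ((0 : E 0), (1 : ℂ)) + v.im • ((0 : E 0), Complex.I) := by
    refine Prod.ext (Subsingleton.elim _ _) ?_
    simp only [Prod.snd_add, Prod.smul_snd, Complex.real_smul, mul_one]
    exact (Complex.re_add_im v).symm
  have h2 : (F.val ((0 : E 0), v)).2 =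
      (F.lin (v.re • ((0 : E 0), (1 : ℂ)) + v.im • ((0 : E 0), Complex.I))).2 := by
    rw [← h1]
    rfl
  rw [h2, map_add, map_smul, map_smul]
  simp only [Prod.snd_add, Prod.smul_snd, Complex.real_smul]
  rfl

theorem fr1_sec (S : SSet Γ) (z₀ : {z : ℂ // z ≠ 0}) (F : Frame (mfd1 S)) (hF : 0 < dt1 F) :
    fr1 S (sec1 S z₀ F) = F := by
  rw [det_frame1] at hF
  set c := (F.val (0, 1)).2 with hc
  set d := (F.val (0, Complex.I)).2 with hd
  have hc0 : c ≠ 0 := by
    intro h
    rw [h] at hF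
    simp at hF
  have hn : 0 < Complex.normSq c := Complex.normSq_pos.mpr hc0
  have him : 0 < (d / c).im := by
    have : (d / c).im = (c.re * d.im - d.re * c.im) / Complex.normSq c := by
      rw [Complex.div_im]; ring
    rw [this]
    positivity
  apply Frame.ext_val
  intro a
  rw [fr1_val]
  refine Prod.ext (tb_eq1 S rfl) ?_
  rw [val_lin1 S F a, ← hc, ← hd]
  simp only [linC, LinearMap.coe_mk, AddHom.coe_mk, sec1]
  rw [← hc, ← hd, mul_pow, ← Complex.exp_nat_mul]
  have h1 : ((2 : ℕ) : ℂ) * (Complex.log (c / (z₀ : ℂ) ^ 2) / 2) = Complex.log (c / (z₀ : ℂ) ^ 2) := by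
    push_cast; ring
  have hz2 : (z₀ : ℂ) ^ 2 ≠ 0 := pow_ne_zero 2 z₀.2
  rw [h1, Complex.exp_log (div_ne_zero hc0 hz2), mul_div_cancel₀ _ hz2, Real.exp_log him]
  have h2 : (((d / c).re : ℂ) + Complex.I * ((d / c).im : ℝ)) = d / c := by
    rw [mul_comm Complex.I]
    exact Complex.re_add_im _
  rw [h2, mul_add]
  have h3 : c * ((a.2.im : ℂ) * (d / c)) = a.2.im * d := by
    field_simp
  rw [h3]
  ring

theorem sec1_fr1 (S : SSet Γ) (e : S.S × P0) : sec1 S e.2.1 (fr1 S e) = e := by
  obtain ⟨s, z, u⟩ := e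
  have hz2 : (z : ℂ) ^ 2 ≠ 0 := pow_ne_zero 2 z.2
  simp only [sec1, fr1_val, linC_one, linC_I, fr1_pt]
  refine Prod.ext rfl (Prod.ext (Subtype.ext ?_) ?_)
  · show (z : ℂ) * Complex.exp (Complex.log ((z : ℂ) ^ 2 / (z : ℂ) ^ 2) / 2) = z
    rw [div_self hz2, Complex.log_one, zero_div, Complex.exp_zero, mul_one]
  · show (⟨((z : ℂ) ^ 2 * ((u.re : ℂ) + Complex.I * Real.exp u.im) / (z : ℂ) ^ 2).re,
      Real.log ((z : ℂ) ^ 2 * ((u.re : ℂ) + Complex.I * Real.exp u.im) / (z : ℂ) ^ 2).im⟩ : ℂ) = u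
    rw [mul_div_cancel_left₀ _ hz2]
    have h1 : ((u.re : ℂ) + Complex.I * (Real.exp u.im : ℝ)).re = u.re := by
      rw [Complex.add_re, Complex.I_mul_re, Complex.ofReal_re, Complex.ofReal_im]; ring
    have h2 : ((u.re : ℂ) + Complex.I * (Real.exp u.im : ℝ)).im = Real.exp u.im := by
      rw [Complex.add_im, Complex.I_mul_im, Complex.ofReal_re, Complex.ofReal_im]; ring
    rw [h1, h2, Real.log_exp]

theorem continuous_val3 (S : SSet Γ) (a : E 0 × ℂ) :
    Continuous (fun F : Frame (mfd1 S) => (F.val a).2) := (continuous_val (mfd1 S) a).snd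

theorem continuousAt_sec1 (S : SSet Γ) (e : S.S × P0) :
    ContinuousAt (sec1 S e.2.1) (fr1 S e) := by
  have hz2 : (e.2.1 : ℂ) ^ 2 ≠ 0 := pow_ne_zero 2 e.2.1.2
  have hc := (continuous_val3 S (0, 1)).continuousAt (x := fr1 S e)
  have hd := (continuous_val3 S (0, Complex.I)).continuousAt (x := fr1 S e)
  have hcv : ((fr1 S e).val (0, 1)).2 = (e.2.1 : ℂ) ^ 2 := by rw [fr1_val, linC_one]
  have hdv : ((fr1 S e).val (0, Complex.I)).2 =
      (e.2.1 : ℂ) ^ 2 * ((e.2.2.re : ℂ) + Complex.I * Real.exp e.2.2.im) := by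
    rw [fr1_val, linC_I]
  have hτ : ContinuousAt (fun F : Frame (mfd1 S) => (F.val (0, Complex.I)).2 / (F.val (0, 1)).2)
      (fr1 S e) := hd.div hc (by rw [hcv]; exact hz2)
  have hτv : ((fr1 S e).val (0, Complex.I)).2 / ((fr1 S e).val (0, 1)).2 =
      ((e.2.2.re : ℂ) + Complex.I * Real.exp e.2.2.im) := by
    rw [hcv, hdv, mul_div_cancel_left₀ _ hz2]
  unfold sec1
  refine ContinuousAt.prodMk ((continuous_pt (mfd1 S)).continuousAt) (ContinuousAt.prodMk ?_ ?_)
  · rw [(⟨rfl⟩ : Topology.IsInducing (Subtype.val : {z : ℂ // z ≠ 0} → ℂ)).continuousAt_iff]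
    show ContinuousAt (fun F : Frame (mfd1 S) => (e.2.1 : ℂ) *
      Complex.exp (Complex.log ((F.val (0, 1)).2 / (e.2.1 : ℂ) ^ 2) / 2)) (fr1 S e)
    refine continuousAt_const.mul (Complex.continuous_exp.continuousAt.comp ?_)
    refine ContinuousAt.div_const ?_ 2
    refine ContinuousAt.clog (hc.div_const _) ?_
    rw [hcv, div_self hz2]
    exact Complex.one_mem_slitPlane
  · have h1 : ContinuousAt (fun F : Frame (mfd1 S) =>
        ((F.val (0, Complex.I)).2 / (F.val (0, 1)).2).re) (fr1 S e) :=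
      Complex.continuous_re.continuousAt.comp hτ
    have h2 : ContinuousAt (fun F : Frame (mfd1 S) =>
        Real.log ((F.val (0, Complex.I)).2 / (F.val (0, 1)).2).im) (fr1 S e) := by
      refine ContinuousAt.log (Complex.continuous_im.continuousAt.comp hτ) ?_
      show ((((fr1 S e).val (0, Complex.I)).2 / ((fr1 S e).val (0, 1)).2).im) ≠ 0
      rw [hτv, Complex.add_im, Complex.I_mul_im, Complex.ofReal_re, Complex.ofReal_im, zero_add]
      exact (Real.exp_pos _).ne'
    have h3 : ContinuousAt (fun F : Frame (mfd1 S) => Complex.equivRealProdCLM.symm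
        ((((F.val (0, Complex.I)).2 / (F.val (0, 1)).2).re,
          Real.log ((F.val (0, Complex.I)).2 / (F.val (0, 1)).2).im))) (fr1 S e) :=
      Complex.equivRealProdCLM.symm.continuous.continuousAt.comp (h1.prodMk h2)
    convert h3 using 2
    exact Complex.ext (by simp) (by simp)

theorem isOpenMap_fr1 (S : SSet Γ) : IsOpenMap (fr1 S) := by
  rw [isOpenMap_iff_nhds_le]
  intro e U hU
  rw [Filter.mem_map] at hU
  have h1 : ∀ᶠ F in 𝓝 (fr1 S e), sec1 S e.2.1 F ∈ fr1 S ⁻¹' U := by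
    have := (continuousAt_sec1 S e).tendsto
    rw [sec1_fr1] at this
    exact this.eventually hU
  have h2 : ∀ᶠ F in 𝓝 (fr1 S e), 0 < dt1 F := by
    have hcont : Continuous (fun F : Frame (mfd1 S) => dt1 F) := by
      simp only [det_frame1]
      have h1 := continuous_val3 S (0, 1)
      have h2 := continuous_val3 S (0, Complex.I)
      exact ((Complex.continuous_re.comp h1).mul (Complex.continuous_im.comp h2)).sub
        ((Complex.continuous_re.comp h2).mul (Complex.continuous_im.comp h1))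
    exact hcont.continuousAt.eventually (lt_mem_nhds (det_fr1 S e))
  filter_upwards [h1, h2] with F h3 h4
  have h5 := fr1_sec S e.2.1 F h4
  rw [mem_preimage, h5] at h3
  exact h3

theorem range_fr1 (S : SSet Γ) (F : Frame (mfd1 S)) : F ∈ range (fr1 S) ↔ 0 < dt1 F := by
  constructor
  · rintro ⟨e, rfl⟩
    exact det_fr1 S e
  · intro h
    exact ⟨_, fr1_sec S ⟨1, one_ne_zero⟩ F h⟩

/-- the exchange of the sheets -/
def neg1 (S : SSet Γ) (e : S.S × P0) : S.S × P0 :=
  (e.1, ⟨-(e.2.1 : ℂ), neg_ne_zero.mpr e.2.1.2⟩, e.2.2)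

theorem fr1_eq_iff (S : SSet Γ) (e e' : S.S × P0) :
    fr1 S e = fr1 S e' ↔ e = e' ∨ e = neg1 S e' := by
  constructor
  · intro h
    have hs : e.1 = e'.1 := congrArg Frame.pt h
    have h1 := congrArg (fun F : Frame (mfd1 S) => (F.val (0, 1)).2) h
    have h2 := congrArg (fun F : Frame (mfd1 S) => (F.val (0, Complex.I)).2) h
    simp only [fr1_val, linC_one, linC_I] at h1 h2
    have hz2 : (e'.2.1 : ℂ) ^ 2 ≠ 0 := pow_ne_zero 2 e'.2.1.2
    rw [h1] at h2
    have h3 := mul_left_cancel₀ hz2 h2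
    have h4 : ∀ u : ℂ, ((u.re : ℂ) + Complex.I * (Real.exp u.im : ℝ)).re = u.re := fun u => by
      rw [Complex.add_re, Complex.I_mul_re, Complex.ofReal_re, Complex.ofReal_im]; ring
    have h5 : ∀ u : ℂ, ((u.re : ℂ) + Complex.I * (Real.exp u.im : ℝ)).im = Real.exp u.im :=
      fun u => by
      rw [Complex.add_im, Complex.I_mul_im, Complex.ofReal_re, Complex.ofReal_im]; ring
    have h6 : e.2.2 = e'.2.2 := by
      have k1 := congrArg Complex.re h3
      have k2 := congrArg Complex.im h3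
      rw [h4, h4] at k1
      rw [h5, h5] at k2
      exact Complex.ext k1 (Real.exp_injective k2)
    rcases sq_eq_sq_iff_eq_or_eq_neg.mp h1 with h7 | h7
    · exact Or.inl (Prod.ext hs (Prod.ext (Subtype.ext h7) h6))
    · exact Or.inr (Prod.ext hs (Prod.ext (Subtype.ext h7) h6))
  · rintro (rfl | rfl)
    · rfl
    · apply Frame.ext_val
      intro a
      rw [fr1_val, fr1_val]
      refine Prod.ext rfl ?_
      simp only [neg1, linC, LinearMap.coe_mk, AddHom.coe_mk, neg_sq]

/-- the action on the spin structure -/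
@[reducible] def act1 (S : SSet Γ) : MulAction Γ (S.S × P0) where
  smul g e := (g • e.1, ⟨((S.sgn g e.1 : ℤ) : ℂ) * e.2.1,
    mul_ne_zero (by exact_mod_cast (S.sgn g e.1).ne_zero) e.2.1.2⟩, e.2.2)
  one_smul e := by
    refine Prod.ext (one_smul _ _) (Prod.ext (Subtype.ext ?_) rfl)
    show ((S.sgn 1 e.1 : ℤ) : ℂ) * e.2.1 = e.2.1
    rw [S.sgn_one]
    simp
  mul_smul g h e := by
    refine Prod.ext (mul_smul _ _ _) (Prod.ext (Subtype.ext ?_) rfl)
    show ((S.sgn (g * h) e.1 : ℤ) : ℂ) * e.2.1 =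
      ((S.sgn g (h • e.1) : ℤ) : ℂ) * (((S.sgn h e.1 : ℤ) : ℂ) * e.2.1)
    rw [S.sgn_mul]
    push_cast
    ring

theorem proper1 (S : SSet Γ) (K : Set S.S) (hK : IsCompact K) :
    {g : Γ | ((fun x => g • x) '' K ∩ K).Nonempty}.Finite := by
  have hf : K.Finite := hK.finite_of_discrete
  refine ((hf.prod hf).biUnion (t := fun q => {g : Γ | g • q.1 = q.2})
    fun q _ => S.finite_stab q.1 q.2).subset ?_
  rintro g ⟨y, ⟨x, hx, rfl⟩, hy⟩
  simp only [mem_iUnion]
  exact ⟨(x, g • x), ⟨hx, hy⟩, rfl⟩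

theorem cocompact1 (S : SSet Γ) : ∃ K : Set S.S, IsCompact K ∧ ∀ x, ∃ g : Γ, g • x ∈ K := by
  refine ⟨range S.pt, (Set.finite_range _).isCompact, fun x => ?_⟩
  obtain ⟨j, g, h⟩ := S.exists_pair x
  refine ⟨g⁻¹, j, ?_⟩
  rw [← h, inv_smul_smul]

/-- A countable set `S` with a proper cocompact action of the group `Γ` and signs, as a closed spin
manifold of dimension `0`, all points being positively oriented: the spin structure is `S × P0`, and
`g • (s, p) = (g • s, sgn g s • p)`. -/
def spin1 (S : SSet Γ) : SpinMfd Γ 0 where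
  toMfd := mfd1 S
  act := S.act
  smooth_smul g := contMDiff_of_discreteTopology
  proper := proper1 S
  cocompact := cocompact1 S
  P := S.S × P0
  topP := inferInstance
  t2P := inferInstance
  fr := fr1 S
  neg := neg1 S
  continuous_fr := continuous_fr1 S
  isOpenMap_fr := isOpenMap_fr1 S
  continuous_neg := by
    unfold neg1
    fun_prop
  neg_ne e h := by
    have h1 : -(e.2.1 : ℂ) = e.2.1 := congrArg (fun t : S.S × P0 => (t.2.1 : ℂ)) h
    exact e.2.1.2 (self_eq_neg.mp h1.symm)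
  fr_eq_iff := fr1_eq_iff S
  orientation e u := by
    rw [range_fr1]
    show 0 < dt1 (⟨(fr1 S e).pt, u.trans (fr1 S e).lin⟩ : Frame (mfd1 S)) ↔ _
    rw [dt1_comp, mul_pos_iff_of_pos_left (det_fr1 S e)]
    rfl
  nontrivial_fibre x := by
    have h1 : {e : S.S × P0 | (fr1 S e).pt = x} = (fun p : P0 => ((x, p) : S.S × P0)) '' univ := by
      ext e
      constructor
      · intro h
        exact ⟨e.2, mem_univ _, Prod.ext (Eq.symm h) rfl⟩
      · rintro ⟨p, _, rfl⟩
        rfl
    show IsConnected {e : S.S × P0 | (fr1 S e).pt = x}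
    rw [h1]
    exact isConnected_univ.image _ (by fun_prop)
  actP := act1 S
  continuous_smulP g := by
    show Continuous (fun e : S.S × P0 => (((g • e.1, ⟨((S.sgn g e.1 : ℤ) : ℂ) * e.2.1,
      mul_ne_zero (by exact_mod_cast (S.sgn g e.1).ne_zero) e.2.1.2⟩, e.2.2) : S.S × P0)))
    have h1 : Continuous (fun s : S.S => g • s) := continuous_of_discreteTopology
    have h2 : Continuous (fun s : S.S => ((S.sgn g s : ℤ) : ℂ)) := continuous_of_discreteTopology
    refine (h1.comp continuous_fst).prodMk (Continuous.prodMk (Continuous.subtype_mk ?_ _) ?_)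
    · exact (h2.comp continuous_fst).mul (continuous_subtype_val.comp continuous_snd.fst)
    · exact continuous_snd.snd
  fr_smul g e a := by
    refine Prod.ext (tb_eq1 S rfl) ?_
    show (linC _ a.2) = linC e.2 a.2
    have h1 : (((S.sgn g e.1 : ℤ) : ℂ) * e.2.1) ^ 2 = (e.2.1 : ℂ) ^ 2 := by
      rw [mul_pow]
      rcases Int.units_eq_one_or (S.sgn g e.1) with h | h <;> rw [h] <;> simp
    simp only [linC, LinearMap.coe_mk, AddHom.coe_mk]
    show (((S.sgn g e.1 : ℤ) : ℂ) * e.2.1) ^ 2 * _ = _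
    rw [h1]
    rfl

/-- the zero metric on a manifold of dimension `0` -/
def metric1' (S : SSet Γ) : ContMDiffRiemannianMetric (Im 0) ∞ (E 0)
    (fun x : mfd1 S => TangentSpace (Im 0) x) where
  inner _ := 0
  symm _ _ _ := rfl
  pos x v hv := by
    have : (show E 0 from v) = 0 := Subsingleton.elim _ _
    exact absurd this hv
  isVonNBounded x := by
    have : Subsingleton (TangentSpace (Im 0) x) := inferInstanceAs (Subsingleton (E 0))
    exact (Set.toFinite _).isVonNBounded
  contMDiff := contMDiff_of_discreteTopology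

/-- the zero metric on a manifold of dimension `0` -/
def metric1 (S : SSet Γ) : Metric (mfd1 S) := metric1' S

theorem bd1 (S : SSet Γ) : (mfd1 S).bd = ∅ := by
  have : (Im 0).Boundaryless := inferInstanceAs (𝓘(ℝ, E 0).Boundaryless)
  exact ModelWithCorners.Boundaryless.boundary_eq_empty (I := Im 0) (M := (mfd1 S).carrier)

/-- The triple of a signed set with an equivariant map to `X`. -/
def triple1 {X : Type} [TopologicalSpace X] [MulAction Γ X] (S : SSet Γ) (f : S.S → X)
    (hf : ∀ (g : Γ) s, f (g • s) = g • f s) : Triple Γ X 0 where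
  toSpinMfd := spin1 S
  f := f
  continuous_f := by
    have : Continuous f := continuous_of_discreteTopology
    exact this
  f_smul := hf
  metric := metric1 S
  isometry _ _ _ _ := rfl
  product x hx := by
    have h : x ∈ (mfd1 S).bd := hx
    rw [bd1] at h
    exact absurd h (notMem_empty _)
  psc_boundary x hx := by
    have h : x ∈ (mfd1 S).bd := hx
    rw [bd1] at h
    exact absurd h (notMem_empty _)

end Pool.Agent.H859.ST
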