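import Mathlib
import Pool.Agent.H859.ST.Zero

/-!
The module of the finitely supported functions on a signed set, over the real group ring.
-/

set_option autoImplicit false
set_option linter.style.haveILetI false

open Set

noncomputable section

namespace Pool.Agent.H859.ST

open Pool.Agent.N774.Stolz

variable {Γ : Type} [Group Γ]

/-- the sign as a real number -/
def sr (u : ℤˣ) : ℝ := ((u : ℤ) : ℝ)

theorem sr_mul (u v : ℤˣ) : sr (u * v) = sr u * sr v := by simp [sr]

theorem sr_one : sr 1 = 1 := by simp [sr]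

theorem sr_sq (u : ℤˣ) : sr u * sr u = 1 := by
  rcases Int.units_eq_one_or u with h | h <;> rw [h] <;> simp [sr]

theorem SSet.sgn_inv (S : SSet Γ) (g : Γ) (s : S.S) : S.sgn g (g⁻¹ • s) = S.sgn g⁻¹ s := by
  have h := S.sgn_mul g g⁻¹ s
  rw [mul_inv_cancel, S.sgn_one] at h
  rcases Int.units_eq_one_or (S.sgn g⁻¹ s) with h1 | h1
  · rw [h1] at h ⊢
    rw [mul_one] at h
    exact h.symm
  · rw [h1] at h ⊢
    rw [mul_neg, mul_one] at h
    rw [h, neg_neg]

/-- the operator `δ_s ↦ sgn g s • δ_{g s}` -/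
def SSet.op (S : SSet Γ) (g : Γ) : (S.S →₀ ℝ) →ₗ[ℝ] (S.S →₀ ℝ) :=
  Finsupp.linearCombination ℝ (fun s => Finsupp.single (g • s) (sr (S.sgn g s)))

theorem SSet.op_single (S : SSet Γ) (g : Γ) (s : S.S) (c : ℝ) :
    S.op g (Finsupp.single s c) = Finsupp.single (g • s) (c * sr (S.sgn g s)) := by
  rw [SSet.op, Finsupp.linearCombination_single, Finsupp.smul_single, smul_eq_mul]

theorem SSet.op_apply (S : SSet Γ) (g : Γ) (f : S.S →₀ ℝ) (s : S.S) :
    S.op g f s = sr (S.sgn g⁻¹ s) * f (g⁻¹ • s) := by
  classical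
  induction f using Finsupp.induction_linear with
  | zero => simp
  | add f f' h h' => rw [map_add, Finsupp.add_apply, h, h', Finsupp.add_apply]; ring
  | single t c =>
    rw [S.op_single, Finsupp.single_apply, Finsupp.single_apply]
    by_cases h : g • t = s
    · have h2 : t = g⁻¹ • s := by rw [← h, inv_smul_smul]
      rw [if_pos h, if_pos h2, h2, S.sgn_inv]
      ring
    · have h2 : ¬ t = g⁻¹ • s := fun h2 => h (by rw [h2, smul_inv_smul])
      rw [if_neg h, if_neg h2, mul_zero]

/-- The signed permutation representation on the finitely supported functions on `S`: it maps `δ_s`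
to `sgn g s • δ_{g s}`. -/
def SSet.rep (S : SSet Γ) : Representation ℝ Γ (S.S →₀ ℝ) where
  toFun g := S.op g
  map_one' := by
    ext s t
    simp [S.op_single, S.sgn_one, sr_one]
  map_mul' g h := by
    ext s t
    simp [S.op_single, S.sgn_mul, sr_mul, mul_smul, mul_comm]

theorem SSet.rep_apply (S : SSet Γ) (g : Γ) (f : S.S →₀ ℝ) (s : S.S) :
    S.rep g f s = sr (S.sgn g⁻¹ s) * f (g⁻¹ • s) := S.op_apply g f s

theorem SSet.rep_single (S : SSet Γ) (g : Γ) (s : S.S) (c : ℝ) :
    S.rep g (Finsupp.single s c) = Finsupp.single (g • s) (c * sr (S.sgn g s)) := S.op_single g s c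

/-- the underlying `ℝ[Γ]`-module -/
abbrev SSet.M (S : SSet Γ) : Type := S.rep.asModule

theorem SSet.single_smul (S : SSet Γ) (g : Γ) (c : ℝ) (v : S.M) :
    MonoidAlgebra.single g c • v =
      S.rep.asModuleEquiv.symm (c • S.rep g (S.rep.asModuleEquiv v)) := by
  apply S.rep.asModuleEquiv.injective
  rw [LinearEquiv.apply_symm_apply, S.rep.asModuleEquiv_map_smul,
    Representation.asAlgebraHom_single]
  rfl

theorem finite_support (S : SSet Γ) (f : S.S →₀ ℝ) (j : S.J) :
    {g : Γ | f (g • S.pt j) ≠ 0}.Finite := by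
  have h : {g : Γ | f (g • S.pt j) ≠ 0} ⊆ ⋃ s ∈ f.support, {g : Γ | g • S.pt j = s} := by
    intro g hg
    simp only [mem_iUnion]
    exact ⟨g • S.pt j, Finsupp.mem_support_iff.mpr hg, rfl⟩
  exact (f.support.finite_toSet.biUnion fun s _ => S.finite_stab _ _).subset h

/-- the coordinate functions of the dual basis, as functions on `Γ` -/
def SSet.co (S : SSet Γ) (j : S.J) (f : S.S →₀ ℝ) : Γ →₀ ℝ :=
  Finsupp.ofSupportFinite (fun g => (S.N : ℝ)⁻¹ * sr (S.sgn g (S.pt j)) * f (g • S.pt j)) (by
    refine (finite_support S f j).subset ?_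
    intro g hg h
    apply hg
    show (S.N : ℝ)⁻¹ * sr (S.sgn g (S.pt j)) * f (g • S.pt j) = 0
    rw [h, mul_zero])

theorem SSet.co_apply (S : SSet Γ) (j : S.J) (f : S.S →₀ ℝ) (g : Γ) :
    S.co j f g = (S.N : ℝ)⁻¹ * sr (S.sgn g (S.pt j)) * f (g • S.pt j) := rfl

/-- the coordinate functions of the dual basis -/
def SSet.coL (S : SSet Γ) (j : S.J) : S.M →ₗ[ℝ] MonoidAlgebra ℝ Γ where
  toFun v := MonoidAlgebra.ofCoeff (S.co j (S.rep.asModuleEquiv v))
  map_add' v w := by
    apply MonoidAlgebra.coeff_injective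
    rw [MonoidAlgebra.coeff_add]
    ext g
    show S.co j (S.rep.asModuleEquiv (v + w)) g =
      (S.co j (S.rep.asModuleEquiv v) + S.co j (S.rep.asModuleEquiv w)) g
    rw [Finsupp.add_apply, S.co_apply, S.co_apply, S.co_apply, map_add, Finsupp.add_apply]
    ring
  map_smul' c v := by
    apply MonoidAlgebra.coeff_injective
    ext g
    show S.co j (S.rep.asModuleEquiv (c • v)) g = c • S.co j (S.rep.asModuleEquiv v) g
    rw [S.co_apply, S.co_apply, LinearEquiv.map_smul, Finsupp.smul_apply, smul_eq_mul, smul_eq_mul]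
    ring

/-- the coordinate functions of the dual basis -/
def SSet.coA (S : SSet Γ) (j : S.J) : S.M →ₗ[MonoidAlgebra ℝ Γ] MonoidAlgebra ℝ Γ :=
  MonoidAlgebra.equivariantOfLinearOfComm (S.coL j) (by
    intro h v
    apply MonoidAlgebra.coeff_injective
    ext g
    rw [smul_eq_mul, MonoidAlgebra.coeff_single_mul_apply, one_mul]
    show S.co j (S.rep.asModuleEquiv (MonoidAlgebra.single h (1 : ℝ) • v)) g =
      S.co j (S.rep.asModuleEquiv v) (h⁻¹ * g)
    rw [S.single_smul, LinearEquiv.apply_symm_apply, one_smul, S.co_apply, S.co_apply,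
      S.rep_apply, mul_smul]
    have h1 : sr (S.sgn g (S.pt j)) = sr (S.sgn h⁻¹ (g • S.pt j)) *
        sr (S.sgn (h⁻¹ * g) (S.pt j)) := by
      rw [S.sgn_mul, sr_mul, ← mul_assoc, sr_sq, one_mul]
    rw [h1]
    have h2 := sr_sq (S.sgn h⁻¹ (g • S.pt j))
    linear_combination ((S.N : ℝ)⁻¹ * sr (S.sgn (h⁻¹ * g) (S.pt j)) *
      (S.rep.asModuleEquiv v) (h⁻¹ • g • S.pt j)) * h2)

theorem SSet.coA_apply (S : SSet Γ) (j : S.J) (v : S.M) :
    S.coA j v = MonoidAlgebra.ofCoeff (S.co j (S.rep.asModuleEquiv v)) := rfl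

theorem SSet.smul_apply (S : SSet Γ) (a : MonoidAlgebra ℝ Γ) (v : S.M) :
    S.rep.asModuleEquiv (a • v) = a.coeff.sum fun g c => c • S.rep g (S.rep.asModuleEquiv v) := by
  rw [S.rep.asModuleEquiv_map_smul, Representation.asAlgebraHom_def, MonoidAlgebra.lift_apply]
  simp [Finsupp.sum, LinearMap.sum_apply]

/-- the dual basis -/
def SSet.dual (S : SSet Γ) : DualBasis (MonoidAlgebra ℝ Γ) S.M where
  J := S.J
  x j := S.rep.asModuleEquiv.symm (Finsupp.single (S.pt j) 1)
  f := S.coA
  sum v := by
    classical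
    apply S.rep.asModuleEquiv.injective
    ext s
    rw [map_sum, Finsupp.coe_finsetSum, Finset.sum_apply]
    simp only [S.smul_apply, S.coA_apply, LinearEquiv.apply_symm_apply, S.rep_single, one_mul,
      Finsupp.smul_single, smul_eq_mul]
    set F := S.rep.asModuleEquiv v with hF
    have h1 : ∀ j, ((S.co j F).sum fun g c => Finsupp.single (g • S.pt j)
        (c * sr (S.sgn g (S.pt j)))) s =
        ∑ᶠ g : Γ, if g • S.pt j = s then (S.N : ℝ)⁻¹ * F s else 0 := by
      intro j
      rw [Finsupp.sum, Finsupp.coe_finsetSum, Finset.sum_apply,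
        finsum_eq_sum_of_support_subset (s := (S.co j F).support)]
      · refine Finset.sum_congr rfl fun g _ => ?_
        rw [Finsupp.single_apply]
        by_cases h : g • S.pt j = s
        · rw [if_pos h, if_pos h, S.co_apply, h]
          have := sr_sq (S.sgn g (S.pt j))
          linear_combination ((S.N : ℝ)⁻¹ * F s) * this
        · rw [if_neg h, if_neg h]
      · intro g hg
        rw [Function.mem_support] at hg
        by_cases h : g • S.pt j = s
        · rw [if_pos h] at hg
          rw [Finset.mem_coe, Finsupp.mem_support_iff, S.co_apply, h]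
          intro h0
          apply hg
          have := sr_sq (S.sgn g (S.pt j))
          have h3 : (S.N : ℝ)⁻¹ * F s = ((S.N : ℝ)⁻¹ * sr (S.sgn g (S.pt j)) * F s) *
              sr (S.sgn g (S.pt j)) := by
            linear_combination (-((S.N : ℝ)⁻¹ * F s)) * this
          rw [h3, h0, zero_mul]
        · rw [if_neg h] at hg
          exact absurd rfl hg
    rw [Finset.sum_congr rfl fun j _ => h1 j]
    have h2 : ∀ j, (∑ᶠ g : Γ, if g • S.pt j = s then (S.N : ℝ)⁻¹ * F s else 0) =
        (Nat.card {g : Γ // g • S.pt j = s} : ℝ) * ((S.N : ℝ)⁻¹ * F s) := by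
      intro j
      have hf := S.finite_stab (S.pt j) s
      rw [finsum_eq_sum_of_support_subset (s := hf.toFinset)]
      · rw [Finset.sum_congr rfl (g := fun _ => (S.N : ℝ)⁻¹ * F s)]
        · rw [Finset.sum_const, nsmul_eq_mul]
          congr 2
          have h5 := Nat.card_coe_set_eq {g : Γ | g • S.pt j = s}
          rw [Set.ncard_eq_toFinset_card _ hf] at h5
          exact h5.symm
        · intro g hg
          rw [Set.Finite.mem_toFinset] at hg
          exact if_pos hg
      · intro g hg
        rw [Function.mem_support] at hg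
        by_cases h : g • S.pt j = s
        · simpa using h
        · rw [if_neg h] at hg
          exact absurd rfl hg
    rw [Finset.sum_congr rfl fun j _ => h2 j, ← Finset.sum_mul]
    have h3 : (∑ j, (Nat.card {g : Γ // g • S.pt j = s} : ℝ)) = S.N := by
      rw [← S.count s]
      haveI := fun j => (S.finite_stab (S.pt j) s).to_subtype
      have h4 : Nat.card {q : S.J × Γ // q.2 • S.pt q.1 = s} =
          Nat.card (Σ j : S.J, {g : Γ // g • S.pt j = s}) := by
        refine Nat.card_congr
          { toFun := fun q => ⟨q.1.1, q.1.2, q.2⟩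
            invFun := fun q => ⟨(q.1, q.2.1), q.2.2⟩
            left_inv := fun q => rfl
            right_inv := fun q => rfl }
      haveI : ∀ j : S.J, Finite {g : Γ // g • S.pt j = s} := fun j =>
        (S.finite_stab (S.pt j) s).to_subtype
      rw [h4, Nat.card_sigma]
      push_cast
      rfl
    rw [h3]
    have hN : (S.N : ℝ) ≠ 0 := by exact_mod_cast S.N_pos.ne'
    field_simp

/-- the coefficient at `1`, the trace on the group ring -/
def coeffOne (Γ : Type) [Group Γ] : MonoidAlgebra ℝ Γ →+ ℝ where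
  toFun a := a.coeff 1
  map_zero' := rfl
  map_add' _ _ := rfl

theorem SSet.tr_dual (S : SSet Γ) : S.dual.tr (coeffOne Γ) = (Fintype.card S.J : ℝ) / S.N := by
  have h : ∀ j : S.J, coeffOne Γ (S.dual.f j (S.dual.x j)) = (S.N : ℝ)⁻¹ := by
    intro j
    show S.co j (S.rep.asModuleEquiv (S.rep.asModuleEquiv.symm (Finsupp.single (S.pt j) 1))) 1 = _
    rw [LinearEquiv.apply_symm_apply, S.co_apply, one_smul, S.sgn_one, sr_one,
      Finsupp.single_eq_same]
    ring
  have h2 : S.dual.tr (coeffOne Γ) = ∑ j : S.J, coeffOne Γ (S.dual.f j (S.dual.x j)) := rfl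
  rw [h2, Finset.sum_congr rfl fun j _ => h j, Finset.sum_const, nsmul_eq_mul, Finset.card_univ]
  rfl

end Pool.Agent.H859.ST
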