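import Mathlib
import Pool.Graph.R_pool_sql_team_seeded_63374d34.N774.Stolz.Tr
import Pool.Agent.H859.ST.Mod

/-!
The module of the compactly supported spinors of a closed spin manifold of dimension `0`.
-/

set_option autoImplicit false
set_option linter.style.haveILetI false

open Set Manifold Bundle
open scoped Manifold ContDiff Topology

noncomputable section

namespace Pool.Agent.H859.ST

open Pool.Agent.N774.Stolz

variable {Γ : Type} [Group Γ]

theorem IsCompactSpinors.congr {L : SpinMfd Γ 0} {r : ℂ → ℂ} {V V' : FGP (MonoidAlgebra ℝ Γ)}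
    {j : V.mdl → L.P → ℝ} (h : IsCompactSpinors L r V j)
    (φ : V'.mdl ≃ₗ[MonoidAlgebra ℝ Γ] V.mdl) :
    IsCompactSpinors L r V' (fun v => j (φ v)) where
  injective := h.injective.comp φ.injective
  add v w e := by rw [map_add, h.add]
  smul c g v e := by rw [map_smul, h.smul]
  range f := by
    rw [← h.range]
    constructor
    · rintro ⟨v, rfl⟩
      exact ⟨φ v, rfl⟩
    · rintro ⟨v, rfl⟩
      refine ⟨φ.symm v, ?_⟩
      show j (φ (φ.symm v)) = _
      rw [φ.apply_symm_apply]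

/-! ### invariant subsets -/

/-- an invariant subset of a signed set -/
def SSet.sub (S : SSet Γ) (U : Set S.S) (hU : ∀ (g : Γ) s, g • s ∈ U ↔ s ∈ U) : SSet Γ where
  S := U
  act :=
    { smul := fun g s => ⟨g • s.1, (hU g s.1).mpr s.2⟩
      one_smul := fun s => Subtype.ext (one_smul _ _)
      mul_smul := fun g h s => Subtype.ext (mul_smul _ _ _) }
  sgn g s := S.sgn g s.1
  sgn_one s := S.sgn_one s.1
  sgn_mul g h s := S.sgn_mul g h s.1
  J := {j : S.J // S.pt j ∈ U}
  finJ := by classical exact inferInstance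
  pt j := ⟨S.pt j.1, j.2⟩
  N := S.N
  N_pos := S.N_pos
  count s := by
    rw [← S.count s.1]
    refine Nat.card_congr
      { toFun := fun q => ⟨(q.1.1.1, q.1.2), congrArg Subtype.val q.2⟩
        invFun := fun q => ⟨(⟨q.1.1, (hU q.1.2 _).mp (by rw [q.2]; exact s.2)⟩, q.1.2),
          Subtype.ext q.2⟩
        left_inv := fun q => rfl
        right_inv := fun q => rfl }

/-- an element of the subset -/
def SSet.mkSub (S : SSet Γ) (U : Set S.S) (hU : ∀ (g : Γ) s, g • s ∈ U ↔ s ∈ U) (s : S.S)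
    (h : s ∈ U) : (S.sub U hU).S := ⟨s, h⟩

theorem SSet.sub_smul (S : SSet Γ) (U : Set S.S) (hU : ∀ (g : Γ) s, g • s ∈ U ↔ s ∈ U) (g : Γ)
    (s : (S.sub U hU).S) : (g • s : (S.sub U hU).S).1 = g • s.1 := rfl

/-- the standard points of `P0` -/
def Std (p : P0) : Prop := ((p.1 : ℂ) = 1 ∨ (p.1 : ℂ) = -1) ∧ p.2 = 0

theorem std_iff (p : P0) : (∀ z, linC p z = z) ↔ Std p := by
  constructor
  · intro h
    have h3 : linC p 1 = 1 := h 1
    have h4 : linC p Complex.I = Complex.I := h Complex.I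
    refine ⟨of_linC h3, ?_⟩
    have h5 := of_linC_I h3 _ h4
    refine Complex.ext ?_ ?_
    · rw [h5.1]; simp
    · have h6 := h5.2
      rw [Complex.I_im, Real.exp_eq_one_iff] at h6
      rw [h6]; simp
  · exact fun h z => linC_id h z

theorem not_conj (p : P0) : ¬ ∀ z, linC p z = starRingEnd ℂ z := by
  intro h2
  have h3 : linC p 1 = 1 := by
    exact (h2 1).trans (map_one _)
  have h4 : linC p Complex.I = -Complex.I := by
    exact (h2 Complex.I).trans Complex.conj_I
  have h5 := (of_linC_I h3 _ h4).2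
  have h6 := Real.exp_pos p.2.im
  rw [h5] at h6
  simp at h6
  linarith

theorem sg_ne_zero {p : P0} : sg p ≠ 0 ↔ Std p := by
  constructor
  · intro h
    by_contra h2
    exact h (sg_zero h2)
  · rintro ⟨h | h, h2⟩
    · rw [sg_one h h2]; norm_num
    · rw [sg_neg_one h h2]; norm_num

section
variable (S : SSet Γ) (U : Set S.S)

/-- the frames of the all positive manifold with the orientation reversed over `U` -/
def frU (e : S.S × P0) : Frame (mfd1 S) := newFr (spin1 S) U e

theorem frU_pt (e : S.S × P0) : (frU S U e).pt = e.1 := newFr_pt (spin1 S) U e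

theorem frU_of_mem {e : S.S × P0} (h : e.1 ∈ U) (z : ℂ) :
    ((frU S U e).app 0 z).2 = linC e.2 (starRingEnd ℂ z) := by
  have h1 := newFr_val_of_mem (spin1 S) (U := U) (e := e) h (0, z)
  exact congrArg Prod.snd h1

theorem frU_of_notMem {e : S.S × P0} (h : e.1 ∉ U) (z : ℂ) :
    ((frU S U e).app 0 z).2 = linC e.2 z := by
  have h1 := newFr_val_of_notMem (spin1 S) (U := U) (e := e) h (0, z)
  exact congrArg Prod.snd h1

theorem frU_id (e : S.S × P0) : (∀ z, ((frU S U e).app 0 z).2 = z) ↔ e.1 ∈ Uᶜ ∧ Std e.2 := by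
  by_cases h : e.1 ∈ U
  · simp only [frU_of_mem S U h]
    refine iff_of_false (fun h2 => not_conj e.2 fun z => ?_) (fun h2 => h2.1 h)
    have := h2 (starRingEnd ℂ z)
    rwa [Complex.conj_conj] at this
  · simp only [frU_of_notMem S U h, std_iff]
    exact ⟨fun h2 => ⟨h, h2⟩, fun h2 => h2.2⟩

theorem frU_conj (e : S.S × P0) :
    (∀ z, ((frU S U e).app 0 z).2 = starRingEnd ℂ z) ↔ e.1 ∈ U ∧ Std e.2 := by
  by_cases h : e.1 ∈ U
  · simp only [frU_of_mem S U h]
    rw [← std_iff]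
    constructor
    · intro h2
      refine ⟨h, fun z => ?_⟩
      have := h2 (starRingEnd ℂ z)
      rwa [Complex.conj_conj] at this
    · exact fun h2 z => h2.2 _
  · simp only [frU_of_notMem S U h]
    exact iff_of_false (not_conj e.2) (fun h2 => h h2.1)

variable (T : Set S.S) (hT : ∀ (g : Γ) s, g • s ∈ T ↔ s ∈ T)

open Classical in
/-- the spinors -/
def spjT (f : (S.sub T hT).M) (e : S.S × P0) : ℝ :=
  if h : e.1 ∈ T then sg e.2 * (S.sub T hT).rep.asModuleEquiv f (S.mkSub T hT e.1 h) else 0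

theorem spjT_of_mem (f : (S.sub T hT).M) {e : S.S × P0} (h : e.1 ∈ T) :
    spjT S T hT f e = sg e.2 * (S.sub T hT).rep.asModuleEquiv f (S.mkSub T hT e.1 h) := dif_pos h

theorem spjT_of_notMem (f : (S.sub T hT).M) {e : S.S × P0} (h : e.1 ∉ T) :
    spjT S T hT f e = 0 := dif_neg h

theorem spjT_add (v w : (S.sub T hT).M) (e : S.S × P0) :
    spjT S T hT (v + w) e = spjT S T hT v e + spjT S T hT w e := by
  by_cases h : e.1 ∈ T
  · rw [spjT_of_mem S T hT _ h, spjT_of_mem S T hT _ h, spjT_of_mem S T hT _ h, map_add,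
      Finsupp.add_apply, mul_add]
  · rw [spjT_of_notMem S T hT _ h, spjT_of_notMem S T hT _ h, spjT_of_notMem S T hT _ h, add_zero]

theorem spjT_smul (c : ℝ) (g : Γ) (v : (S.sub T hT).M) (e : S.S × P0) :
    spjT S T hT (MonoidAlgebra.single g c • v) e = c * spjT S T hT v ((act1 S).smul g⁻¹ e) := by
  by_cases h : e.1 ∈ T
  · have h2 : ((act1 S).smul g⁻¹ e).1 ∈ T := (hT g⁻¹ e.1).mpr h
    rw [spjT_of_mem S T hT _ h, spjT_of_mem S T hT _ h2, SSet.single_smul,
      LinearEquiv.apply_symm_apply, Finsupp.smul_apply, smul_eq_mul, SSet.rep_apply,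
      sg_unit (S.sgn g⁻¹ e.1) (p := e.2) (q := ((act1 S).smul g⁻¹ e).2) rfl rfl]
    show sg e.2 * (c * (sr (S.sgn g⁻¹ e.1) * (S.sub T hT).rep.asModuleEquiv v
      (S.mkSub T hT (g⁻¹ • e.1) h2))) = c * (((S.sgn g⁻¹ e.1 : ℤ) : ℝ) * sg e.2 *
        (S.sub T hT).rep.asModuleEquiv v (S.mkSub T hT (g⁻¹ • e.1) h2))
    rw [sr]
    ring
  · have h2 : ((act1 S).smul g⁻¹ e).1 ∉ T := fun h3 => h ((hT g⁻¹ e.1).mp h3)
    rw [spjT_of_notMem S T hT _ h, spjT_of_notMem S T hT _ h2, mul_zero]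

theorem spjT_injective : Function.Injective (spjT S T hT) := by
  intro f f' h
  apply (S.sub T hT).rep.asModuleEquiv.injective
  ext s
  have h1 := congrFun h (s.1, ⟨⟨1, one_ne_zero⟩, 0⟩)
  rw [spjT_of_mem S T hT _ (show (s.1, (⟨⟨1, one_ne_zero⟩, 0⟩ : P0)).1 ∈ T from s.2),
    spjT_of_mem S T hT _ (show (s.1, (⟨⟨1, one_ne_zero⟩, 0⟩ : P0)).1 ∈ T from s.2),
    sg_one rfl rfl, one_mul, one_mul] at h1
  exact h1

theorem sg_neg1 (e : S.S × P0) : sg (neg1 S e).2 = -sg e.2 := by
  rw [sg_unit (-1) (p := e.2) (q := (neg1 S e).2) (by simp [neg1]) rfl]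
  simp

theorem spjT_range {r : ℂ → ℂ}
    (hr : ∀ e : S.S × P0, (∀ z, ((frU S U e).app 0 z).2 = r z) ↔ e.1 ∈ T ∧ Std e.2)
    (φ : S.S × P0 → ℝ) : φ ∈ range (spjT S T hT) ↔
    (∀ e, φ (neg1 S e) = -φ e ∧ (φ e ≠ 0 → ∀ z, ((frU S U e).app 0 z).2 = r z)) ∧
    ∃ K : Set S.S, IsCompact K ∧ ∀ e, φ e ≠ 0 → (frU S U e).pt ∈ K := by
  constructor
  · rintro ⟨f, rfl⟩
    refine ⟨fun e => ⟨?_, fun h0 => (hr e).mpr ?_⟩, ?_⟩
    · by_cases h : e.1 ∈ T
      · rw [spjT_of_mem S T hT f h, spjT_of_mem S T hT f (e := neg1 S e) h, sg_neg1]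
        show -sg e.2 * (S.sub T hT).rep.asModuleEquiv f (S.mkSub T hT e.1 h) = _
        ring
      · rw [spjT_of_notMem S T hT f h, spjT_of_notMem S T hT f (e := neg1 S e) h, neg_zero]
    · by_cases h : e.1 ∈ T
      · rw [spjT_of_mem S T hT f h] at h0
        exact ⟨h, sg_ne_zero.mp (left_ne_zero_of_mul h0)⟩
      · exact absurd (spjT_of_notMem S T hT f h) h0
    · refine ⟨Subtype.val '' (((S.sub T hT).rep.asModuleEquiv f).support : Set (S.sub T hT).S),
        ((Finset.finite_toSet _).image _).isCompact, fun e h0 => ?_⟩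
      rw [frU_pt]
      by_cases h : e.1 ∈ T
      · rw [spjT_of_mem S T hT f h] at h0
        exact ⟨⟨e.1, h⟩, Finsupp.mem_support_iff.mpr (right_ne_zero_of_mul h0), rfl⟩
      · exact absurd (spjT_of_notMem S T hT f h) h0
  · rintro ⟨h, K, hK, hs⟩
    have hf : K.Finite := hK.finite_of_discrete
    let one : P0 := ⟨⟨1, one_ne_zero⟩, 0⟩
    have hsupp : (Function.support fun t : (S.sub T hT).S => φ (t.1, one)).Finite := by
      refine (hf.preimage (f := fun t : (S.sub T hT).S => t.1)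
        (Subtype.val_injective.injOn)).subset ?_
      intro t ht
      have := hs (t.1, one) ht
      rwa [frU_pt] at this
    refine ⟨(S.sub T hT).rep.asModuleEquiv.symm (Finsupp.ofSupportFinite _ hsupp), ?_⟩
    funext e
    by_cases hst : Std e.2
    · by_cases hT' : e.1 ∈ T
      · rw [spjT_of_mem S T hT _ hT', LinearEquiv.apply_symm_apply]
        show sg e.2 * φ (e.1, one) = φ e
        rcases hst with ⟨h1 | h1, h2⟩
        · rw [sg_one h1 h2, one_mul]
          have h4 : ((e.1, one) : S.S × P0) = e :=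
            Prod.ext rfl (Prod.ext (Subtype.ext h1.symm) h2.symm)
          exact congrArg φ h4
        · rw [sg_neg_one h1 h2]
          have h3 := (h (e.1, one)).1
          have h4 : neg1 S (e.1, one) = e :=
            Prod.ext rfl (Prod.ext (Subtype.ext h1.symm) h2.symm)
          have h5 : φ e = -φ (e.1, one) := (congrArg φ h4).symm.trans h3
          rw [h5, neg_one_mul]
      · rw [spjT_of_notMem S T hT _ hT']
        by_contra h1
        exact hT' ((hr e).mp ((h e).2 (Ne.symm h1))).1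
    · have h1 : φ e = 0 := by
        by_contra h1
        exact hst ((hr e).mp ((h e).2 h1)).2
      rw [h1]
      by_cases hT' : e.1 ∈ T
      · rw [spjT_of_mem S T hT _ hT', sg_zero hst, zero_mul]
      · rw [spjT_of_notMem S T hT _ hT']

end

/-! ### the reversal of the orientation over an invariant subset, for triples -/

variable {X : Type} [TopologicalSpace X] [MulAction Γ X] {n : ℕ}

/-- replace the frames of a triple -/
def withFr (L : Triple Γ X n) (F : L.P → Frame L.toMfd) (h1 : Continuous F) (h2 : IsOpenMap F)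
    (h3 : ∀ e e', F e = F e' ↔ e = e' ∨ e = L.neg e')
    (h4 : ∀ (e : L.P) (u : (E n × ℂ) ≃ₗ[ℝ] (E n × ℂ)), (F e).comp u ∈ range F ↔ 0 < det u)
    (h5 : ∀ x : L.carrier, IsConnected {e | (F e).pt = x})
    (h6 : ∀ (g : Γ) (e : L.P) (a : E n × ℂ),
      (F (g • e)).val a = DC (fun x : L.toMfd => g • x) ((F e).val a)) : Triple Γ X n :=
  { L with
    toSpinMfd :=
      { L.toSpinMfd with
        fr := F
        continuous_fr := h1
        isOpenMap_fr := h2
        fr_eq_iff := h3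
        orientation := h4
        nontrivial_fibre := h5
        fr_smul := h6 } }

theorem withFr_congr (L : Triple Γ X n) {F F' : L.P → Frame L.toMfd} (hF : F = F')
    (h1 : Continuous F) (h2 : IsOpenMap F)
    (h3 : ∀ e e', F e = F e' ↔ e = e' ∨ e = L.neg e')
    (h4 : ∀ (e : L.P) (u : (E n × ℂ) ≃ₗ[ℝ] (E n × ℂ)), (F e).comp u ∈ range F ↔ 0 < det u)
    (h5 : ∀ x : L.carrier, IsConnected {e | (F e).pt = x})
    (h6 : ∀ (g : Γ) (e : L.P) (a : E n × ℂ),
      (F (g • e)).val a = DC (fun x : L.toMfd => g • x) ((F e).val a))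
    (h1' : Continuous F') (h2' : IsOpenMap F')
    (h3' : ∀ e e', F' e = F' e' ↔ e = e' ∨ e = L.neg e')
    (h4' : ∀ (e : L.P) (u : (E n × ℂ) ≃ₗ[ℝ] (E n × ℂ)), (F' e).comp u ∈ range F' ↔ 0 < det u)
    (h5' : ∀ x : L.carrier, IsConnected {e | (F' e).pt = x})
    (h6' : ∀ (g : Γ) (e : L.P) (a : E n × ℂ),
      (F' (g • e)).val a = DC (fun x : L.toMfd => g • x) ((F' e).val a)) :
    withFr L F h1 h2 h3 h4 h5 h6 = withFr L F' h1' h2' h3' h4' h5' h6' := by
  subst hF
  rfl

/-- the reversal of the orientation over `U` -/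
def flipT (L : Triple Γ X n) (U : Set L.carrier) (hU : IsClopen {e : L.P | (L.fr e).pt ∈ U})
    (hinv : ∀ (g : Γ) (x : L.carrier), g • x ∈ U ↔ x ∈ U) : Triple Γ X n :=
  { L with toSpinMfd := flip L.toSpinMfd U hU hinv }

theorem newFr_newFr (M : SpinMfd Γ n) (U V : Set M.carrier)
    (hU : IsClopen {e : M.P | (M.fr e).pt ∈ U})
    (hinv : ∀ (g : Γ) (x : M.carrier), g • x ∈ U ↔ x ∈ U) (e : M.P) :
    newFr (flip M U hU hinv) V e = newFr M (symmDiff U V) e := by
  have hp : ((flip M U hU hinv).fr e).pt = (M.fr e).pt := newFr_pt M U e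
  by_cases h : (M.fr e).pt ∈ U
  · have hfr : (flip M U hU hinv).fr e = (M.fr e).comp cj := newFr_of_mem M h
    by_cases h' : (M.fr e).pt ∈ V
    · have h'' : ((flip M U hU hinv).fr e).pt ∈ V := by rw [hp]; exact h'
      rw [newFr_of_mem _ h'', newFr_of_notMem M (by
        rw [Set.mem_symmDiff]; tauto), hfr]
      exact comp_cj_cj _
    · have h'' : ((flip M U hU hinv).fr e).pt ∉ V := by rw [hp]; exact h'
      rw [newFr_of_notMem _ h'', newFr_of_mem M (by
        rw [Set.mem_symmDiff]; tauto), hfr]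
  · have hfr : (flip M U hU hinv).fr e = M.fr e := newFr_of_notMem M h
    by_cases h' : (M.fr e).pt ∈ V
    · have h'' : ((flip M U hU hinv).fr e).pt ∈ V := by rw [hp]; exact h'
      rw [newFr_of_mem _ h'', newFr_of_mem M (by
        rw [Set.mem_symmDiff]; tauto), hfr]
      rfl
    · have h'' : ((flip M U hU hinv).fr e).pt ∉ V := by rw [hp]; exact h'
      rw [newFr_of_notMem _ h'', newFr_of_notMem M (by
        rw [Set.mem_symmDiff]; tauto), hfr]

theorem revT_flipT (L : Triple Γ X n) (U : Set L.carrier)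
    (hU : IsClopen {e : L.P | (L.fr e).pt ∈ U})
    (hinv : ∀ (g : Γ) (x : L.carrier), g • x ∈ U ↔ x ∈ U) {Q : Set Γ → Prop} (hQ : ConjInv Q)
    (hU' : IsClopen {e : L.P | (L.fr e).pt ∈ symmDiff U (part L.toSpinMfd Q)})
    (hinv' : ∀ (g : Γ) (x : L.carrier), g • x ∈ symmDiff U (part L.toSpinMfd Q) ↔
      x ∈ symmDiff U (part L.toSpinMfd Q)) :
    revT (flipT L U hU hinv) hQ = flipT L (symmDiff U (part L.toSpinMfd Q)) hU' hinv' := by
  have hF : (fun e : L.P => newFr (flip L.toSpinMfd U hU hinv)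
      (part (flip L.toSpinMfd U hU hinv) Q) e) =
      fun e => newFr L.toSpinMfd (symmDiff U (part L.toSpinMfd Q)) e := by
    funext e
    exact newFr_newFr L.toSpinMfd U (part L.toSpinMfd Q) hU hinv e
  have h := withFr_congr L hF
    (rev (flip L.toSpinMfd U hU hinv) hQ).continuous_fr
    (rev (flip L.toSpinMfd U hU hinv) hQ).isOpenMap_fr
    (rev (flip L.toSpinMfd U hU hinv) hQ).fr_eq_iff
    (rev (flip L.toSpinMfd U hU hinv) hQ).orientation
    (rev (flip L.toSpinMfd U hU hinv) hQ).nontrivial_fibre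
    (rev (flip L.toSpinMfd U hU hinv) hQ).fr_smul
    (flip L.toSpinMfd (symmDiff U (part L.toSpinMfd Q)) hU' hinv').continuous_fr
    (flip L.toSpinMfd (symmDiff U (part L.toSpinMfd Q)) hU' hinv').isOpenMap_fr
    (flip L.toSpinMfd (symmDiff U (part L.toSpinMfd Q)) hU' hinv').fr_eq_iff
    (flip L.toSpinMfd (symmDiff U (part L.toSpinMfd Q)) hU' hinv').orientation
    (flip L.toSpinMfd (symmDiff U (part L.toSpinMfd Q)) hU' hinv').nontrivial_fibre
    (flip L.toSpinMfd (symmDiff U (part L.toSpinMfd Q)) hU' hinv').fr_smul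
  exact h

end Pool.Agent.H859.ST
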