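import Mathlib
import Pool.Agent.H859.ST.Spin

/-!
Signed sets induced from finite subgroups, and isomorphisms of the modules of functions.
-/

set_option autoImplicit false
set_option linter.style.haveILetI false

open Set

noncomputable section

namespace Pool.Agent.H859.ST

open Pool.Agent.N774.Stolz

variable {Γ : Type} [Group Γ]

/-! ### maps given by kernels -/

/-- an equivariant map between the modules of two signed sets -/
def kerMap (S S' : SSet Γ) (k : S.S → S'.S →₀ ℝ)
    (hk : ∀ g s, S'.rep g (k s) = sr (S.sgn g s) • k (g • s)) :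
    S.M →ₗ[MonoidAlgebra ℝ Γ] S'.M :=
  MonoidAlgebra.equivariantOfLinearOfComm
    (S'.rep.asModuleEquiv.symm.toLinearMap ∘ₗ Finsupp.linearCombination ℝ k ∘ₗ
      S.rep.asModuleEquiv.toLinearMap) (by
    intro g v
    have key : ∀ f : S.S →₀ ℝ, Finsupp.linearCombination ℝ k (S.rep g f) =
        S'.rep g (Finsupp.linearCombination ℝ k f) := by
      intro f
      induction f using Finsupp.induction_linear with
      | zero => simp
      | add f f' h h' => rw [map_add, map_add, h, h', map_add, map_add]
      | single s c =>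
        rw [S.rep_single, Finsupp.linearCombination_single, Finsupp.linearCombination_single,
          map_smul, hk, smul_smul]
    apply S'.rep.asModuleEquiv.injective
    rw [S'.single_smul, LinearEquiv.apply_symm_apply, one_smul]
    show Finsupp.linearCombination ℝ k (S.rep.asModuleEquiv (MonoidAlgebra.single g (1 : ℝ) • v)) =
      S'.rep g (Finsupp.linearCombination ℝ k (S.rep.asModuleEquiv v))
    rw [S.single_smul, LinearEquiv.apply_symm_apply, one_smul, key])

/-- an isomorphism of the modules of two signed sets -/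
def isoOfKernel (S S' : SSet Γ) (k : S.S → S'.S →₀ ℝ)
    (hk : ∀ g s, S'.rep g (k s) = sr (S.sgn g s) • k (g • s)) (k' : S'.S → S.S →₀ ℝ)
    (h1 : ∀ s, Finsupp.linearCombination ℝ k' (k s) = Finsupp.single s 1)
    (h2 : ∀ s, Finsupp.linearCombination ℝ k (k' s) = Finsupp.single s 1) :
    S.M ≃ₗ[MonoidAlgebra ℝ Γ] S'.M :=
  LinearEquiv.ofBijective (kerMap S S' k hk) (by
    have e1 : ∀ f, Finsupp.linearCombination ℝ k' (Finsupp.linearCombination ℝ k f) = f := by
      intro f
      induction f using Finsupp.induction_linear with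
      | zero => simp
      | add f f' h h' => rw [map_add, map_add, h, h']
      | single s c =>
        rw [Finsupp.linearCombination_single, map_smul, h1, Finsupp.smul_single, smul_eq_mul,
          mul_one]
    have e2 : ∀ f, Finsupp.linearCombination ℝ k (Finsupp.linearCombination ℝ k' f) = f := by
      intro f
      induction f using Finsupp.induction_linear with
      | zero => simp
      | add f f' h h' => rw [map_add, map_add, h, h']
      | single s c =>
        rw [Finsupp.linearCombination_single, map_smul, h2, Finsupp.smul_single, smul_eq_mul,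
          mul_one]
    constructor
    · intro v w h
      have h3 : Finsupp.linearCombination ℝ k (S.rep.asModuleEquiv v) =
          Finsupp.linearCombination ℝ k (S.rep.asModuleEquiv w) := h
      apply S.rep.asModuleEquiv.injective
      rw [← e1 (S.rep.asModuleEquiv v), h3, e1]
    · intro w
      refine ⟨S.rep.asModuleEquiv.symm
        (Finsupp.linearCombination ℝ k' (S'.rep.asModuleEquiv w)), ?_⟩
      show Finsupp.linearCombination ℝ k (Finsupp.linearCombination ℝ k' (S'.rep.asModuleEquiv w)) =
        _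
      rw [e2]
      rfl)

/-- isomorphic signed sets have isomorphic modules -/
def isoOfEquiv (S S' : SSet Γ) (e : S.S ≃ S'.S) (he : ∀ (g : Γ) s, e (g • s) = g • e s)
    (hs : ∀ g s, S'.sgn g (e s) = S.sgn g s) : S.M ≃ₗ[MonoidAlgebra ℝ Γ] S'.M :=
  isoOfKernel S S' (fun s => Finsupp.single (e s) 1)
    (fun g s => by rw [S'.rep_single, hs, he, Finsupp.smul_single, smul_eq_mul, mul_comm])
    (fun s => Finsupp.single (e.symm s) 1)
    (fun s => by rw [Finsupp.linearCombination_single, one_smul, e.symm_apply_apply])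
    (fun s => by rw [Finsupp.linearCombination_single, one_smul, e.apply_symm_apply])

/-! ### finite signed sets -/

/-- a finite set with an action of the finite group `G` and signs -/
structure TSet (G : Type) [Group G] where
  T : Type
  [fin : Fintype T]
  [act : MulAction G T]
  sgn : G → T → ℤˣ
  sgn_one : ∀ t, sgn 1 t = 1
  sgn_mul : ∀ g h t, sgn (g * h) t = sgn g (h • t) * sgn h t

attribute [instance] TSet.fin TSet.act

section
variable {G : Type} [Group G]

/-- the disjoint union -/
def TSet.sum (T T' : TSet G) : TSet G where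
  T := T.T ⊕ T'.T
  act :=
    { smul := fun g t => Sum.map (g • ·) (g • ·) t
      one_smul := fun t => by
        rcases t with t | t
        · exact congrArg Sum.inl (one_smul _ _)
        · exact congrArg Sum.inr (one_smul _ _)
      mul_smul := fun g h t => by
        rcases t with t | t
        · exact congrArg Sum.inl (mul_smul _ _ _)
        · exact congrArg Sum.inr (mul_smul _ _ _) }
  sgn g t := Sum.elim (T.sgn g) (T'.sgn g) t
  sgn_one t := by
    rcases t with t | t
    · exact T.sgn_one t
    · exact T'.sgn_one t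
  sgn_mul g h t := by
    rcases t with t | t
    · exact T.sgn_mul g h t
    · exact T'.sgn_mul g h t

/-- `a` copies -/
def TSet.times (a : ℕ) (T : TSet G) : TSet G where
  T := Fin a × T.T
  act :=
    { smul := fun g t => (t.1, g • t.2)
      one_smul := fun t => Prod.ext rfl (one_smul _ _)
      mul_smul := fun g h t => Prod.ext rfl (mul_smul _ _ _) }
  sgn g t := T.sgn g t.2
  sgn_one t := T.sgn_one t.2
  sgn_mul g h t := T.sgn_mul g h t.2

/-- the fixed points -/
def TSet.Fix (T : TSet G) (t : T.T) : Prop := ∀ h : G, h • t = t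

/-- the number of fixed points -/
def TSet.nfix (T : TSet G) : ℕ := Nat.card {t : T.T // T.Fix t}

theorem TSet.fix_inl (T T' : TSet G) (t : T.T) :
    (T.sum T').Fix (show (T.sum T').T from Sum.inl t) ↔ T.Fix t :=
  ⟨fun h g => Sum.inl_injective (h g), fun h g => congrArg Sum.inl (h g)⟩

theorem TSet.fix_inr (T T' : TSet G) (t : T'.T) :
    (T.sum T').Fix (show (T.sum T').T from Sum.inr t) ↔ T'.Fix t :=
  ⟨fun h g => Sum.inr_injective (h g), fun h g => congrArg Sum.inr (h g)⟩

theorem TSet.nfix_times (a : ℕ) (T : TSet G) : (T.times a).nfix = a * T.nfix := by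
  have e : {t : (T.times a).T // (T.times a).Fix t} ≃ Fin a × {t : T.T // T.Fix t} :=
    { toFun := fun t => (t.1.1, ⟨t.1.2, fun h => congrArg Prod.snd (t.2 h)⟩)
      invFun := fun t => ⟨(t.1, t.2.1), fun h => Prod.ext rfl (t.2.2 h)⟩
      left_inv := fun t => rfl
      right_inv := fun t => rfl }
  rw [TSet.nfix, Nat.card_congr e, Nat.card_prod, TSet.nfix]
  simp

open Classical in
/-- an isomorphism of the modules of functions on two finite signed sets -/
structure RIso (T T' : TSet G) where
  m : T.T → T'.T → ℝ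
  m' : T'.T → T.T → ℝ
  equi : ∀ (g : G) t t', m t t' * sr (T'.sgn g t') = sr (T.sgn g t) * m (g • t) (g • t')
  left : ∀ t s, ∑ t', m t t' * m' t' s = if t = s then 1 else 0
  right : ∀ t' s', ∑ t, m' t' t * m t s' = if t' = s' then 1 else 0

theorem RIso.card_eq {T T' : TSet G} (r : RIso T T') : Fintype.card T.T = Fintype.card T'.T := by
  classical
  have h1 : (Fintype.card T.T : ℝ) = ∑ t, ∑ t', r.m t t' * r.m' t' t := by
    rw [Finset.sum_congr rfl fun t _ => r.left t t]
    simp
  have h2 : (Fintype.card T'.T : ℝ) = ∑ t', ∑ t, r.m' t' t * r.m t t' := by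
    rw [Finset.sum_congr rfl fun t _ => r.right t t]
    simp
  rw [Finset.sum_comm] at h2
  have h3 : (Fintype.card T.T : ℝ) = Fintype.card T'.T := by
    rw [h1, h2]
    exact Finset.sum_congr rfl fun t _ => Finset.sum_congr rfl fun t' _ => mul_comm _ _
  exact_mod_cast h3

open Classical in
/-- `a` copies of an isomorphism -/
def RIso.times (a : ℕ) {T T' : TSet G} (r : RIso T T') : RIso (T.times a) (T'.times a) where
  m t t' := if t.1 = t'.1 then r.m t.2 t'.2 else 0
  m' t' t := if t'.1 = t.1 then r.m' t'.2 t.2 else 0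
  equi g t t' := by
    show (if t.1 = t'.1 then r.m t.2 t'.2 else 0) * sr (T'.sgn g t'.2) =
      sr (T.sgn g t.2) * (if t.1 = t'.1 then r.m (g • t.2) (g • t'.2) else 0)
    split_ifs
    · exact r.equi g _ _
    · simp
  left t s := by
    have h1 : (∑ t' : Fin a × T'.T, (if t.1 = t'.1 then r.m t.2 t'.2 else 0) *
        (if t'.1 = s.1 then r.m' t'.2 s.2 else 0)) =
        if t.1 = s.1 then ∑ t', r.m t.2 t' * r.m' t' s.2 else 0 := by
      rw [Fintype.sum_prod_type]
      simp only [ite_mul, zero_mul, mul_ite, mul_zero]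
      rw [Finset.sum_eq_single t.1]
      · by_cases h : t.1 = s.1
        · simp [h]
        · simp [h]
      · intro b _ hb
        simp [Ne.symm hb]
      · simp
    refine h1.trans ?_
    rw [r.left]
    by_cases h : t.1 = s.1
    · rw [if_pos h]
      by_cases h' : t.2 = s.2
      · rw [if_pos h']
        exact (if_pos (Prod.ext h h')).symm
      · rw [if_neg h']
        exact (if_neg (fun h2 => h' (congrArg Prod.snd h2))).symm
    · rw [if_neg h]
      exact (if_neg (fun h2 => h (congrArg Prod.fst h2))).symm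
  right t s := by
    have h1 : (∑ t' : Fin a × T.T, (if t.1 = t'.1 then r.m' t.2 t'.2 else 0) *
        (if t'.1 = s.1 then r.m t'.2 s.2 else 0)) =
        if t.1 = s.1 then ∑ t', r.m' t.2 t' * r.m t' s.2 else 0 := by
      rw [Fintype.sum_prod_type]
      simp only [ite_mul, zero_mul, mul_ite, mul_zero]
      rw [Finset.sum_eq_single t.1]
      · by_cases h : t.1 = s.1
        · simp [h]
        · simp [h]
      · intro b _ hb
        simp [Ne.symm hb]
      · simp
    refine h1.trans ?_
    rw [r.right]
    by_cases h : t.1 = s.1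
    · rw [if_pos h]
      by_cases h' : t.2 = s.2
      · rw [if_pos h']
        exact (if_pos (Prod.ext h h')).symm
      · rw [if_neg h']
        exact (if_neg (fun h2 => h' (congrArg Prod.snd h2))).symm
    · rw [if_neg h]
      exact (if_neg (fun h2 => h (congrArg Prod.fst h2))).symm

end

/-! ### induction -/

section
variable (G : Subgroup Γ)

/-- the cocycle -/
def coc (g : Γ) (x : Γ ⧸ G) : G :=
  ⟨(g • x).out⁻¹ * (g * x.out), by
    rw [← QuotientGroup.eq, QuotientGroup.out_eq', ← smul_eq_mul, ← MulAction.Quotient.smul_mk,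
      QuotientGroup.out_eq']⟩

theorem coc_mul (g h : Γ) (x : Γ ⧸ G) : coc G (g * h) x = coc G g (h • x) * coc G h x := by
  apply Subtype.ext
  simp only [coc, Subgroup.coe_mul, mul_smul]
  group

theorem coc_one (x : Γ ⧸ G) : coc G 1 x = 1 := by
  apply Subtype.ext
  simp only [coc, one_smul, Subgroup.coe_one]
  group

/-- the action on `Γ ×_G T` -/
@[reducible] def indAct (T : TSet G) : MulAction Γ ((Γ ⧸ G) × T.T) where
  smul g s := (g • s.1, coc G g s.1 • s.2)
  one_smul s := by
    refine Prod.ext (one_smul _ _) ?_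
    show coc G 1 s.1 • s.2 = s.2
    rw [coc_one, one_smul]
  mul_smul g h s := by
    refine Prod.ext (mul_smul _ _ _) ?_
    show coc G (g * h) s.1 • s.2 = coc G g (h • s.1) • coc G h s.1 • s.2
    rw [coc_mul, mul_smul]

/-- the points of `Γ ×_G T` in the same orbit -/
def pairsEquiv (T : TSet G) (s : (Γ ⧸ G) × T.T) :
    {q : T.T × Γ // (indAct G T).smul q.2 (((1 : Γ) : Γ ⧸ G), q.1) = s} ≃ G where
  toFun q := ⟨s.1.out⁻¹ * q.1.2, by
    have h := congrArg Prod.fst q.2
    have h1 : ((q.1.2 : Γ) : Γ ⧸ G) = s.1 := by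
      rw [← h]
      show ((q.1.2 : Γ) : Γ ⧸ G) = q.1.2 • ((1 : Γ) : Γ ⧸ G)
      rw [MulAction.Quotient.smul_mk, smul_eq_mul, mul_one]
    rw [← QuotientGroup.eq, QuotientGroup.out_eq', h1]⟩
  invFun h := ⟨((coc G (s.1.out * h.1) ((1 : Γ) : Γ ⧸ G))⁻¹ • s.2, s.1.out * h.1), by
    refine Prod.ext ?_ ?_
    · show (s.1.out * h.1) • ((1 : Γ) : Γ ⧸ G) = s.1
      rw [MulAction.Quotient.smul_mk, smul_eq_mul, mul_one]
      rw [QuotientGroup.mk_mul_of_mem _ h.2, QuotientGroup.out_eq']
    · show coc G (s.1.out * h.1) ((1 : Γ) : Γ ⧸ G) •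
        (coc G (s.1.out * h.1) ((1 : Γ) : Γ ⧸ G))⁻¹ • s.2 = s.2
      rw [smul_inv_smul]⟩
  left_inv q := by
    apply Subtype.ext
    have h2 : s.1.out * (s.1.out⁻¹ * q.1.2) = q.1.2 := by group
    refine Prod.ext ?_ h2
    show (coc G (s.1.out * (s.1.out⁻¹ * q.1.2)) ((1 : Γ) : Γ ⧸ G))⁻¹ • s.2 = q.1.1
    rw [h2, inv_smul_eq_iff]
    exact (congrArg Prod.snd q.2).symm
  right_inv h := by
    apply Subtype.ext
    show s.1.out⁻¹ * (s.1.out * h.1) = h.1
    group

/-- the signed set `Γ ×_G T` -/
def ind [Countable Γ] [Finite G] (T : TSet G) : SSet Γ where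
  S := (Γ ⧸ G) × T.T
  countable := by
    haveI : Countable (Γ ⧸ G) := (QuotientGroup.mk_surjective (s := G)).countable
    haveI : Countable T.T := Finite.to_countable
    infer_instance
  act := indAct G T
  sgn g s := T.sgn (coc G g s.1) s.2
  sgn_one s := by
    rw [coc_one]
    exact T.sgn_one _
  sgn_mul g h s := by
    rw [coc_mul]
    exact T.sgn_mul _ _ _
  J := T.T
  pt t := (((1 : Γ) : Γ ⧸ G), t)
  N := Nat.card G
  N_pos := Nat.card_pos
  count s := Nat.card_congr (pairsEquiv G T s)

variable [Countable Γ] [Finite G]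

variable {G}

/-- a point of `Γ ×_G T` -/
def pI {T : TSet G} (x : Γ ⧸ G) (t : T.T) : (ind G T).S := (x, t)

theorem smul_pI {T : TSet G} (g : Γ) (x : Γ ⧸ G) (t : T.T) :
    g • (pI x t : (ind G T).S) = pI (g • x) (coc G g x • t) := rfl

theorem sgn_pI {T : TSet G} (g : Γ) (x : Γ ⧸ G) (t : T.T) :
    (ind G T).sgn g (pI x t) = T.sgn (coc G g x) t := rfl

/-- the kernel -/
def ker1 {T T' : TSet G} (m : T.T → T'.T → ℝ) (x : Γ ⧸ G) (t : T.T) : (ind G T').S →₀ ℝ :=
  ∑ t' : T'.T, Finsupp.single (pI x t') (m t t')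

/-- the kernel -/
def kerS {T T' : TSet G} (m : T.T → T'.T → ℝ) (s : (ind G T).S) : (ind G T').S →₀ ℝ :=
  ker1 m (Prod.fst (show (Γ ⧸ G) × T.T from s)) (Prod.snd (show (Γ ⧸ G) × T.T from s))

theorem kerS_pI {T T' : TSet G} (m : T.T → T'.T → ℝ) (x : Γ ⧸ G) (t : T.T) :
    kerS m (pI x t) = ker1 m x t := rfl

theorem rep_ker1 {T T' : TSet G} (r : RIso T T') (g : Γ) (x : Γ ⧸ G) (t : T.T) :
    (ind G T').rep g (ker1 r.m x t) = sr (T.sgn (coc G g x) t) • ker1 r.m (g • x) (coc G g x • t) := by
  unfold ker1
  rw [map_sum, Finset.smul_sum]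
  rw [← Equiv.sum_comp (MulAction.toPerm (coc G g x) : Equiv.Perm T'.T)
    (fun t' => sr (T.sgn (coc G g x) t) • Finsupp.single (pI (g • x) t') (r.m (coc G g x • t) t'))]
  refine Finset.sum_congr rfl fun t' _ => ?_
  rw [(ind G T').rep_single, smul_pI, sgn_pI, r.equi (coc G g x) t t', Finsupp.smul_single,
    smul_eq_mul]
  rfl

theorem comp_ker1 {T T' : TSet G} (m : T.T → T'.T → ℝ) (m' : T'.T → T.T → ℝ) (x : Γ ⧸ G) (t : T.T) :
    Finsupp.linearCombination ℝ (kerS m') (ker1 m x t) =
      ∑ s : T.T, Finsupp.single (pI x s) (∑ t' : T'.T, m t t' * m' t' s) := by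
  unfold ker1
  rw [map_sum]
  simp only [Finsupp.linearCombination_single, kerS_pI]
  unfold ker1
  simp only [Finset.smul_sum, Finsupp.smul_single, smul_eq_mul]
  rw [Finset.sum_comm]
  refine Finset.sum_congr rfl fun s _ => ?_
  exact (map_sum (Finsupp.singleAddHom (pI x s : (ind G T).S)) (fun t' => m t t' * m' t' s)
    Finset.univ).symm

theorem sum_single {T : TSet G} (x : Γ ⧸ G) (t : T.T) (c : T.T → ℝ) (h1 : c t = 1)
    (h2 : ∀ s, s ≠ t → c s = 0) :
    (∑ s : T.T, Finsupp.single (pI x s : (ind G T).S) (c s)) = Finsupp.single (pI x t) 1 := by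
  rw [Finset.sum_eq_single t]
  · rw [h1]
  · intro s _ hs
    rw [h2 s hs, Finsupp.single_zero]
  · intro h
    exact absurd (Finset.mem_univ _) h

/-- isomorphic modules induce isomorphic modules -/
def indIso {T T' : TSet G} (r : RIso T T') : (ind G T).M ≃ₗ[MonoidAlgebra ℝ Γ] (ind G T').M :=
  isoOfKernel (ind G T) (ind G T') (kerS r.m)
    (by
      rintro g ⟨x, t⟩
      exact rep_ker1 r g x t)
    (kerS r.m')
    (by
      rintro ⟨x, t⟩
      refine (comp_ker1 r.m r.m' x t).trans ?_
      refine sum_single x t _ ?_ ?_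
      · rw [r.left, if_pos rfl]
      · intro s hs
        rw [r.left, if_neg (Ne.symm hs)])
    (by
      rintro ⟨x, t⟩
      refine (comp_ker1 r.m' r.m x t).trans ?_
      refine sum_single x t _ ?_ ?_
      · rw [r.right, if_pos rfl]
      · intro s hs
        rw [r.right, if_neg (Ne.symm hs)])

/-- the stabilisers of the points of `Γ ×_G T` -/
theorem card_stab (T : TSet G) (s : (ind G T).S) :
    Nat.card {g : Γ // g • s = s} = Nat.card G ↔ T.Fix s.2 := by
  obtain ⟨x, t⟩ := s
  have e : {g : Γ // g • (pI x t : (ind G T).S) = pI x t} ≃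
      {h : G // h • t = t} :=
    { toFun := fun g => ⟨coc G g.1 x, congrArg Prod.snd g.2⟩
      invFun := fun h => ⟨x.out * h.1 * x.out⁻¹, by
        have h1 : (x.out * h.1 * x.out⁻¹) • x = x := by
          conv_lhs => rw [← QuotientGroup.out_eq' x]
          rw [MulAction.Quotient.smul_mk, smul_eq_mul, QuotientGroup.out_eq',
            inv_mul_cancel_right, QuotientGroup.mk_mul_of_mem _ h.1.2, QuotientGroup.out_eq']
        have h2 : coc G (x.out * h.1 * x.out⁻¹) x = h.1 := by
          apply Subtype.ext
          simp only [coc, h1]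
          group
        rw [smul_pI, h1, h2, h.2]⟩
      left_inv := fun g => by
        apply Subtype.ext
        have h1 : g.1 • x = x := congrArg Prod.fst g.2
        show x.out * ((g.1 • x).out⁻¹ * (g.1 * x.out)) * x.out⁻¹ = g.1
        rw [h1]
        group
      right_inv := fun h => by
        apply Subtype.ext
        have h1 : (x.out * h.1 * x.out⁻¹) • x = x := by
          conv_lhs => rw [← QuotientGroup.out_eq' x]
          rw [MulAction.Quotient.smul_mk, smul_eq_mul, QuotientGroup.out_eq',
            inv_mul_cancel_right, QuotientGroup.mk_mul_of_mem _ h.1.2, QuotientGroup.out_eq']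
        show coc G (x.out * h.1 * x.out⁻¹) x = h.1
        apply Subtype.ext
        simp only [coc, h1]
        group }
  have e' : Nat.card {g : Γ // g • (pI x t : (ind G T).S) = pI x t} =
    Nat.card {h : G // h • t = t} := Nat.card_congr e
  show Nat.card {g : Γ // g • (pI x t : (ind G T).S) = pI x t} = Nat.card G ↔ T.Fix t
  rw [e']
  constructor
  · intro h g
    have h1 : Nat.card (MulAction.stabilizer G t) = Nat.card G := h
    have h2 : MulAction.stabilizer G t = ⊤ := Subgroup.eq_top_of_card_eq _ h1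
    have h3 : g ∈ MulAction.stabilizer G t := by rw [h2]; trivial
    exact h3
  · intro h
    exact Nat.card_congr (Equiv.subtypeUnivEquiv h)

end

end Pool.Agent.H859.ST
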