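import Mathlib
import Pool.Agent.H859.ST.Ind
import Pool.Agent.H859.ST.Char

/-!
Artin's relation between permutation modules, for a finite group which is not cyclic, and the relation for
the group of order two.
-/

set_option autoImplicit false
set_option linter.style.haveILetI false

noncomputable section

namespace Pool.Agent.H859.ST

open Module

/-! ### permutation representations -/

section
variable {G : Type} [Group G]

/-- the number of points fixed by `g` -/
def fx (X : Type) [MulAction G X] (g : G) : ℕ := Nat.card {x : X // g • x = x}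

/-- a finite set with an action, with all signs equal to one -/
@[reducible] def perm (X : Type) [Fintype X] [MulAction G X] : TSet G where
  T := X
  sgn _ _ := 1
  sgn_one _ := rfl
  sgn_mul _ _ _ := rfl

/-- the permutation representation -/
def permRep (X : Type) [MulAction G X] : Representation ℝ G (X → ℝ) where
  toFun g :=
    { toFun := fun f x => f (g⁻¹ • x)
      map_add' := fun _ _ => rfl
      map_smul' := fun _ _ => rfl }
  map_one' := by
    ext f x
    simp
  map_mul' g h := by
    refine LinearMap.ext fun f => funext fun x => ?_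
    show f ((g * h)⁻¹ • x) = f (h⁻¹ • g⁻¹ • x)
    rw [mul_inv_rev, mul_smul]

theorem permRep_apply (X : Type) [MulAction G X] (g : G) (f : X → ℝ) (x : X) :
    permRep X g f x = f (g⁻¹ • x) := rfl

theorem permRep_char (X : Type) [Fintype X] [MulAction G X] (g : G) :
    (permRep X).character g = fx X g := by
  classical
  show LinearMap.trace ℝ (X → ℝ) (permRep X g) = _
  rw [LinearMap.trace_eq_matrix_trace ℝ (Pi.basisFun ℝ X)]
  simp only [Matrix.trace, Matrix.diag, LinearMap.toMatrix_apply, Pi.basisFun_repr,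
    Pi.basisFun_apply, permRep_apply]
  have h1 : ∀ x : X, (Pi.single x (1 : ℝ) : X → ℝ) (g⁻¹ • x) = if g • x = x then 1 else 0 := by
    intro x
    by_cases h : g • x = x
    · have h' : g⁻¹ • x = x := by rw [inv_smul_eq_iff, h]
      rw [if_pos h, h', Pi.single_eq_same]
    · have h' : g⁻¹ • x ≠ x := fun H => h (by rw [inv_smul_eq_iff] at H; exact H.symm)
      rw [if_neg h, Pi.single_eq_of_ne h']
  rw [Finset.sum_congr rfl fun x _ => h1 x, Finset.sum_boole, fx, Nat.card_eq_fintype_card,
    Fintype.card_subtype]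

theorem permRep_single (X : Type) [DecidableEq X] [MulAction G X] (g : G) (x : X) :
    permRep X g (Pi.single x (1 : ℝ)) = Pi.single (g • x) 1 := by
  funext y
  rw [permRep_apply]
  by_cases h : y = g • x
  · rw [h, inv_smul_smul, Pi.single_eq_same, Pi.single_eq_same]
  · rw [Pi.single_eq_of_ne h, Pi.single_eq_of_ne (fun h2 => h (by rw [← h2, smul_inv_smul]))]

/-- isomorphic permutation representations -/
theorem riso_of_fx [Finite G] (X Y : Type) [Fintype X] [MulAction G X] [Fintype Y] [MulAction G Y]
    (h : ∀ g : G, fx X g = fx Y g) : Nonempty (RIso (perm X : TSet G) (perm Y)) := by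
  classical
  obtain ⟨e, he⟩ := iso_of_char (G := G) _ (X → ℝ) (Y → ℝ) (permRep X) (permRep Y) rfl (fun g => by
    rw [permRep_char, permRep_char, h])
  refine ⟨⟨fun x y => e (Pi.single x 1) y, fun y x => e.symm (Pi.single y 1) x, ?_, ?_, ?_⟩⟩
  · intro g x y
    show e (Pi.single x 1) y * sr 1 = sr 1 * e (Pi.single (g • x) 1) (g • y)
    rw [← permRep_single, he, permRep_apply, inv_smul_smul, sr_one, one_mul, mul_one]
  · intro x z
    have h1 : (∑ y : Y, e (Pi.single x 1) y • (Pi.single y (1 : ℝ) : Y → ℝ)) =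
        e (Pi.single x 1) := by
      funext z
      simp [Finset.sum_apply, Pi.single_apply]
    have h2 := congrFun (congrArg e.symm h1) z
    rw [map_sum, Finset.sum_apply, e.symm_apply_apply] at h2
    simp only [map_smul, Pi.smul_apply, smul_eq_mul] at h2
    show (∑ y : Y, e (Pi.single x 1) y * e.symm (Pi.single y 1) z) = _
    rw [h2, Pi.single_apply]
    by_cases hxz : x = z
    · rw [if_pos hxz, if_pos hxz.symm]
    · rw [if_neg hxz, if_neg (Ne.symm hxz)]
  · intro y z
    have h1 : (∑ x : X, e.symm (Pi.single y 1) x • (Pi.single x (1 : ℝ) : X → ℝ)) =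
        e.symm (Pi.single y 1) := by
      funext z
      simp [Finset.sum_apply, Pi.single_apply]
    have h2 := congrFun (congrArg e h1) z
    rw [map_sum, Finset.sum_apply, e.apply_symm_apply] at h2
    simp only [map_smul, Pi.smul_apply, smul_eq_mul] at h2
    show (∑ x : X, e.symm (Pi.single y 1) x * e (Pi.single x 1) z) = _
    rw [h2, Pi.single_apply]
    by_cases hxz : y = z
    · rw [if_pos hxz, if_pos hxz.symm]
    · rw [if_neg hxz, if_neg (Ne.symm hxz)]

end

/-! ### Artin's relation -/

section
variable (G : Type) [Group G] [Finite G]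

instance : Finite (Subgroup G) := inferInstance

/-- the subgroups of `G`, as a finite type -/
instance instFintypeSubgroup : Fintype (Subgroup G) := Fintype.ofFinite _

variable {G}

/-- `|D|` times the permutation character of `G / D` -/
def piF (D : Subgroup G) (g : G) : ℤ := Nat.card {x : G // x⁻¹ * g * x ∈ D}

/-- the number of `x` such that `x⁻¹ g x` generates `C` -/
def gamF (C : Subgroup G) (g : G) : ℤ := Nat.card {x : G // Subgroup.zpowers (x⁻¹ * g * x) = C}

open Classical in
theorem piF_eq (D : Subgroup G) :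
    piF D = ∑ C ∈ Finset.univ.filter (fun C : Subgroup G => C ≤ D), gamF C := by
  funext g
  rw [Finset.sum_apply, Finset.sum_subtype (p := fun C : Subgroup G => C ≤ D)
    (Finset.univ.filter (fun C : Subgroup G => C ≤ D)) (by simp) (fun C => gamF C g)]
  unfold piF gamF
  rw [← Nat.cast_sum, ← Nat.card_sigma]
  congr 1
  refine Nat.card_congr
    { toFun := fun x => ⟨⟨Subgroup.zpowers (x.1⁻¹ * g * x.1), by
        rw [Subgroup.zpowers_le]; exact x.2⟩, ⟨x.1, rfl⟩⟩
      invFun := fun x => ⟨x.2.1, by
        have h := x.1.2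
        have h2 := x.2.2
        rw [← Subgroup.zpowers_le, h2]
        exact h⟩
      left_inv := fun x => rfl
      right_inv := fun x => by
        obtain ⟨⟨C, hC⟩, ⟨x, hx⟩⟩ := x
        have hx' : Subgroup.zpowers (x⁻¹ * g * x) = C := hx
        subst hx'
        rfl }

theorem piF_top (g : G) : piF (⊤ : Subgroup G) g = Nat.card G := by
  unfold piF
  congr 1
  exact Nat.card_congr (Equiv.subtypeUnivEquiv fun x => Subgroup.mem_top _)

theorem gamF_of_not_cyclic {C : Subgroup G} (hC : ¬ IsCyclic C) : gamF C = 0 := by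
  funext g
  unfold gamF
  have : IsEmpty {x : G // Subgroup.zpowers (x⁻¹ * g * x) = C} := by
    refine ⟨fun x => hC ?_⟩
    rw [← x.2]
    infer_instance
  simp

/-- the cyclic subgroups -/
abbrev Cyc (G : Type) [Group G] : Type := {D : Subgroup G // IsCyclic D}

instance instFintypeCyc : Fintype (Cyc G) := Fintype.ofFinite _

theorem gamF_mem (C : Subgroup G) (hC : IsCyclic C) :
    gamF C ∈ Submodule.span ℤ (Set.range fun D : Cyc G => piF D.1) := by
  classical
  induction C using WellFoundedLT.induction with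
  | _ C ih =>
  have h1 := piF_eq C
  rw [← Finset.add_sum_erase (Finset.univ.filter (fun C' : Subgroup G => C' ≤ C)) gamF
    (a := C) (by simp)] at h1
  have h2 : gamF C = piF C -
      ∑ C' ∈ (Finset.univ.filter (fun C' : Subgroup G => C' ≤ C)).erase C, gamF C' := by
    rw [h1]
    abel
  rw [h2]
  refine Submodule.sub_mem _ (Submodule.subset_span ⟨⟨C, hC⟩, rfl⟩) (Submodule.sum_mem _ ?_)
  intro C' hC'
  rw [Finset.mem_erase, Finset.mem_filter] at hC'
  refine ih C' (lt_of_le_of_ne hC'.2.2 hC'.1) ?_
  exact isCyclic_of_injective (Subgroup.inclusion hC'.2.2) (Subgroup.inclusion_injective _)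

theorem artin : ∃ b : Cyc G → ℤ, ∀ g : G, ∑ D, b D * piF D.1 g = Nat.card G := by
  classical
  have h : piF (⊤ : Subgroup G) ∈ Submodule.span ℤ (Set.range fun D : Cyc G => piF D.1) := by
    rw [piF_eq]
    refine Submodule.sum_mem _ fun C _ => ?_
    by_cases hC : IsCyclic C
    · exact gamF_mem C hC
    · rw [gamF_of_not_cyclic hC]
      exact Submodule.zero_mem _
  rw [Submodule.mem_span_range_iff_exists_fun] at h
  obtain ⟨b, hb⟩ := h
  refine ⟨b, fun g => ?_⟩
  have h1 := congrFun hb g
  rw [Finset.sum_apply, piF_top] at h1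
  simpa only [Pi.smul_apply, smul_eq_mul] using h1

/-- `|D|` times the number of fixed points of `G / D` -/
theorem card_mul_fx (D : Subgroup G) (g : G) :
    ((Nat.card D * fx (G ⧸ D) g : ℕ) : ℤ) = piF D g := by
  unfold piF fx
  rw [mul_comm, ← Nat.card_prod]
  congr 1
  symm
  have key : ∀ y : G ⧸ D, g • y = y ↔ y.out⁻¹ * g * y.out ∈ D := by
    intro y
    conv_lhs => rw [← QuotientGroup.out_eq' y]
    rw [MulAction.Quotient.smul_mk, smul_eq_mul, eq_comm, QuotientGroup.eq, mul_assoc]
  refine Nat.card_congr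
    { toFun := fun x => (⟨(x.1 : G ⧸ D), by
        rw [MulAction.Quotient.smul_mk, smul_eq_mul, eq_comm, QuotientGroup.eq, ← mul_assoc]
        exact x.2⟩, ⟨(x.1 : G ⧸ D).out⁻¹ * x.1, by
        rw [← QuotientGroup.eq, QuotientGroup.out_eq']⟩)
      invFun := fun q => ⟨q.1.1.out * q.2.1, by
        have h1 := (key q.1.1).mp q.1.2
        have h2 : (q.1.1.out * q.2.1)⁻¹ * g * (q.1.1.out * q.2.1) =
            q.2.1⁻¹ * (q.1.1.out⁻¹ * g * q.1.1.out) * q.2.1 := by group
        rw [h2]
        exact D.mul_mem (D.mul_mem (D.inv_mem q.2.2) h1) q.2.2⟩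
      left_inv := fun x => by
        apply Subtype.ext
        show (x.1 : G ⧸ D).out * ((x.1 : G ⧸ D).out⁻¹ * x.1) = x.1
        group
      right_inv := fun q => by
        obtain ⟨⟨y, hy⟩, ⟨d, hd⟩⟩ := q
        have h1 : ((y.out * d : G) : G ⧸ D) = y := by
          rw [QuotientGroup.mk_mul_of_mem _ hd, QuotientGroup.out_eq']
        refine Prod.ext (Subtype.ext h1) (Subtype.ext ?_)
        show ((y.out * d : G) : G ⧸ D).out⁻¹ * (y.out * d) = d
        rw [h1]
        group }

/-- copies of `G / D` -/
abbrev Cop (m : Cyc G → ℕ) : Type := Σ D : Cyc G, Fin (m D) × (G ⧸ D.1)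

instance instCop (m : Cyc G → ℕ) : MulAction G (Cop m) where
  smul g x := ⟨x.1, (x.2.1, g • x.2.2)⟩
  one_smul x := by
    obtain ⟨D, i, y⟩ := x
    show (⟨D, (i, (1 : G) • y)⟩ : Cop m) = _
    rw [one_smul]
  mul_smul g h x := by
    obtain ⟨D, i, y⟩ := x
    show (⟨D, (i, (g * h) • y)⟩ : Cop m) = ⟨D, (i, g • h • y)⟩
    rw [mul_smul]

instance (m : Cyc G → ℕ) : Fintype (Cop m) := Fintype.ofFinite _

theorem fx_Cop (m : Cyc G → ℕ) (g : G) : fx (Cop m) g = ∑ D, m D * fx (G ⧸ D.1) g := by
  classical
  have h : ∀ D : Cyc G, m D * fx (G ⧸ D.1) g = Nat.card (Fin (m D) × {y : G ⧸ D.1 // g • y = y}) := by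
    intro D
    rw [Nat.card_prod, Nat.card_eq_fintype_card, Fintype.card_fin]
    rfl
  rw [Finset.sum_congr rfl fun D _ => h D, ← Nat.card_sigma]
  have key : ∀ (D : Cyc G) (i : Fin (m D)) (y : G ⧸ D.1),
      g • (⟨D, (i, y)⟩ : Cop m) = ⟨D, (i, y)⟩ ↔ g • y = y := by
    intro D i y
    show (⟨D, (i, g • y)⟩ : Cop m) = ⟨D, (i, y)⟩ ↔ _
    simp
  refine Nat.card_congr
    { toFun := fun x => ⟨x.1.1, (x.1.2.1, ⟨x.1.2.2, (key _ _ _).mp x.2⟩)⟩
      invFun := fun x => ⟨⟨x.1, (x.2.1, x.2.2.1)⟩, (key _ _ _).mpr x.2.2.2⟩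
      left_inv := fun x => rfl
      right_inv := fun x => rfl }

/-- `|G|` fixed points and copies of `G / D` -/
abbrev Cop1 (m : Cyc G → ℕ) : Type := Fin (Nat.card G) ⊕ Cop m

instance instCop1 (m : Cyc G → ℕ) : MulAction G (Cop1 m) where
  smul g x := Sum.map id (g • ·) x
  one_smul x := by
    rcases x with x | x
    · rfl
    · exact congrArg Sum.inr (one_smul _ _)
  mul_smul g h x := by
    rcases x with x | x
    · rfl
    · exact congrArg Sum.inr (mul_smul _ _ _)

theorem fx_Cop1 (m : Cyc G → ℕ) (g : G) : fx (Cop1 m) g = Nat.card G + fx (Cop m) g := by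
  unfold fx
  have h : Nat.card G = Nat.card (Fin (Nat.card G)) := by simp
  conv_rhs => rw [h]
  rw [← Nat.card_sum]
  have key1 : ∀ i : Fin (Nat.card G), g • (Sum.inl i : Cop1 m) = Sum.inl i := fun _ => rfl
  have key2 : ∀ x : Cop m, g • (Sum.inr x : Cop1 m) = Sum.inr x ↔ g • x = x := fun x =>
    ⟨fun h => Sum.inr_injective h, fun h => congrArg Sum.inr h⟩
  refine Nat.card_congr
    { toFun := fun x => match x with
        | ⟨Sum.inl i, _⟩ => Sum.inl i
        | ⟨Sum.inr y, hy⟩ => Sum.inr ⟨y, (key2 y).mp hy⟩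
      invFun := fun x => match x with
        | Sum.inl i => ⟨Sum.inl i, key1 i⟩
        | Sum.inr y => ⟨Sum.inr y.1, (key2 y.1).mpr y.2⟩
      left_inv := fun x => by
        obtain ⟨x | x, hx⟩ := x
        · rfl
        · rfl
      right_inv := fun x => by
        rcases x with x | x
        · rfl
        · rfl }

/-- Artin's relation: for a finite group which is not cyclic, there are isomorphic permutation modules
with different numbers of fixed points -/
theorem exists_noncyclic (hG : ¬ IsCyclic G) :
    ∃ (T T' : TSet G), Nonempty (RIso T T') ∧ T.nfix ≠ T'.nfix := by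
  classical
  obtain ⟨b, hb⟩ := artin (G := G)
  let m1 : Cyc G → ℕ := fun D => Nat.card D.1 * (-b D).toNat
  let m2 : Cyc G → ℕ := fun D => Nat.card D.1 * (b D).toNat
  have h : ∀ g : G, fx (Cop1 m1) g = fx (Cop m2) g := by
    intro g
    rw [fx_Cop1, fx_Cop, fx_Cop]
    have h1 := hb g
    have h2 : ∀ D : Cyc G, b D * piF D.1 g = ((m2 D * fx (G ⧸ D.1) g : ℕ) : ℤ) -
        ((m1 D * fx (G ⧸ D.1) g : ℕ) : ℤ) := by
      intro D
      rw [← card_mul_fx]
      have h3 : b D = ((b D).toNat : ℤ) - ((-b D).toNat : ℤ) := by omega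
      conv_lhs => rw [h3]
      simp only [m1, m2]
      push_cast
      ring
    rw [Finset.sum_congr rfl fun D _ => h2 D, Finset.sum_sub_distrib, ← Nat.cast_sum,
      ← Nat.cast_sum] at h1
    have h4 : ((Nat.card G : ℕ) : ℤ) + ((∑ D, m1 D * fx (G ⧸ D.1) g : ℕ) : ℤ) =
        ((∑ D, m2 D * fx (G ⧸ D.1) g : ℕ) : ℤ) := by rw [← h1]; ring
    exact_mod_cast h4
  refine ⟨perm (Cop1 m1), perm (Cop m2), riso_of_fx _ _ h, ?_⟩
  have hz : (perm (Cop m2) : TSet G).nfix = 0 := by
    unfold TSet.nfix
    have : IsEmpty {t : Cop m2 // (perm (Cop m2) : TSet G).Fix t} := by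
      refine ⟨fun t => hG ?_⟩
      obtain ⟨⟨D, i, y⟩, ht⟩ := t
      have h1 : D.1 = ⊤ := by
        rw [eq_top_iff]
        intro g _
        have h2 : (y.out * g * y.out⁻¹) • y = y := by
          have h3 := ht (y.out * g * y.out⁻¹)
          have h4 : (⟨D, (i, (y.out * g * y.out⁻¹) • y)⟩ : Cop m2) = ⟨D, (i, y)⟩ := h3
          simpa using h4
        conv_lhs at h2 => rw [← QuotientGroup.out_eq' y]
        rw [MulAction.Quotient.smul_mk, smul_eq_mul, QuotientGroup.out_eq',
          inv_mul_cancel_right] at h2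
        conv_rhs at h2 => rw [← QuotientGroup.out_eq' y]
        rw [eq_comm, QuotientGroup.eq, inv_mul_cancel_left] at h2
        exact h2
      have h2 := D.2
      rw [h1] at h2
      exact isCyclic_of_surjective (Subgroup.topEquiv (G := G)).toMonoidHom
        (Subgroup.topEquiv (G := G)).surjective
    exact Nat.card_of_isEmpty
  have hp : (perm (Cop1 m1) : TSet G).nfix ≠ 0 := by
    unfold TSet.nfix
    haveI : Nonempty {t : Cop1 m1 // (perm (Cop1 m1) : TSet G).Fix t} :=
      ⟨⟨Sum.inl ⟨0, Nat.card_pos⟩, fun _ => rfl⟩⟩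
    exact Nat.card_pos.ne'
  rw [hz]
  exact hp

end

/-! ### the group of order two -/

section
variable {G : Type} [Group G] [Finite G]

theorem mul_self_two (h2 : Nat.card G = 2) {g h : G} (hg : g ≠ 1) (hh : h ≠ 1) : g * h = 1 := by
  classical
  haveI := Fintype.ofFinite G
  by_contra hne
  have h3 : ({1, g, g * h} : Finset G).card ≤ Fintype.card G := Finset.card_le_univ _
  rw [← Nat.card_eq_fintype_card, h2, Finset.card_insert_of_notMem (by
    simp only [Finset.mem_insert, Finset.mem_singleton, not_or]
    exact ⟨Ne.symm hg, Ne.symm hne⟩), Finset.card_insert_of_notMem (by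
    simp only [Finset.mem_singleton]
    intro h4
    have h5 : g * 1 = g * h := by rw [mul_one]; exact h4
    exact hh (mul_left_cancel h5).symm), Finset.card_singleton] at h3
  omega

open Classical in
/-- the sign character of the group of order two -/
def chi (g : G) : ℤˣ := if g = 1 then 1 else -1

omit [Finite G] in
theorem chi_one : chi (1 : G) = 1 := if_pos rfl

omit [Finite G] in
theorem chi_ne {g : G} (hg : g ≠ 1) : chi g = -1 := if_neg hg

theorem chi_mul (h2 : Nat.card G = 2) (g h : G) : chi (g * h) = chi g * chi h := by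
  by_cases hg : g = 1
  · rw [hg, one_mul, chi_one, one_mul]
  · by_cases hh : h = 1
    · rw [hh, mul_one, chi_one, mul_one]
    · rw [mul_self_two h2 hg hh, chi_one, chi_ne hg, chi_ne hh]
      simp

/-- two fixed points, with the trivial and the nontrivial sign -/
def twoPts (h2 : Nat.card G = 2) : TSet G where
  T := Bool
  act :=
    { smul := fun _ b => b
      one_smul := fun _ => rfl
      mul_smul := fun _ _ _ => rfl }
  sgn g b := if b then chi g else 1
  sgn_one b := by
    cases b
    · rfl
    · exact chi_one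
  sgn_mul g h b := by
    cases b
    · rfl
    · exact chi_mul h2 g h

theorem exists_two (h2 : Nat.card G = 2) :
    ∃ (T T' : TSet G), Nonempty (RIso T T') ∧ T.nfix ≠ T'.nfix := by
  classical
  haveI := Fintype.ofFinite G
  have hone : sr (chi (1 : G)) = 1 := by rw [chi_one, sr_one]
  have hneg : ∀ g : G, g ≠ 1 → sr (chi g) = -1 := by
    intro g hg
    rw [chi_ne hg]
    simp [sr]
  have hcard : Fintype.card G = 2 := by rw [← Nat.card_eq_fintype_card, h2]
  have hsum : ∑ g : G, sr (chi g) = 0 := by
    have h1 : ∀ g : G, sr (chi g) = (if g = 1 then (2 : ℝ) else 0) - 1 := by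
      intro g
      by_cases hg : g = 1
      · rw [hg, hone, if_pos rfl]; norm_num
      · rw [hneg g hg, if_neg hg]; norm_num
    rw [Finset.sum_congr rfl fun g _ => h1 g, Finset.sum_sub_distrib, Finset.sum_ite_eq']
    simp [hcard]
  have hinv : ∀ g h : G, sr (chi g) * sr (chi h) = if g = h then 1 else -1 := by
    intro g h
    by_cases hgh : g = h
    · rw [if_pos hgh, hgh, sr_sq]
    · rw [if_neg hgh]
      by_cases hg : g = 1
      · rw [hg, hone, hneg h (fun h' => hgh (hg.trans h'.symm))]; norm_num
      · by_cases hh : h = 1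
        · rw [hh, hone, hneg g hg]; norm_num
        · exfalso
          apply hgh
          have h3 := mul_self_two h2 hg hh
          have h4 := mul_self_two h2 hh hh
          exact mul_right_cancel (h3.trans h4.symm)
  let m : G → Bool → ℝ := fun g b => if b then sr (chi g) else 1
  have e1 : ∀ (g t : G) (b : Bool), m t b * sr (if b then chi g else 1) = sr 1 * m (g * t) b := by
    intro g t b
    cases b
    · simp [m, sr]
    · simp only [m, if_true]
      rw [chi_mul h2, sr_mul, sr_one]
      ring
  have e2 : ∀ t s : G, (∑ b : Bool, m t b * ((1 / 2) * m s b)) = if t = s then 1 else 0 := by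
    intro t s
    rw [Fintype.sum_bool]
    simp only [m, if_true, Bool.false_eq_true, if_false]
    have h3 := hinv t s
    by_cases hts : t = s
    · rw [if_pos hts] at h3
      rw [if_pos hts]
      linarith
    · rw [if_neg hts] at h3
      rw [if_neg hts]
      linarith
  have e3 : ∀ b c : Bool, (∑ g : G, ((1 / 2) * m g b) * m g c) = if b = c then 1 else 0 := by
    intro b c
    cases b <;> cases c
    · simp [m, hcard]
    · simp only [m, Bool.false_eq_true, if_false, if_true, mul_one]
      rw [← Finset.mul_sum, hsum]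
      simp
    · simp only [m, Bool.false_eq_true, if_false, if_true, mul_one]
      rw [← Finset.mul_sum, hsum]
      simp
    · simp only [m, if_true]
      have h3 : ∀ g : G, (1 / 2 : ℝ) * sr (chi g) * sr (chi g) = 1 / 2 := by
        intro g
        rw [mul_assoc, sr_sq, mul_one]
      rw [Finset.sum_congr rfl fun g _ => h3 g]
      simp [hcard]
  refine ⟨perm G, twoPts h2, ⟨⟨m, fun b g => (1 / 2) * m g b, e1, ?_, ?_⟩⟩, ?_⟩
  · intro t s
    refine (e2 t s).trans ?_
    congr
  · intro b c
    refine (e3 b c).trans ?_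
    congr
  · have h3 : (perm G : TSet G).nfix = 0 := by
      unfold TSet.nfix
      have : IsEmpty {t : G // (perm G : TSet G).Fix t} := by
        refine ⟨fun t => ?_⟩
        obtain ⟨t, ht⟩ := t
        have h4 : ∀ g : G, g = 1 := by
          intro g
          have h5 : g * t = t := ht g
          exact mul_eq_right.mp h5
        have h6 : Nat.card G = 1 := by
          haveI : Subsingleton G := ⟨fun a b => by rw [h4 a, h4 b]⟩
          exact Nat.card_of_subsingleton (1 : G)
        omega
      exact Nat.card_of_isEmpty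
    have h4 : (twoPts h2).nfix ≠ 0 := by
      unfold TSet.nfix
      haveI : Nonempty {t : (twoPts h2).T // (twoPts h2).Fix t} := ⟨⟨true, fun _ => rfl⟩⟩
      exact Nat.card_pos.ne'
    rw [h3]
    exact Ne.symm h4

end

end Pool.Agent.H859.ST
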