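import Mathlib
import Pool.Agent.H859.ST.Mod

/-!
The real reduced group `C*`-algebra and its trace.
-/

set_option autoImplicit false
set_option linter.style.haveILetI false

open Set

noncomputable section

namespace Pool.Agent.H859.ST

open Pool.Agent.N774.Stolz

variable (Γ : Type) [Group Γ]

theorem incl_apply (a : MonoidAlgebra ℝ Γ) : incl Γ a = inclFun Γ a := rfl

/-- the underlying operator -/
def CRed.val {Γ : Type} [Group Γ] (a : CRed Γ) : L2 Γ →L[ℝ] L2 Γ := Subtype.val (show CAlg Γ from a)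

theorem incl_val (a : MonoidAlgebra ℝ Γ) : (incl Γ a).val = lam Γ a := rfl

theorem denseRange_incl : DenseRange (incl Γ) := by
  intro x
  have key : ∀ y : CAlg Γ, y ∈ closure (range fun a => (⟨lam Γ a, lam_mem Γ a⟩ : CAlg Γ)) := by
    intro y
    rw [closure_subtype]
    have h : Subtype.val '' range (fun a => (⟨lam Γ a, lam_mem Γ a⟩ : CAlg Γ)) =
        ((lam Γ).range : Set (Op Γ)) := by
      ext y
      constructor
      · rintro ⟨_, ⟨a, rfl⟩, rfl⟩
        exact ⟨a, rfl⟩
      · rintro ⟨a, rfl⟩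
        exact ⟨⟨lam Γ a, lam_mem Γ a⟩, ⟨a, rfl⟩, rfl⟩
    rw [h]
    exact y.2
  exact key x

/-- The function `δ_1`. -/
def delta1 : L2 Γ := by
  classical
  exact (show lp (fun _ : Γ => ℝ) 2 from lp.single 2 (1 : Γ) (1 : ℝ))

/-- evaluation at `1` -/
def ev1 : L2 Γ →L[ℝ] ℝ :=
  (show lp (fun _ : Γ => ℝ) 2 →L[ℝ] ℝ from lp.evalCLM ℝ (fun _ : Γ => ℝ) 2 (1 : Γ))

/-- the canonical trace, as a continuous linear functional -/
def tauL : CAlg Γ →L[ℝ] ℝ :=
  (ev1 Γ).comp
    ((ContinuousLinearMap.apply ℝ (L2 Γ) (delta1 Γ)).comp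
      (show (CAlg Γ).toSubmodule →L[ℝ] (L2 Γ →L[ℝ] L2 Γ) from (CAlg Γ).toSubmodule.subtypeL))

/-- The canonical trace `a ↦ (a δ_1)(1)` of the reduced group `C*`-algebra. -/
def tau : CRed Γ →+ ℝ := (tauL Γ).toLinearMap.toAddMonoidHom

theorem tau_apply (a : CRed Γ) : tau Γ a = (a.val (delta1 Γ)).at 1 := rfl

theorem lam_single (g : Γ) (c : ℝ) : lam Γ (MonoidAlgebra.single g c) = c • ltr g :=
  MonoidAlgebra.lift_single _ _ _

theorem tau_single (g : Γ) (c : ℝ) :
    tau Γ (incl Γ (MonoidAlgebra.single g c)) = (MonoidAlgebra.single g c).coeff 1 := by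
  classical
  rw [tau_apply, incl_val, lam_single]
  show c * (delta1 Γ).at (g⁻¹ * 1) = _
  rw [mul_one]
  have h1 : (delta1 Γ).at g⁻¹ = if g = 1 then 1 else 0 := by
    show (lp.single 2 (1 : Γ) (1 : ℝ) : lp (fun _ : Γ => ℝ) 2) g⁻¹ = _
    rw [lp.single_apply]
    by_cases hg : g = 1
    · rw [if_pos hg, hg, inv_one, Pi.single_eq_same]
    · rw [if_neg hg, Pi.single_eq_of_ne]
      simpa using hg
  rw [h1, MonoidAlgebra.coeff_single, Finsupp.single_apply]
  split_ifs <;> simp

theorem tau_incl (a : MonoidAlgebra ℝ Γ) : tau Γ (incl Γ a) = coeffOne Γ a := by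
  induction a using MonoidAlgebra.induction_linear with
  | zero => rw [(incl Γ).map_zero, (tau Γ).map_zero, (coeffOne Γ).map_zero]
  | add f g hf hg => rw [(incl Γ).map_add, (tau Γ).map_add, hf, hg, (coeffOne Γ).map_add]
  | single g c => exact tau_single Γ g c

theorem coeffOne_trace : IsTrace (coeffOne Γ) := by
  classical
  intro a b
  induction a using MonoidAlgebra.induction_linear with
  | zero => rw [zero_mul, mul_zero]
  | add f g hf hg =>
    rw [add_mul, (coeffOne Γ).map_add, hf, hg, mul_add, (coeffOne Γ).map_add]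
  | single g c =>
    induction b using MonoidAlgebra.induction_linear with
    | zero => rw [zero_mul, mul_zero]
    | add f g hf hg =>
      rw [mul_add, (coeffOne Γ).map_add, hf, hg, add_mul, (coeffOne Γ).map_add]
    | single h d =>
      rw [MonoidAlgebra.single_mul_single, MonoidAlgebra.single_mul_single]
      show (MonoidAlgebra.single (g * h) (c * d)).coeff 1 =
        (MonoidAlgebra.single (h * g) (d * c)).coeff 1
      rw [MonoidAlgebra.coeff_single, MonoidAlgebra.coeff_single, Finsupp.single_apply,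
        Finsupp.single_apply]
      have : g * h = 1 ↔ h * g = 1 := mul_eq_one_iff_eq_inv.trans
        ⟨fun h1 => by rw [h1]; group, fun h1 => by rw [eq_inv_iff_mul_eq_one.mpr h1]; group⟩
      by_cases h1 : g * h = 1
      · rw [if_pos h1, if_pos (this.mp h1), mul_comm]
      · rw [if_neg h1, if_neg (fun h2 => h1 (this.mpr h2))]

theorem tau_trace : IsTrace (tau Γ) := by
  intro a b
  refine DenseRange.induction_on₂ (denseRange_incl Γ)
    (p := fun a b => tau Γ (a * b) = tau Γ (b * a)) ?_ ?_ a b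
  · have h1 : Continuous fun q : CAlg Γ × CAlg Γ => (q.1.1 : Op Γ) :=
      continuous_subtype_val.comp continuous_fst
    have h2 : Continuous fun q : CAlg Γ × CAlg Γ => (q.2.1 : Op Γ) :=
      continuous_subtype_val.comp continuous_snd
    have h3 : Continuous fun q : (L2 Γ →L[ℝ] L2 Γ) × (L2 Γ →L[ℝ] L2 Γ) =>
        ((q.1 * q.2) (delta1 Γ)).at (1 : Γ) :=
      ((ev1 Γ).comp
        (ContinuousLinearMap.apply ℝ (L2 Γ) (delta1 Γ))).continuous.comp
          (continuous_fst.mul continuous_snd)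
    have h4 : IsClosed {q : CAlg Γ × CAlg Γ |
        (fun q : Op Γ × Op Γ => ((show L2 Γ →L[ℝ] L2 Γ from q.1 * q.2) (delta1 Γ)).at (1 : Γ))
          (q.1.1, q.2.1) =
        (fun q : Op Γ × Op Γ => ((show L2 Γ →L[ℝ] L2 Γ from q.1 * q.2) (delta1 Γ)).at (1 : Γ))
          (q.2.1, q.1.1)} :=
      isClosed_eq (Continuous.comp h3 (h1.prodMk h2)) (Continuous.comp h3 (h2.prodMk h1))
    exact h4
  · intro x y
    rw [← (incl Γ).map_mul, ← (incl Γ).map_mul, tau_incl, tau_incl]
    exact coeffOne_trace Γ x y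

end Pool.Agent.H859.ST
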