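import Mathlib
import Pool.Agent.H859.ST.Ind
import Pool.Agent.H859.ST.CRed

/-!
The index map is not injective, given isomorphic signed permutation modules of a finite subgroup with
different numbers of fixed points.
-/

set_option autoImplicit false
set_option linter.style.haveILetI false

open Set Manifold Bundle
open scoped Manifold ContDiff Topology

noncomputable section

namespace Pool.Agent.H859.ST

open Pool.Agent.N774.Stolz

variable {Γ : Type} [Group Γ] {X : Type} [TopologicalSpace X] [MulAction Γ X]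

section
variable (S : SSet Γ) (f : S.S → X) (hf : ∀ (g : Γ) s, f (g • s) = g • f s)
  (U : Set S.S) (hU : ∀ (g : Γ) s, g • s ∈ U ↔ s ∈ U)

theorem clopen1 : IsClopen {e : S.S × P0 | (fr1 S e).pt ∈ U} := by
  have h : IsClopen U := isClopen_discrete U
  exact h.preimage continuous_fst

/-- the closed manifold `S` with the orientation reversed over `U` -/
def tri : Triple Γ X 0 := flipT (triple1 S f hf) U (clopen1 S U) hU

theorem compl_inv {U : Set S.S} (hU : ∀ (g : Γ) s, g • s ∈ U ↔ s ∈ U) (g : Γ) (s : S.S) :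
    g • s ∈ Uᶜ ↔ s ∈ Uᶜ := not_congr (hU g s)

theorem isSpinors1 : IsCompactSpinors (tri S f hf U hU).toSpinMfd id
    (S.sub Uᶜ (compl_inv S hU)).dual.fgp (spjT S Uᶜ (compl_inv S hU)) where
  injective := spjT_injective S Uᶜ (compl_inv S hU)
  add := spjT_add S Uᶜ (compl_inv S hU)
  smul := spjT_smul S Uᶜ (compl_inv S hU)
  range := spjT_range S U Uᶜ (compl_inv S hU) (frU_id S U)

theorem isSpinors2 : IsCompactSpinors (tri S f hf U hU).toSpinMfd (starRingEnd ℂ)
    (S.sub U hU).dual.fgp (spjT S U hU) where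
  injective := spjT_injective S U hU
  add := spjT_add S U hU
  smul := spjT_smul S U hU
  range := spjT_range S U U hU (frU_conj S U)

variable {R : Type} [Ring R] (i : MonoidAlgebra ℝ Γ →+* R) (B : Factor)
    (Θ : RLim Γ X B 0 → K0 R) (hΘ : IsIndexOnPoints i B Θ)

include hΘ in
theorem theta_trace (τ : R →+ ℝ) (hτ : IsTrace τ) (hi : ∀ a, τ (i a) = coeffOne Γ a) :
    trK τ hτ (Θ ((tri S f hf U hU).cls B)) =
      ((Nat.card {j : S.J // S.pt j ∉ U} : ℝ) - Nat.card {j : S.J // S.pt j ∈ U}) / S.N := by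
  obtain ⟨V', u, hu⟩ := exists_baseChange i (S.sub Uᶜ (compl_inv S hU)).dual
  obtain ⟨W', w, hw⟩ := exists_baseChange i (S.sub U hU).dual
  obtain ⟨b, hb⟩ := hu.dualBasis (S.sub Uᶜ (compl_inv S hU)).dual
  obtain ⟨c, hc⟩ := hw.dualBasis (S.sub U hU).dual
  have hτi : τ.comp i.toAddMonoidHom = coeffOne Γ := AddMonoidHom.ext fun a => hi a
  rw [hΘ _ _ _ _ _ V' W' u w (isSpinors1 S f hf U hU) (isSpinors2 S f hf U hU) hu hw, map_sub,
    trK_mk hτ V' b, trK_mk hτ W' c, hb, hc, hτi, SSet.tr_dual, SSet.tr_dual, sub_div]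
  congr 2
  · rw [Fintype.card_eq_nat_card]
    rfl
  · rw [Fintype.card_eq_nat_card]
    rfl

include hΘ in
theorem theta_zero
    (φ : (S.sub Uᶜ (compl_inv S hU)).M ≃ₗ[MonoidAlgebra ℝ Γ] (S.sub U hU).M) :
    Θ ((tri S f hf U hU).cls B) = 0 := by
  obtain ⟨W', w, hw⟩ := exists_baseChange i (S.sub U hU).dual
  rw [hΘ _ _ _ _ _ W' W' _ w (isSpinors1 S f hf U hU) (isSpinors2 S f hf U hU) (hw.congr φ) hw,
    sub_self]

end

/-! ### the property used -/

/-- the property of having `m` elements -/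
def QN (m : ℕ) (A : Set Γ) : Prop := Nat.card A = m

theorem conjInv_QN (m : ℕ) : ConjInv (QN (Γ := Γ) m) := by
  intro g A
  have e : {h : Γ | g⁻¹ * h * g ∈ A} ≃ A :=
    { toFun := fun h => ⟨g⁻¹ * h.1 * g, h.2⟩
      invFun := fun h => ⟨g * h.1 * g⁻¹, by
        show g⁻¹ * (g * h.1 * g⁻¹) * g ∈ A
        have : g⁻¹ * (g * h.1 * g⁻¹) * g = h.1 := by group
        rw [this]
        exact h.2⟩
      left_inv := fun h => by
        apply Subtype.ext
        show g * (g⁻¹ * h.1 * g) * g⁻¹ = h.1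
        group
      right_inv := fun h => by
        apply Subtype.ext
        show g⁻¹ * (g * h.1 * g⁻¹) * g = h.1
        group }
  show Nat.card {h : Γ | g⁻¹ * h * g ∈ A} = m ↔ Nat.card A = m
  rw [Nat.card_congr e]

theorem germ_spin1 (S : SSet Γ) (s : S.S) : germ (spin1 S) s = {g : Γ | g • s = s} := by
  ext g
  constructor
  · exact fun h => smul_of_germ (spin1 S) h
  · intro h v
    exact tb_eq1 S h

/-! ### the example -/

section
variable {G : Subgroup Γ} [Countable Γ] [Finite G] (T T' : TSet G)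

/-- the second part of `Γ ×_G (T ⊔ T')` -/
def UU : Set (ind G (T.sum T')).S :=
  {s | ∃ t' : T'.T, Prod.snd (show (Γ ⧸ G) × (T.T ⊕ T'.T) from s) = Sum.inr t'}

theorem mem_UU_inl (x : Γ ⧸ G) (t : T.T) :
    (pI x (show (T.sum T').T from Sum.inl t) : (ind G (T.sum T')).S) ∉ UU T T' := by
  rintro ⟨t', ht'⟩
  exact Sum.inl_ne_inr ht'

theorem mem_UU_inr (x : Γ ⧸ G) (t' : T'.T) :
    (pI x (show (T.sum T').T from Sum.inr t') : (ind G (T.sum T')).S) ∈ UU T T' := ⟨t', rfl⟩

theorem UU_inv (g : Γ) (s : (ind G (T.sum T')).S) : g • s ∈ UU T T' ↔ s ∈ UU T T' := by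
  obtain ⟨x, t | t'⟩ := s
  · exact iff_of_false (mem_UU_inl T T' (g • x) (coc G g x • t)) (mem_UU_inl T T' x t)
  · exact iff_of_true (mem_UU_inr T T' (g • x) (coc G g x • t')) (mem_UU_inr T T' x t')

/-- the first part is `Γ ×_G T` -/
def equivL : ((ind G (T.sum T')).sub (UU T T')ᶜ (compl_inv _ (UU_inv T T'))).S ≃ (ind G T).S where
  toFun s :=
    match s with
    | ⟨(x, Sum.inl t), _⟩ => pI x t
    | ⟨(x, Sum.inr t'), h⟩ => absurd (mem_UU_inr T T' x t') h
  invFun s := (ind G (T.sum T')).mkSub _ (compl_inv _ (UU_inv T T'))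
    (pI (Prod.fst (show (Γ ⧸ G) × T.T from s))
      (show (T.sum T').T from Sum.inl (Prod.snd (show (Γ ⧸ G) × T.T from s))))
    (mem_UU_inl T T' _ _)
  left_inv s := by
    obtain ⟨⟨x, t | t'⟩, h⟩ := s
    · rfl
    · exact absurd (mem_UU_inr T T' x t') h
  right_inv s := rfl

/-- the second part is `Γ ×_G T'` -/
def equivR : ((ind G (T.sum T')).sub (UU T T') (UU_inv T T')).S ≃ (ind G T').S where
  toFun s :=
    match s with
    | ⟨(x, Sum.inl t), h⟩ => absurd h (mem_UU_inl T T' x t)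
    | ⟨(x, Sum.inr t'), _⟩ => pI x t'
  invFun s := (ind G (T.sum T')).mkSub _ (UU_inv T T')
    (pI (Prod.fst (show (Γ ⧸ G) × T'.T from s))
      (show (T.sum T').T from Sum.inr (Prod.snd (show (Γ ⧸ G) × T'.T from s))))
    (mem_UU_inr T T' _ _)
  left_inv s := by
    obtain ⟨⟨x, t | t'⟩, h⟩ := s
    · exact absurd h (mem_UU_inl T T' x t)
    · rfl
  right_inv s := rfl

/-- the isomorphism of the modules of spinors -/
def isoLR (r : RIso T T') :
    ((ind G (T.sum T')).sub (UU T T')ᶜ (compl_inv _ (UU_inv T T'))).M ≃ₗ[MonoidAlgebra ℝ Γ]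
      ((ind G (T.sum T')).sub (UU T T') (UU_inv T T')).M :=
  ((isoOfEquiv _ _ (equivL T T') (by
    rintro g ⟨⟨x, t | t'⟩, h⟩
    · rfl
    · exact absurd (mem_UU_inr T T' x t') h) (by
    rintro g ⟨⟨x, t | t'⟩, h⟩
    · rfl
    · exact absurd (mem_UU_inr T T' x t') h)).trans (indIso r)).trans
  (isoOfEquiv _ _ (equivR T T') (by
    rintro g ⟨⟨x, t | t'⟩, h⟩
    · exact absurd h (mem_UU_inl T T' x t)
    · rfl) (by
    rintro g ⟨⟨x, t | t'⟩, h⟩
    · exact absurd h (mem_UU_inl T T' x t)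
    · rfl)).symm

variable {T T'} (x₀ : X) (hx₀ : ∀ g ∈ G, g • x₀ = x₀)

/-- the map to `X` -/
def mapX (T : TSet G) (x₀ : X) (s : (ind G T).S) : X :=
  (Prod.fst (show (Γ ⧸ G) × T.T from s)).out • x₀

omit [TopologicalSpace X] in
include hx₀ in
theorem mapX_smul (T : TSet G) (g : Γ) (s : (ind G T).S) :
    mapX T x₀ (g • s) = g • mapX T x₀ s := by
  obtain ⟨x, t⟩ := s
  show (g • x).out • x₀ = g • x.out • x₀
  have h1 := hx₀ _ (coc G g x).2
  have h2 : ((coc G g x : G) : Γ) = (g • x).out⁻¹ * (g * x.out) := rfl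
  rw [h2, mul_smul, inv_smul_eq_iff, mul_smul] at h1
  exact h1.symm

variable {R : Type} [Ring R] (i : MonoidAlgebra ℝ Γ →+* R) (B : Factor)
    (Θ : RLim Γ X B 0 → K0 R) (hΘ : IsIndexOnPoints i B Θ)

variable (T T') in
/-- the set over which the orientation is reversed after the operation -/
def VV : Set (ind G (T.sum T')).S := symmDiff (UU T T') {s | Nat.card {g : Γ // g • s = s} = Nat.card G}

theorem part_eq (S : SSet Γ) (m : ℕ) :
    part (spin1 S) (QN m) = {s : S.S | Nat.card {g : Γ // g • s = s} = m} := by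
  ext s
  exact iff_of_eq (congrArg (fun A : Set Γ => Nat.card A = m) (germ_spin1 S s))

theorem VV_inv (g : Γ) (s : (ind G (T.sum T')).S) : g • s ∈ VV T T' ↔ s ∈ VV T T' := by
  have h1 := UU_inv T T' g s
  have h2 := smul_mem_part (spin1 (ind G (T.sum T'))) (conjInv_QN (Γ := Γ) (Nat.card G)) g s
  rw [part_eq] at h2
  unfold VV
  rw [Set.mem_symmDiff, Set.mem_symmDiff]
  have h3 : g • s ∈ {s : (ind G (T.sum T')).S | Nat.card {g : Γ // g • s = s} = Nat.card G} ↔
    s ∈ {s : (ind G (T.sum T')).S | Nat.card {g : Γ // g • s = s} = Nat.card G} := h2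
  rw [h1, h3]

/-- the example -/
def exT (T T' : TSet G) (x₀ : X) (hx₀ : ∀ g ∈ G, g • x₀ = x₀) : Triple Γ X 0 :=
  tri (ind G (T.sum T')) (mapX (T.sum T') x₀) (mapX_smul x₀ hx₀ (T.sum T')) (UU T T') (UU_inv T T')

include hΘ in
theorem theta_exT (r : RIso T T') : Θ ((exT T T' x₀ hx₀).cls B) = 0 :=
  theta_zero _ _ _ _ _ i B Θ hΘ (isoLR T T' r)

theorem rev_exT : revT (exT T T' x₀ hx₀) (conjInv_QN (Γ := Γ) (Nat.card G)) =
    tri (ind G (T.sum T')) (mapX (T.sum T') x₀) (mapX_smul x₀ hx₀ (T.sum T')) (VV T T') VV_inv := by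
  have h := revT_flipT (triple1 (ind G (T.sum T')) (mapX (T.sum T') x₀)
    (mapX_smul x₀ hx₀ (T.sum T'))) (UU T T') (clopen1 _ (UU T T')) (UU_inv T T')
    (conjInv_QN (Γ := Γ) (Nat.card G))
    (by
      have : symmDiff (UU T T') (part (spin1 (ind G (T.sum T'))) (QN (Nat.card G))) = VV T T' := by
        rw [part_eq]; rfl
      show IsClopen {e : (ind G (T.sum T')).S × P0 | (fr1 (ind G (T.sum T')) e).pt ∈
        symmDiff (UU T T') (part (spin1 (ind G (T.sum T'))) (QN (Nat.card G)))}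
      rw [this]
      exact clopen1 _ _)
    (by
      have : symmDiff (UU T T') (part (spin1 (ind G (T.sum T'))) (QN (Nat.card G))) = VV T T' := by
        rw [part_eq]; rfl
      show ∀ (g : Γ) (x : (ind G (T.sum T')).S), g • x ∈
        symmDiff (UU T T') (part (spin1 (ind G (T.sum T'))) (QN (Nat.card G))) ↔ x ∈
        symmDiff (UU T T') (part (spin1 (ind G (T.sum T'))) (QN (Nat.card G)))
      rw [this]
      exact VV_inv)
  refine h.trans ?_
  have : symmDiff (UU T T') (part (spin1 (ind G (T.sum T'))) (QN (Nat.card G))) = VV T T' := by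
    rw [part_eq]; rfl
  unfold tri
  congr 1

theorem card_VV (T T' : TSet G) (r : RIso T T') :
    ((Nat.card {j : (ind G (T.sum T')).J // (ind G (T.sum T')).pt j ∉ VV T T'} : ℝ) -
      Nat.card {j : (ind G (T.sum T')).J // (ind G (T.sum T')).pt j ∈ VV T T'}) =
      2 * T'.nfix - 2 * T.nfix := by
  classical
  have hl : ∀ t : T.T, (ind G (T.sum T')).pt (show (T.sum T').T from Sum.inl t) ∈ VV T T' ↔
      T.Fix t := by
    intro t
    unfold VV
    rw [Set.mem_symmDiff]
    have h1 := mem_UU_inl T T' (((1 : Γ) : Γ ⧸ G)) t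
    have h2 := card_stab (T.sum T')
      (pI (((1 : Γ) : Γ ⧸ G)) (show (T.sum T').T from Sum.inl t))
    have h3 := TSet.fix_inl T T' t
    have h4 := h2.trans h3
    constructor
    · rintro (⟨h, _⟩ | ⟨h, _⟩)
      · exact absurd h h1
      · exact h4.mp h
    · intro h
      exact Or.inr ⟨h4.mpr h, h1⟩
  have hr : ∀ t : T'.T, (ind G (T.sum T')).pt (show (T.sum T').T from Sum.inr t) ∈ VV T T' ↔
      ¬ T'.Fix t := by
    intro t
    unfold VV
    rw [Set.mem_symmDiff]
    have h1 := mem_UU_inr T T' (((1 : Γ) : Γ ⧸ G)) t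
    have h2 := card_stab (T.sum T')
      (pI (((1 : Γ) : Γ ⧸ G)) (show (T.sum T').T from Sum.inr t))
    have h3 := TSet.fix_inr T T' t
    have h4 := h2.trans h3
    constructor
    · rintro (⟨_, h⟩ | ⟨_, h⟩)
      · exact fun h5 => h (h4.mpr h5)
      · exact absurd h1 h
    · intro h
      exact Or.inl ⟨h1, fun h5 => h (h4.mp h5)⟩
  have e1 : Nat.card {j : (ind G (T.sum T')).J // (ind G (T.sum T')).pt j ∉ VV T T'} =
      Nat.card {t : T.T // ¬ T.Fix t} + Nat.card {t : T'.T // T'.Fix t} := by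
    rw [← Nat.card_sum]
    exact Nat.card_congr ((Equiv.subtypeSum (α := T.T) (β := T'.T)
      (p := fun j => (ind G (T.sum T')).pt j ∉ VV T T')).trans
      (Equiv.sumCongr (Equiv.subtypeEquivRight fun t => not_congr (hl t))
        (Equiv.subtypeEquivRight fun t => (not_congr (hr t)).trans not_not)))
  have e2 : Nat.card {j : (ind G (T.sum T')).J // (ind G (T.sum T')).pt j ∈ VV T T'} =
      Nat.card {t : T.T // T.Fix t} + Nat.card {t : T'.T // ¬ T'.Fix t} := by
    rw [← Nat.card_sum]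
    exact Nat.card_congr ((Equiv.subtypeSum (α := T.T) (β := T'.T)
      (p := fun j => (ind G (T.sum T')).pt j ∈ VV T T')).trans
      (Equiv.sumCongr (Equiv.subtypeEquivRight fun t => hl t)
        (Equiv.subtypeEquivRight fun t => hr t)))
  have e3 : ∀ (T : TSet G), Nat.card {t : T.T // T.Fix t} + Nat.card {t : T.T // ¬ T.Fix t} =
      Fintype.card T.T := by
    intro T
    rw [← Nat.card_sum, Fintype.card_eq_nat_card]
    exact Nat.card_congr (Equiv.sumCompl T.Fix)
  have e4 := e3 T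
  have e5 := e3 T'
  have e6 := r.card_eq
  rw [e1, e2]
  unfold TSet.nfix
  have h1 : (Nat.card {t : T.T // T.Fix t} : ℝ) + Nat.card {t : T.T // ¬ T.Fix t} =
      Fintype.card T.T := by exact_mod_cast e4
  have h2 : (Nat.card {t : T'.T // T'.Fix t} : ℝ) + Nat.card {t : T'.T // ¬ T'.Fix t} =
      Fintype.card T'.T := by exact_mod_cast e5
  have h3 : (Fintype.card T.T : ℝ) = Fintype.card T'.T := by exact_mod_cast e6
  push_cast
  linarith

include hΘ in
theorem theta_rev_exT (r : RIso T T') (τ : R →+ ℝ) (hτ : IsTrace τ)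
    (hi : ∀ a, τ (i a) = coeffOne Γ a) :
    trK τ hτ (Θ (revLim (conjInv_QN (Γ := Γ) (Nat.card G)) B 0 ((exT T T' x₀ hx₀).cls B))) =
      (2 * T'.nfix - 2 * T.nfix) / Nat.card G := by
  rw [revLim_cls, rev_exT, theta_trace _ _ _ _ _ i B Θ hΘ τ hτ hi, card_VV T T' r]
  rfl

include hΘ hx₀ in
/-- the kernel is infinite -/
theorem infinite_kernel (r : RIso T T') (hn : T.nfix ≠ T'.nfix) (τ : R →+ ℝ) (hτ : IsTrace τ)
    (hi : ∀ a, τ (i a) = coeffOne Γ a) : {c | Θ c = 0}.Infinite := by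
  have hinj : Function.Injective (fun a : ℕ =>
      (exT (T.times a) (T'.times a) x₀ hx₀).cls (Γ := Γ) (X := X) B) := by
    intro a b hab
    have h1 := congrArg (fun c => trK τ hτ (Θ (revLim (conjInv_QN (Γ := Γ) (Nat.card G)) B 0 c))) hab
    simp only at h1
    rw [theta_rev_exT x₀ hx₀ i B Θ hΘ (r.times a) τ hτ hi,
      theta_rev_exT x₀ hx₀ i B Θ hΘ (r.times b) τ hτ hi] at h1
    simp only [TSet.nfix_times] at h1
    have hG : (Nat.card G : ℝ) ≠ 0 := by exact_mod_cast (Nat.card_pos (α := G)).ne'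
    have hn' : (T'.nfix : ℝ) - T.nfix ≠ 0 := by
      rw [sub_ne_zero]
      exact_mod_cast hn.symm
    field_simp at h1
    push_cast at h1
    have h2 : (a : ℝ) * (T'.nfix - T.nfix) = b * (T'.nfix - T.nfix) := by linarith
    exact_mod_cast mul_right_cancel₀ hn' h2
  refine (Set.infinite_range_of_injective hinj).mono ?_
  rintro _ ⟨a, rfl⟩
  exact theta_exT x₀ hx₀ i B Θ hΘ (r.times a)

end

end Pool.Agent.H859.ST
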