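import Mathlib
import Pool.Agent.H859.ST.Main
import Pool.Agent.H859.ST.Artin

/-!
The index map for groups with torsion.
-/

set_option autoImplicit false
set_option linter.style.haveILetI false

open Set Manifold Bundle
open scoped Manifold ContDiff Topology

noncomputable section

namespace Pool.Agent.H859.ST

open Pool.Agent.N774.Stolz

variable {Γ : Type} [Group Γ] {X : Type} [TopologicalSpace X] [MulAction Γ X] {n : ℕ}

theorem newFr_empty (M : SpinMfd Γ n) (U : Set M.carrier) (hU : U = ∅) (e : M.P) :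
    newFr M U e = M.fr e := newFr_of_notMem M (by rw [hU]; exact notMem_empty _)

theorem flipT_empty (L : Triple Γ X n) (U : Set L.carrier) (h : U = ∅)
    (hU : IsClopen {e : L.P | (L.fr e).pt ∈ U})
    (hinv : ∀ (g : Γ) (x : L.carrier), g • x ∈ U ↔ x ∈ U) : flipT L U hU hinv = L := by
  have hF : (fun e : L.P => newFr L.toSpinMfd U e) = L.fr := by
    funext e
    exact newFr_empty L.toSpinMfd U h e
  have h := withFr_congr L hF
    (flip L.toSpinMfd U hU hinv).continuous_fr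
    (flip L.toSpinMfd U hU hinv).isOpenMap_fr
    (flip L.toSpinMfd U hU hinv).fr_eq_iff
    (flip L.toSpinMfd U hU hinv).orientation
    (flip L.toSpinMfd U hU hinv).nontrivial_fibre
    (flip L.toSpinMfd U hU hinv).fr_smul
    L.continuous_fr L.isOpenMap_fr L.fr_eq_iff L.orientation L.nontrivial_fibre L.fr_smul
  exact h

theorem revT_self (L : Triple Γ X n) {Q : Set Γ → Prop} (hQ : ConjInv Q)
    (h : ∀ x : L.carrier, ¬ Q (germ L.toSpinMfd x)) : revT L hQ = L := by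
  have h2 : part L.toSpinMfd Q = ∅ := by
    ext x
    exact iff_of_false (h x) (notMem_empty x)
  exact flipT_empty L _ h2 (isClopen_part L.toSpinMfd Q) (smul_mem_part L.toSpinMfd hQ)

/-- one point -/
def onePt (G : Type) [Group G] : TSet G where
  T := Unit
  act :=
    { smul := fun _ b => b
      one_smul := fun _ => rfl
      mul_smul := fun _ _ _ => rfl }
  sgn _ _ := 1
  sgn_one _ := rfl
  sgn_mul _ _ _ := rfl

section
variable [Countable Γ] (G : Subgroup Γ) [Finite G] (x₀ : X) (hx₀ : ∀ g ∈ G, g • x₀ = x₀)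

/-- The orbit `Γ / G`, as a closed spin manifold of dimension `0` with an action of `Γ`: all points are
positively oriented, the stabilisers act trivially on the spin structure, and the map to `X`
sends `g G` to `g x₀`, where `x₀` is a point fixed by `G`. -/
def orbit : Triple Γ X 0 :=
  triple1 (ind G (onePt G)) (mapX (onePt G) x₀) (mapX_smul x₀ hx₀ (onePt G))

variable {R : Type} [Ring R] (i : MonoidAlgebra ℝ Γ →+* R) (B : Factor)
    (Θ : RLim Γ X B 0 → K0 R) (hΘ : IsIndexOnPoints i B Θ)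

theorem empty_inv (g : Γ) (s : (ind G (onePt G)).S) :
    g • s ∈ (∅ : Set (ind G (onePt G)).S) ↔ s ∈ (∅ : Set (ind G (onePt G)).S) :=
  iff_of_false (notMem_empty _) (notMem_empty _)

theorem univ_inv (g : Γ) (s : (ind G (onePt G)).S) :
    g • s ∈ (univ : Set (ind G (onePt G)).S) ↔ s ∈ (univ : Set (ind G (onePt G)).S) :=
  iff_of_true (mem_univ _) (mem_univ _)

theorem isOrbit_orbit : IsOrbit G x₀ (orbit G x₀ hx₀) := by
  have hout : ((((1 : Γ) : Γ ⧸ G)).out : Γ) ∈ G := by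
    have h : (((((1 : Γ) : Γ ⧸ G)).out : Γ) : Γ ⧸ G) = ((1 : Γ) : Γ ⧸ G) :=
      QuotientGroup.out_eq' _
    rw [eq_comm, QuotientGroup.eq, inv_one, one_mul] at h
    exact h
  refine ⟨(pI ((1 : Γ) : Γ ⧸ G) () : (ind G (onePt G)).S), ?_, ?_, ?_,
    ((pI ((1 : Γ) : Γ ⧸ G) () : (ind G (onePt G)).S), (⟨⟨1, one_ne_zero⟩, 0⟩ : P0)), rfl, ?_, ?_⟩
  · exact hx₀ _ hout
  · rintro ⟨x, u⟩
    refine ⟨x.out, ?_⟩
    show ((x, u) : (Γ ⧸ G) × Unit) = (x.out • ((1 : Γ) : Γ ⧸ G), ())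
    rw [MulAction.Quotient.smul_mk, smul_eq_mul, mul_one, QuotientGroup.out_eq']
    rfl
  · intro g
    have h1 : g • (pI ((1 : Γ) : Γ ⧸ G) () : (ind G (onePt G)).S) =
        pI ((1 : Γ) : Γ ⧸ G) () ↔ g • ((1 : Γ) : Γ ⧸ G) = ((1 : Γ) : Γ ⧸ G) :=
      ⟨fun h => congrArg Prod.fst h, fun h => Prod.ext h rfl⟩
    refine h1.trans ?_
    rw [MulAction.Quotient.smul_mk, smul_eq_mul, mul_one, eq_comm, QuotientGroup.eq, inv_one,
      one_mul]
  · exact fun z => linC_id ⟨Or.inl rfl, rfl⟩ z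
  · intro g hg
    have h1 : g • (pI ((1 : Γ) : Γ ⧸ G) () : (ind G (onePt G)).S) = pI ((1 : Γ) : Γ ⧸ G) () := by
      refine Prod.ext ?_ rfl
      show g • ((1 : Γ) : Γ ⧸ G) = ((1 : Γ) : Γ ⧸ G)
      rw [MulAction.Quotient.smul_mk, smul_eq_mul, mul_one, eq_comm, QuotientGroup.eq, inv_one,
        one_mul]
      exact hg
    refine Prod.ext h1 (Prod.ext (Subtype.ext ?_) rfl)
    show (((1 : ℤˣ) : ℤ) : ℂ) * 1 = 1
    simp

theorem orbit_eq : orbit G x₀ hx₀ =
    tri (ind G (onePt G)) (mapX (onePt G) x₀) (mapX_smul x₀ hx₀ (onePt G)) ∅ (empty_inv G) :=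
  (flipT_empty _ _ rfl _ _).symm

theorem part_orbit :
    part (spin1 (ind G (onePt G))) (QN (Nat.card G)) = (univ : Set (ind G (onePt G)).S) := by
  rw [part_eq]
  ext s
  refine iff_of_true ?_ (mem_univ _)
  exact (card_stab (onePt G) s).mpr fun _ => rfl

theorem rev_orbit : revT (orbit G x₀ hx₀) (conjInv_QN (Γ := Γ) (Nat.card G)) =
    tri (ind G (onePt G)) (mapX (onePt G) x₀) (mapX_smul x₀ hx₀ (onePt G)) univ (univ_inv G) := by
  have h := part_orbit G
  show flipT (orbit G x₀ hx₀) (part (spin1 (ind G (onePt G))) (QN (Nat.card G))) _ _ = _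
  unfold tri
  congr 1

include hΘ in
theorem trace_orbit (τ : R →+ ℝ) (hτ : IsTrace τ) (hi : ∀ a, τ (i a) = coeffOne Γ a) :
    trK τ hτ (Θ ((orbit G x₀ hx₀).cls B)) = 1 / Nat.card G := by
  rw [orbit_eq, theta_trace _ _ _ _ _ i B Θ hΘ τ hτ hi]
  have h1 : Nat.card {j : (ind G (onePt G)).J //
      (ind G (onePt G)).pt j ∉ (∅ : Set (ind G (onePt G)).S)} = 1 := by
    rw [Nat.card_congr (Equiv.subtypeUnivEquiv fun j => notMem_empty _)]
    exact Nat.card_unique (α := Unit)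
  have h2 : Nat.card {j : (ind G (onePt G)).J //
      (ind G (onePt G)).pt j ∈ (∅ : Set (ind G (onePt G)).S)} = 0 := by
    have : IsEmpty {j : (ind G (onePt G)).J //
      (ind G (onePt G)).pt j ∈ (∅ : Set (ind G (onePt G)).S)} := ⟨fun j => notMem_empty _ j.2⟩
    exact Nat.card_of_isEmpty
  rw [h1, h2]
  show (((1 : ℕ) : ℝ) - ((0 : ℕ) : ℝ)) / (Nat.card G : ℝ) = _
  norm_num

include hΘ in
theorem trace_rev_orbit (τ : R →+ ℝ) (hτ : IsTrace τ) (hi : ∀ a, τ (i a) = coeffOne Γ a) :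
    trK τ hτ (Θ ((revT (orbit G x₀ hx₀) (conjInv_QN (Γ := Γ) (Nat.card G))).cls B)) =
      -(1 / Nat.card G) := by
  rw [rev_orbit, theta_trace _ _ _ _ _ i B Θ hΘ τ hτ hi]
  have h1 : Nat.card {j : (ind G (onePt G)).J //
      (ind G (onePt G)).pt j ∈ (univ : Set (ind G (onePt G)).S)} = 1 := by
    rw [Nat.card_congr (Equiv.subtypeUnivEquiv fun j => mem_univ _)]
    exact Nat.card_unique (α := Unit)
  have h2 : Nat.card {j : (ind G (onePt G)).J //
      (ind G (onePt G)).pt j ∉ (univ : Set (ind G (onePt G)).S)} = 0 := by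
    have : IsEmpty {j : (ind G (onePt G)).J //
      (ind G (onePt G)).pt j ∉ (univ : Set (ind G (onePt G)).S)} := ⟨fun j => j.2 (mem_univ _)⟩
    exact Nat.card_of_isEmpty
  rw [h1, h2]
  show (((0 : ℕ) : ℝ) - ((1 : ℕ) : ℝ)) / (Nat.card G : ℝ) = _
  ring

include hΘ in
/-- the class of the orbit `Γ / G` is different from the classes of all manifolds without points with
germ stabilisers of the order of `G` -/
theorem orbit_ne (τ : R →+ ℝ) (hτ : IsTrace τ) (hi : ∀ a, τ (i a) = coeffOne Γ a) (k : ℕ)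
    (N : Triple Γ X (0 + 8 * k)) (hN : ∀ x : N.carrier, Nat.card (germ N.toSpinMfd x) ≠ Nat.card G) :
    (Quot.mk _ ⟨k, N⟩ : RLim Γ X B 0) ≠ (orbit G x₀ hx₀).cls B := by
  intro h
  have h1 := congrArg (revLim (conjInv_QN (Γ := Γ) (Nat.card G)) B 0) h
  have h2 : revLim (conjInv_QN (Γ := Γ) (Nat.card G)) B 0 (Quot.mk _ ⟨k, N⟩) =
      (Quot.mk _ ⟨k, N⟩ : RLim Γ X B 0) := by
    show (Quot.mk _ ⟨k, revT N (conjInv_QN (Γ := Γ) (Nat.card G))⟩ : RLim Γ X B 0) = _
    rw [revT_self N (conjInv_QN (Γ := Γ) (Nat.card G)) hN]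
  rw [h2, h, revLim_cls] at h1
  have h3 : trK τ hτ (Θ ((orbit G x₀ hx₀).cls B)) =
      trK τ hτ (Θ ((revT (orbit G x₀ hx₀) (conjInv_QN (Γ := Γ) (Nat.card G))).cls B)) :=
    congrArg (fun c => trK τ hτ (Θ c)) h1
  rw [trace_orbit G x₀ hx₀ i B Θ hΘ τ hτ hi, trace_rev_orbit G x₀ hx₀ i B Θ hΘ τ hτ hi] at h3
  have hG : (0 : ℝ) < Nat.card G := by exact_mod_cast Nat.card_pos (α := G)
  have h4 : (0 : ℝ) < 1 / Nat.card G := by positivity
  linarith

include hΘ hx₀ in
/-- the kernel of the index map is infinite -/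
theorem kernel_infinite (τ : R →+ ℝ) (hτ : IsTrace τ) (hi : ∀ a, τ (i a) = coeffOne Γ a)
    (hG : ¬ (IsCyclic G ∧ Odd (Nat.card G))) : {c | Θ c = 0}.Infinite := by
  by_cases hc : IsCyclic G
  · -- an element of order two
    have h2 : 2 ∣ Nat.card G := by
      by_contra h
      exact hG ⟨hc, Nat.odd_iff.mpr (by omega)⟩
    haveI : Fact (Nat.Prime 2) := ⟨Nat.prime_two⟩
    obtain ⟨t, ht⟩ := exists_prime_orderOf_dvd_card' (G := G) 2 h2
    have ht' : orderOf (t : Γ) = 2 := by rw [Subgroup.orderOf_coe, ht]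
    let G₂ : Subgroup Γ := Subgroup.zpowers (t : Γ)
    have hle : G₂ ≤ G := by
      rw [Subgroup.zpowers_le]
      exact t.2
    have hcard : Nat.card G₂ = 2 := by rw [Nat.card_zpowers, ht']
    haveI : Finite G₂ := Nat.finite_of_card_ne_zero (by rw [hcard]; norm_num)
    obtain ⟨T, T', ⟨r⟩, hn⟩ := exists_two (G := G₂) hcard
    exact infinite_kernel x₀ (fun g hg => hx₀ g (hle hg)) i B Θ hΘ r hn τ hτ hi
  · obtain ⟨T, T', ⟨r⟩, hn⟩ := exists_noncyclic (G := G) hc
    exact infinite_kernel x₀ hx₀ i B Θ hΘ r hn τ hτ hi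

omit [Countable Γ] in
theorem not_injective_of_infinite (h : {c | Θ c = 0}.Infinite) : ¬ Function.Injective Θ := by
  intro hinj
  obtain ⟨a, ha, b, hb, hab⟩ := h.nontrivial
  have ha : Θ a = 0 := ha
  have hb : Θ b = 0 := hb
  exact hab (hinj (ha.trans hb.symm))

end

end Pool.Agent.H859.ST
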